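import Pool.Agent.N979.CP.Stm

/-!
CPN2/SCA (project of helper979): scalar inequality. By helper56.
-/

set_option autoImplicit false

namespace Pool.Agent.N56.CP_SCA

open Finset

theorem prodAdd {ι : Type*} (s : Finset ι) (x : ι → ℝ) (hx : ∀ i ∈ s, 0 ≤ x i) :
    1 + ∑ i ∈ s, x i ≤ ∏ i ∈ s, (1 + x i) := by
  classical
  induction s using Finset.induction_on with
  | empty => simp
  | insert a s ha ih =>
    rw [Finset.sum_insert ha, Finset.prod_insert ha]
    have h1 := ih fun i hi => hx i (Finset.mem_insert_of_mem hi)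
    have h2 := hx a (Finset.mem_insert_self a s)
    have h3 : 0 ≤ ∑ i ∈ s, x i :=
      Finset.sum_nonneg fun i hi => hx i (Finset.mem_insert_of_mem hi)
    nlinarith [mul_nonneg h2 h3, mul_le_mul_of_nonneg_left h1 (by linarith : 0 ≤ 1 + x a)]

theorem prodSub {ι : Type*} (s : Finset ι) (x : ι → ℝ) (hx : ∀ i ∈ s, 0 ≤ x i ∧ x i ≤ 1) :
    1 - ∑ i ∈ s, x i ≤ ∏ i ∈ s, (1 - x i) ∧ ∏ i ∈ s, (1 - x i) ≤ 1 := by
  classical
  induction s using Finset.induction_on with
  | empty => simp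
  | insert a s ha ih =>
    rw [Finset.sum_insert ha, Finset.prod_insert ha]
    have h1 := ih fun i hi => hx i (Finset.mem_insert_of_mem hi)
    have h2 := hx a (Finset.mem_insert_self a s)
    have h3 : 0 ≤ ∏ i ∈ s, (1 - x i) :=
      Finset.prod_nonneg fun i hi => by
        have := hx i (Finset.mem_insert_of_mem hi)
        linarith [this.2]
    constructor
    · nlinarith [mul_le_mul_of_nonneg_left h1.2 h2.1, h1.1]
    · nlinarith [mul_nonneg h2.1 h3, h1.2]

theorem main : Pool.Agent.N979.CP.S_SCA := by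
  classical
  intro n p z hp hs
  have hp1 : ∀ i, p i ≤ 1 := fun i => by
    rw [← hs]
    exact Finset.single_le_sum (fun j _ => hp j) (Finset.mem_univ i)
  set I := Finset.univ.filter (fun i => 1 ≤ z i ^ 2) with hI
  set J := Finset.univ.filter (fun i => ¬ 1 ≤ z i ^ 2) with hJ
  have hprod : ∏ i, (1 + p i * (z i ^ 2 - 1)) =
      (∏ i ∈ I, (1 + p i * (z i ^ 2 - 1))) * ∏ i ∈ J, (1 - p i * (1 - z i ^ 2)) := by
    rw [← Finset.prod_filter_mul_prod_filter_not Finset.univ (fun i => 1 ≤ z i ^ 2)]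
    congr 1
    refine Finset.prod_congr rfl fun i _ => ?_
    ring
  have h1 : 1 + ∑ i ∈ I, p i * (z i ^ 2 - 1) ≤ ∏ i ∈ I, (1 + p i * (z i ^ 2 - 1)) := by
    refine prodAdd I _ fun i hi => mul_nonneg (hp i) ?_
    have := (Finset.mem_filter.mp hi).2
    linarith
  have h2 : 1 - ∑ i ∈ J, p i * (1 - z i ^ 2) ≤ ∏ i ∈ J, (1 - p i * (1 - z i ^ 2)) := by
    refine (prodSub J _ fun i hi => ?_).1
    have := (Finset.mem_filter.mp hi).2
    push Not at this
    have h3 := sq_nonneg (z i)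
    constructor
    · exact mul_nonneg (hp i) (by linarith)
    · nlinarith [hp i, hp1 i]
  set f : Fin n → ℝ := fun i => if 1 ≤ z i ^ 2 then p i * z i ^ 2 else p i with hf
  set g : Fin n → ℝ := fun i => if 1 ≤ z i ^ 2 then p i else p i * z i ^ 2 with hg
  have hf0 : ∀ i, 0 ≤ f i := fun i => by
    simp only [hf]
    split_ifs
    · exact mul_nonneg (hp i) (sq_nonneg _)
    · exact hp i
  have hg0 : ∀ i, 0 ≤ g i := fun i => by
    simp only [hg]
    split_ifs
    · exact hp i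
    · exact mul_nonneg (hp i) (sq_nonneg _)
  have hfs : ∑ i, f i = 1 + ∑ i ∈ I, p i * (z i ^ 2 - 1) := by
    have e1 : 1 + ∑ i ∈ I, p i * (z i ^ 2 - 1) = ∑ i, p i + ∑ i ∈ I, p i * (z i ^ 2 - 1) := by
      rw [hs]
    rw [e1, hI, Finset.sum_filter, ← Finset.sum_add_distrib]
    refine Finset.sum_congr rfl fun i _ => ?_
    simp only [hf]
    split_ifs <;> ring
  have hgs : ∑ i, g i = 1 - ∑ i ∈ J, p i * (1 - z i ^ 2) := by
    have e1 : 1 - ∑ i ∈ J, p i * (1 - z i ^ 2) = ∑ i, p i - ∑ i ∈ J, p i * (1 - z i ^ 2) := by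
      rw [hs]
    rw [e1, hJ, Finset.sum_filter, ← Finset.sum_sub_distrib]
    refine Finset.sum_congr rfl fun i _ => ?_
    simp only [hg]
    split_ifs <;> ring
  have hcs : (∑ i, p i * z i) ^ 2 ≤ (∑ i, f i) * ∑ i, g i := by
    refine Finset.sum_sq_le_sum_mul_sum_of_sq_le_mul Finset.univ (fun i _ => hf0 i)
      (fun i _ => hg0 i) fun i _ => le_of_eq ?_
    simp only [hf, hg]
    split_ifs <;> ring
  rw [hprod]
  refine hcs.trans ?_
  rw [hfs, hgs]
  refine mul_le_mul h1 h2 ?_ ?_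
  · rw [← hgs]
    exact Finset.sum_nonneg fun i _ => hg0 i
  · refine le_trans ?_ h1
    rw [← hfs]
    exact Finset.sum_nonneg fun i _ => hf0 i

end Pool.Agent.N56.CP_SCA
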