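import Pool.Agent.N699.AO.Stm

set_option autoImplicit false

namespace Pool.Agent.N56.AO
open Finset MeasureTheory intervalIntegral

theorem t_DIRI : Pool.Agent.N699.AO.DIRI := by
  intro R hR α h0 h1
  obtain ⟨q, hq, hqR⟩ := Real.exists_rat_abs_sub_le_and_den_le α (n := R) (by omega)
  have hden : (0 : ℝ) < q.den := by exact_mod_cast q.pos
  have hRpos : (1 : ℝ) ≤ R := by exact_mod_cast hR
  have hqv : (q : ℝ) = (q.num : ℝ) / q.den := by
    exact_mod_cast (Rat.num_div_den q).symm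
  have hlt : 1 / (((R : ℝ) + 1) * q.den) < 1 / q.den := by
    apply one_div_lt_one_div_of_lt hden
    nlinarith
  have habs := abs_le.1 hq
  have hnum0 : 0 ≤ q.num := by
    by_contra hneg
    push Not at hneg
    have h2 : (q.num : ℝ) ≤ -1 := by exact_mod_cast (by omega : q.num ≤ -1)
    have h3 : (q : ℝ) ≤ -(1 / q.den) := by
      rw [hqv, ← neg_div]
      exact div_le_div_of_nonneg_right h2 hden.le
    linarith [habs.2]
  have hnum1 : q.num ≤ q.den := by
    by_contra hneg
    push Not at hneg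
    have h2 : (q.den : ℝ) + 1 ≤ q.num := by exact_mod_cast (by omega : (q.den : ℤ) + 1 ≤ q.num)
    have h3 : 1 + 1 / (q.den : ℝ) ≤ q := by
      rw [hqv, le_div_iff₀ hden]
      have : (1 + 1 / (q.den : ℝ)) * q.den = q.den + 1 := by field_simp
      rw [this]; exact h2
    linarith [habs.1]
  obtain ⟨c, hc⟩ := Int.eq_ofNat_of_zero_le hnum0
  refine ⟨q.den, c, q.pos, hqR, by omega, ?_, ?_⟩
  · have := q.reduced
    rwa [hc] at this
  · have h4 : (q : ℝ) = (c : ℝ) / q.den := by
      rw [hqv, hc]; simp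
    rw [← h4]
    refine hq.trans ?_
    apply one_div_le_one_div_of_le (by positivity)
    nlinarith

theorem t_COV : Pool.Agent.N699.AO.COV := by
  intro R Φ E Ψ δ hΦ hE hΨ hΨ0 hE0 hδ hcov
  classical
  let I : ℕ → ℕ → ℝ → ℝ := fun Q c =>
    (Set.Icc ((c : ℝ) / Q - δ Q) ((c : ℝ) / Q + δ Q)).indicator (fun α => Ψ Q c (α - (c : ℝ) / Q))
  have hcont : ∀ Q c, Continuous (fun α : ℝ => Ψ Q c (α - (c : ℝ) / Q)) :=
    fun Q c => (hΨ Q c).comp (continuous_id.sub continuous_const)
  have hInt : ∀ Q c, Integrable (I Q c) := fun Q c =>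
    ((hcont Q c).integrableOn_Icc).integrable_indicator measurableSet_Icc
  have hI0 : ∀ Q c α, 0 ≤ I Q c α := fun Q c α =>
    Set.indicator_nonneg (fun x _ => hΨ0 _ _ _) _
  have hII : ∀ Q c, IntervalIntegrable (I Q c) volume 0 1 := fun Q c =>
    (hInt Q c).intervalIntegrable
  have hEI : IntervalIntegrable E volume 0 1 := hE.intervalIntegrable _ _
  have hsum : ∀ Q, IntervalIntegrable (fun α => ∑ c ∈ range (Q + 1), I Q c α) volume 0 1 := by
    intro Q
    have h := IntervalIntegrable.sum (range (Q + 1)) (fun c _ => hII Q c)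
    have he : (∑ i ∈ range (Q + 1), I Q i) = fun α => ∑ c ∈ range (Q + 1), I Q c α := by
      funext α; rw [Finset.sum_apply]
    rwa [he] at h
  have hsum2 : IntervalIntegrable (fun α => ∑ Q ∈ Icc 1 R, ∑ c ∈ range (Q + 1), I Q c α)
      volume 0 1 := by
    have h := IntervalIntegrable.sum (Icc 1 R) (fun Q _ => hsum Q)
    have he : (∑ Q ∈ Icc 1 R, fun α => ∑ c ∈ range (Q + 1), I Q c α) =
        fun α => ∑ Q ∈ Icc 1 R, ∑ c ∈ range (Q + 1), I Q c α := by
      funext α; rw [Finset.sum_apply]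
    rwa [he] at h
  have hle : ∫ α in (0 : ℝ)..1, Φ α ≤
      ∫ α in (0 : ℝ)..1, ((∑ Q ∈ Icc 1 R, ∑ c ∈ range (Q + 1), I Q c α) + E α) := by
    apply intervalIntegral.integral_mono_on zero_le_one (hΦ.intervalIntegrable _ _)
      (hsum2.add hEI)
    intro α hα
    obtain ⟨Q, hQ, c, hc, h1, h2⟩ := hcov α hα.1 hα.2
    have h3 : I Q c α = Ψ Q c (α - (c : ℝ) / Q) := by
      apply Set.indicator_of_mem
      rw [abs_le] at h1
      exact ⟨by linarith [h1.1], by linarith [h1.2]⟩
    have h4 : I Q c α ≤ ∑ c ∈ range (Q + 1), I Q c α :=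
      Finset.single_le_sum (f := fun c => I Q c α) (fun c _ => hI0 Q c α) hc
    have h5 : ∑ c ∈ range (Q + 1), I Q c α ≤ ∑ Q ∈ Icc 1 R, ∑ c ∈ range (Q + 1), I Q c α :=
      Finset.single_le_sum (f := fun Q => ∑ c ∈ range (Q + 1), I Q c α)
        (fun Q _ => Finset.sum_nonneg fun c _ => hI0 Q c α) hQ
    linarith
  refine hle.trans ?_
  rw [intervalIntegral.integral_add hsum2 hEI]
  apply add_le_add _ le_rfl
  rw [intervalIntegral.integral_finsetSum (fun Q _ => hsum Q)]
  apply Finset.sum_le_sum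
  intro Q _
  rw [intervalIntegral.integral_finsetSum (fun c _ => hII Q c)]
  apply Finset.sum_le_sum
  intro c _
  have h1 : ∫ α in (0 : ℝ)..1, I Q c α ≤ ∫ α, I Q c α := by
    rw [intervalIntegral.integral_of_le zero_le_one]
    exact setIntegral_le_integral (hInt Q c) (Filter.Eventually.of_forall (hI0 Q c))
  have h2 : ∫ α, I Q c α = ∫ β in (-δ Q)..(δ Q), Ψ Q c β := by
    rw [MeasureTheory.integral_indicator measurableSet_Icc, integral_Icc_eq_integral_Ioc,
      ← intervalIntegral.integral_of_le (by linarith [hδ Q]),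
      intervalIntegral.integral_comp_sub_right (fun x => Ψ Q c x)]
    congr 1 <;> ring
  rw [← h2]
  exact h1

theorem t_INTG : Pool.Agent.N699.AO.INTG := by
  intro V δ hV hδ
  have hcont : Continuous (fun β : ℝ => (1 + V * |β|) ^ (-(5 / 4) : ℝ)) := by
    apply Continuous.rpow_const
    · fun_prop
    · intro β
      left
      have : 0 ≤ V * |β| := by positivity
      linarith
  have hhalf : ∫ β in (0 : ℝ)..δ, (1 + V * |β|) ^ (-(5 / 4) : ℝ) ≤ 4 / V := by
    have hd : ∀ x ∈ Set.uIcc 0 δ, HasDerivAt (fun β : ℝ => -(4 / V) * (1 + V * β) ^ (-(1 / 4) : ℝ))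
        ((1 + V * x) ^ (-(5 / 4) : ℝ)) x := by
      intro x hx
      rw [Set.uIcc_of_le hδ] at hx
      have hpos : 0 < 1 + V * x := by
        have : 0 ≤ V * x := mul_nonneg hV.le hx.1
        linarith
      have h1 : HasDerivAt (fun β : ℝ => 1 + V * β) V x := by
        simpa using ((hasDerivAt_id x).const_mul V).const_add 1
      have h2 := (h1.rpow_const (p := (-(1 / 4) : ℝ)) (Or.inl hpos.ne')).const_mul (-(4 / V))
      have h3 : (-(1 / 4) : ℝ) - 1 = -(5 / 4) := by norm_num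
      rw [h3] at h2
      have h4 : -(4 / V) * (V * -(1 / 4) * (1 + V * x) ^ (-(5 / 4) : ℝ)) =
          (1 + V * x) ^ (-(5 / 4) : ℝ) := by
        field_simp
      rw [h4] at h2
      exact h2
    have hcong : ∫ β in (0 : ℝ)..δ, (1 + V * |β|) ^ (-(5 / 4) : ℝ) =
        ∫ β in (0 : ℝ)..δ, (1 + V * β) ^ (-(5 / 4) : ℝ) := by
      apply intervalIntegral.integral_congr
      intro β hβ
      rw [Set.uIcc_of_le hδ] at hβ
      simp only [abs_of_nonneg hβ.1]
    have hint : IntervalIntegrable (fun β : ℝ => (1 + V * β) ^ (-(5 / 4) : ℝ)) volume 0 δ := by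
      have h5 : IntervalIntegrable (fun β : ℝ => (1 + V * |β|) ^ (-(5 / 4) : ℝ)) volume 0 δ :=
        hcont.intervalIntegrable _ _
      refine h5.congr_uIoo ?_
      intro β hβ
      rw [Set.uIoo_of_le hδ] at hβ
      simp only [abs_of_nonneg hβ.1.le]
    rw [hcong, intervalIntegral.integral_eq_sub_of_hasDerivAt hd hint]
    have h6 : 0 ≤ (4 / V) * (1 + V * δ) ^ (-(1 / 4) : ℝ) := by positivity
    have h7 : (1 + V * 0 : ℝ) ^ (-(1 / 4) : ℝ) = 1 := by simp
    rw [h7]
    linarith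
  have hsymm : ∫ β in (-δ)..(0 : ℝ), (1 + V * |β|) ^ (-(5 / 4) : ℝ) =
      ∫ β in (0 : ℝ)..δ, (1 + V * |β|) ^ (-(5 / 4) : ℝ) := by
    have h := intervalIntegral.integral_comp_neg (a := 0) (b := δ)
      (fun β : ℝ => (1 + V * |β|) ^ (-(5 / 4) : ℝ))
    simp only [abs_neg, neg_zero] at h
    exact h.symm
  rw [← intervalIntegral.integral_add_adjacent_intervals (b := 0)
    (hcont.intervalIntegrable _ _) (hcont.intervalIntegrable _ _), hsymm]
  have : 8 / V = 4 / V + 4 / V := by ring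
  linarith

end Pool.Agent.N56.AO
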