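import Pool.Agent.N988.ED.Stm

/-!
# GLA: the Glauber dynamics is reversible
-/

set_option autoImplicit false

namespace Pool.Agent.N56.ED

open Pool.Agent.N988.EA Pool.Agent.N988.ED

theorem upd_eq {X : Type} [DecidableEq X] {σ s : X → Bool} {v : X}
    (h : ∀ x, x ≠ v → s x = σ x) (c : Bool) : Function.update s v c = Function.update σ v c := by
  funext x
  by_cases hx : x = v
  · rw [hx, Function.update_self, Function.update_self]
  · rw [Function.update_of_ne hx, Function.update_of_ne hx, h x hx]

theorem sum_one {X : Type} [Fintype X] [DecidableEq X] (w : (X → Bool) → ℝ) (hw : ∀ σ, 0 < w σ)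
    (σ : X → Bool) (v : X) (P : (X → Bool) → Prop) [DecidablePred P]
    (hP : ∀ s, P s ↔ ∀ x, x ≠ v → s x = σ x) :
    ∑ s : X → Bool, (if P s then
      w s / (w (Function.update σ v true) + w (Function.update σ v false)) else 0) = 1 := by
  have h : ∀ s : X → Bool, (if P s then
      w s / (w (Function.update σ v true) + w (Function.update σ v false)) else 0) =
      (if s = Function.update σ v true then
        w s / (w (Function.update σ v true) + w (Function.update σ v false)) else 0) +
      (if s = Function.update σ v false then
        w s / (w (Function.update σ v true) + w (Function.update σ v false)) else 0) := by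
    intro s
    by_cases hs : P s
    · have h1 := (hP s).1 hs
      have h2 : s = Function.update σ v (s v) := by
        rw [← upd_eq h1, Function.update_eq_self]
      rw [if_pos hs]
      cases hc : s v with
      | true =>
        rw [hc] at h2
        rw [if_pos h2, if_neg, add_zero]
        intro h3
        rw [h3, Function.update_self] at hc
        exact Bool.false_ne_true hc
      | false =>
        rw [hc] at h2
        rw [if_pos h2, if_neg, zero_add]
        intro h3
        rw [h3, Function.update_self] at hc
        exact Bool.false_ne_true hc.symm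
    · have h3 : ∀ c, s ≠ Function.update σ v c := by
        intro c h4
        apply hs
        rw [hP, h4]
        intro x hx
        rw [Function.update_of_ne hx]
      rw [if_neg hs, if_neg (h3 _), if_neg (h3 _), add_zero]
  rw [Finset.sum_congr rfl fun s _ => h s, Finset.sum_add_distrib, Finset.sum_ite_eq',
    Finset.sum_ite_eq', if_pos (Finset.mem_univ _), if_pos (Finset.mem_univ _), ← add_div]
  exact div_self (add_pos (hw _) (hw _)).ne'

theorem t_GLA : S_GLA := by
  intro b n J
  have hw : ∀ σ : Pt b n → Bool, 0 < wt J σ := fun σ => Real.exp_pos _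
  have hN : (0 : ℝ) < Fintype.card (Pt b n) := by
    have : Nonempty (Pt b n) := ⟨.inl true⟩
    exact_mod_cast Fintype.card_pos
  constructor
  · intro σ s
    unfold glauber
    refine div_nonneg (Finset.sum_nonneg fun v _ => ?_) hN.le
    split_ifs
    · exact div_nonneg (hw _).le (add_pos (hw _) (hw _)).le
    · exact le_rfl
  · intro σ
    unfold glauber
    rw [← Finset.sum_div, Finset.sum_comm, Finset.sum_congr rfl fun v _ =>
      sum_one (wt J) hw σ v (fun s => ∀ x, x ≠ v → s x = σ x) (fun s => Iff.rfl)]
    rw [Finset.sum_const, Finset.card_univ, nsmul_eq_mul, mul_one]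
    exact div_self hN.ne'
  · intro σ s
    unfold glauber gib
    rw [div_mul_div_comm, div_mul_div_comm]
    congr 1
    rw [Finset.mul_sum, Finset.mul_sum]
    refine Finset.sum_congr rfl fun v _ => ?_
    by_cases h : ∀ x, x ≠ v → s x = σ x
    · have h' : ∀ x, x ≠ v → σ x = s x := fun x hx => (h x hx).symm
      rw [if_pos h, if_pos h', upd_eq h, upd_eq h]
      ring
    · have h' : ¬ ∀ x, x ≠ v → σ x = s x := fun h2 => h fun x hx => (h2 x hx).symm
      rw [if_neg h, if_neg h', mul_zero, mul_zero]
  · intro σ s h0 h1
    unfold glauber
    rw [Finset.sum_eq_zero, zero_div]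
    intro v _
    rw [if_neg]
    intro h
    by_cases hv : v = .inl false
    · refine h1 (h _ ?_)
      rw [hv]
      intro h3
      exact Bool.false_ne_true (Sum.inl.inj h3).symm
    · exact h0 (h _ (Ne.symm hv))

end Pool.Agent.N56.ED
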