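import Pool.Agent.N20.EW.Stm
import Pool.Agent.N85.AW.Brg
import Pool.Agent.R674.KB.Dz

/-!
# EW/DF (helper56): characters of defect zero and blocks with trivial defect groups
-/

set_option autoImplicit false

open scoped Classical

noncomputable section

namespace Pool.Agent.N56.EWDF

open Pool.Agent.Y63.NV
open Pool.Agent.Y930.NV (ind Cf_ind mk_out cvh R)
open Pool.Agent.Y925.NV (kk kk_conj md)
open Pool.Agent.N85.AW.Brg (blk_a blk_b wt_iff kk_cent yy)

section

variable {F : Type} [Field F] {G : Type} [Group G] [Fintype G]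

theorem ind_conj (x : G) : (fun y : G => if IsConj x y then (1 : F) else 0) =
    ind F (ConjClasses.mk x) := by
  funext y
  unfold ind
  by_cases h : IsConj x y
  · rw [if_pos h, if_pos (ConjClasses.mk_eq_mk_iff_isConj.2 h.symm)]
  · rw [if_neg h, if_neg (fun h' => h (ConjClasses.mk_eq_mk_iff_isConj.1 h').symm)]

theorem cv_ind (B : (G → F) → F) (x : G) : classValue B x = B (ind F (ConjClasses.mk x)) := by
  unfold classValue
  exact congrArg B (ind_conj x)

theorem isClassFun_ind (C : ConjClasses G) : IsClassFun (ind F C) := fun g x => Cf_ind F C g x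

variable {p : ℕ} [Fact p.Prime] [CharP F p] (red : integralClosure ℤ ℂ →+* F)

theorem part1 {ψ : G → ℂ} (h : IsWt p (⊥ : Subgroup G) ψ) : IsBlock (centralValue red ψ) ∧
    IsDefectGroup p (centralValue red ψ) (⊥ : Subgroup G) := by
  refine ⟨cvh F red G ψ h.irr, ?_⟩
  obtain ⟨C, hC, hR⟩ := Pool.Agent.R674.KB.dz_class (F := F) red h
  rw [kk_cent] at hC
  have h0 : (Nat.card (Subgroup.centralizer ({C.out} : Set G))).factorization p = 0 :=
    Nat.factorization_eq_zero_of_not_dvd hC
  refine ⟨C.out, ?_, fun y _ => ?_, bot_le, IsPGroup.of_bot, ?_⟩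
  · rw [cv_ind, mk_out, Pool.Agent.R674.KB.cval_ind red h.irr]
    exact hR
  · rw [h0]
    exact Nat.zero_le _
  · rw [h0, Subgroup.card_bot, Nat.factorization_one]
    rfl

theorem part2 {B : (G → F) → F} (hB : IsBlock B) (y : G) (hy : classValue B y ≠ 0)
    (hp : ¬ p ∣ Nat.card ↥(Subgroup.centralizer {y})) : ∃ ψ : G → ℂ,
      IsWt p (⊥ : Subgroup G) ψ ∧ ∀ f : G → F, IsClassFun f → centralValue red ψ f = B f := by
  rw [cv_ind] at hy
  obtain ⟨χ, h1, h2, h3⟩ := blk_b red hB (isClassFun_ind (ConjClasses.mk y)) (by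
    intro x hx
    unfold ind
    rw [if_neg]
    intro hxy
    apply hp
    have h4 : IsConj x y := ConjClasses.mk_eq_mk_iff_isConj.1 hxy
    obtain ⟨g, hg⟩ := isConj_iff.1 h4
    have h5 : kk y = kk x := by
      rw [← hg]
      exact kk_conj g x
    rw [← kk_cent, h5]
    exact (CharP.cast_eq_zero_iff F p _).1 hx) hy
  refine ⟨χ, (wt_iff (F := F)).2 ⟨h1, h2⟩, fun f hf => ?_⟩
  exact (blk_a red hB h1 h3 f hf).symm

end

theorem DF0 : Pool.Agent.N20.EW.S_DF := by
  intro p _ F _ _ _ red G _ _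
  have : Fintype G := Fintype.ofFinite G
  exact ⟨fun ψ h => part1 red h, fun B hB y hy hp => part2 red hB y hy hp⟩

theorem DF (_h1 : Pool.Agent.N20.AE.S_MM) (_h2 : Pool.Agent.N20.AE.S_HT) :
    Pool.Agent.N20.EW.S_DF := DF0

end Pool.Agent.N56.EWDF
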