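import Mathlib

/-!
# A group extension and a cocycle with values in the group ring
-/

set_option autoImplicit false

noncomputable section

namespace Pool.Agent.N56

/-- extension of the group `G` by two copies of the group ring -/
@[ext] structure Gam (k G : Type) [CommRing k] [Group G] where
  a : MonoidAlgebra k G
  b : MonoidAlgebra k G
  x : G

namespace Gam

variable {k G : Type} [CommRing k] [Group G]

/-- a group element in the group ring -/
abbrev e (g : G) : MonoidAlgebra k G := MonoidAlgebra.of k G g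

theorem e_mul (g h : G) : (e (g * h) : MonoidAlgebra k G) = e g * e h := map_mul _ _ _

theorem e_one : (e (1 : G) : MonoidAlgebra k G) = 1 := map_one _

theorem e_inv (g : G) : (e g⁻¹ * e g : MonoidAlgebra k G) = 1 := by
  rw [← e_mul, inv_mul_cancel, e_one]

theorem e_inv' (g : G) : (e g * e g⁻¹ : MonoidAlgebra k G) = 1 := by
  rw [← e_mul, mul_inv_cancel, e_one]

instance : Mul (Gam k G) := ⟨fun s t => ⟨s.a + e s.x * t.a, s.b + t.b * e s.x⁻¹, s.x * t.x⟩⟩
instance : One (Gam k G) := ⟨⟨0, 0, 1⟩⟩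
instance : Inv (Gam k G) := ⟨fun s => ⟨-(e s.x⁻¹ * s.a), -(s.b * e s.x), s.x⁻¹⟩⟩

theorem mul_a (s t : Gam k G) : (s * t).a = s.a + e s.x * t.a := rfl
theorem mul_b (s t : Gam k G) : (s * t).b = s.b + t.b * e s.x⁻¹ := rfl
theorem mul_x (s t : Gam k G) : (s * t).x = s.x * t.x := rfl
theorem one_a : (1 : Gam k G).a = 0 := rfl
theorem one_b : (1 : Gam k G).b = 0 := rfl
theorem one_x : (1 : Gam k G).x = 1 := rfl
theorem inv_a (s : Gam k G) : (s⁻¹).a = -(e s.x⁻¹ * s.a) := rfl
theorem inv_b (s : Gam k G) : (s⁻¹).b = -(s.b * e s.x) := rfl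
theorem inv_x (s : Gam k G) : (s⁻¹).x = s.x⁻¹ := rfl

instance : Group (Gam k G) := Group.ofLeftAxioms
  (by
    intro s t u
    apply Gam.ext
    · simp only [mul_a, mul_x, e_mul, mul_add, mul_assoc, add_assoc]
    · simp only [mul_b, mul_x, e_mul, add_mul, mul_assoc, add_assoc, mul_inv_rev]
    · simp only [mul_x, mul_assoc])
  (by
    intro s
    apply Gam.ext
    · simp only [mul_a, one_a, one_x, e_one, one_mul, zero_add]
    · simp only [mul_b, one_b, one_x, inv_one, e_one, mul_one, zero_add]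
    · simp only [mul_x, one_x, one_mul])
  (by
    intro s
    apply Gam.ext
    · simp only [mul_a, inv_a, inv_x, one_a, neg_add_cancel]
    · simp only [mul_b, inv_b, inv_x, inv_inv, one_b, neg_add_cancel]
    · simp only [mul_x, inv_x, one_x, inv_mul_cancel])

/-- the projection to `G` -/
def pr : Gam k G →* G where
  toFun := Gam.x
  map_one' := rfl
  map_mul' _ _ := rfl

theorem pr_comm (s t : Gam k G) (hs : pr s = 1) (ht : pr t = 1) : s * t = t * s := by
  have h1 : s.x = 1 := hs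
  have h2 : t.x = 1 := ht
  apply Gam.ext
  · rw [mul_a, mul_a, h1, h2, e_one, one_mul, one_mul, add_comm]
  · rw [mul_b, mul_b, h1, h2, inv_one, e_one, mul_one, mul_one, add_comm]
  · rw [mul_x, mul_x, h1, h2]

theorem pow_aux (s : Gam k G) (hs : pr s = 1) (n : ℕ) :
    (s ^ n).a = n • s.a ∧ (s ^ n).b = n • s.b ∧ (s ^ n).x = 1 := by
  have h1 : s.x = 1 := hs
  induction n with
  | zero => exact ⟨by rw [pow_zero, zero_smul]; rfl, by rw [pow_zero, zero_smul]; rfl, rfl⟩
  | succ n ih =>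
    obtain ⟨i1, i2, i3⟩ := ih
    refine ⟨?_, ?_, ?_⟩
    · rw [pow_succ, mul_a, i1, i3, e_one, one_mul, succ_nsmul]
    · rw [pow_succ, mul_b, i2, i3, inv_one, e_one, mul_one, succ_nsmul]
    · rw [pow_succ, mul_x, i3, h1, one_mul]

theorem char_smul {l : ℕ} [CharP k l] (y : MonoidAlgebra k G) : l • y = 0 := by
  apply MonoidAlgebra.coeff_injective
  ext g
  have h : (l : k) = 0 := CharP.cast_eq_zero k l
  rw [MonoidAlgebra.coeff_smul_apply, nsmul_eq_mul, h, zero_mul]
  rfl

theorem pr_pow {l : ℕ} [CharP k l] (s : Gam k G) (hs : pr s = 1) : s ^ l = 1 := by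
  obtain ⟨i1, i2, i3⟩ := pow_aux s hs l
  apply Gam.ext
  · rw [i1, char_smul]; rfl
  · rw [i2, char_smul]; rfl
  · exact i3

/-- the cocycle -/
def F (s t : Gam k G) : MonoidAlgebra k G := t.b * e s.x⁻¹ * s.a

theorem F_cocycle (s t u : Gam k G) :
    F t u - F (s * t) u + F s (t * u) - F s t = 0 := by
  have h : (e s.x⁻¹ * (e s.x * t.a) : MonoidAlgebra k G) = t.a := by
    rw [← mul_assoc, e_inv, one_mul]
  simp only [F, mul_a, mul_b, mul_x, mul_inv_rev, e_mul, mul_add, add_mul, mul_assoc, h]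
  abel

/-- the sum of the powers -/
def S (N : ℕ) (g : G) : MonoidAlgebra k G := ∑ i ∈ Finset.range N, e (g ^ i)

theorem pow_basic (g : G) (n : ℕ) :
    (⟨1, 1, g⟩ : Gam k G) ^ n = ⟨S n g, S n g⁻¹, g ^ n⟩ := by
  induction n with
  | zero =>
    apply Gam.ext
    · simp [S, one_a]
    · simp [S, one_b]
    · simp [one_x]
  | succ n ih =>
    rw [pow_succ, ih]
    apply Gam.ext
    · rw [mul_a]
      simp only [S]
      rw [Finset.sum_range_succ, mul_one]
    · rw [mul_b]
      simp only [S]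
      rw [Finset.sum_range_succ, one_mul, inv_pow]
    · rw [mul_x]
      exact (pow_succ _ _).symm

theorem conj_basic (w : Gam k G) (s s' : MonoidAlgebra k G) :
    w * ⟨s, s', 1⟩ * w⁻¹ = ⟨e w.x * s, s' * e w.x⁻¹, 1⟩ := by
  apply Gam.ext
  · simp only [mul_a, mul_x, inv_a, mul_one]
    rw [mul_neg, ← mul_assoc (e w.x), e_inv', one_mul]
    abel
  · simp only [mul_b, mul_x, inv_b, mul_one]
    rw [neg_mul, mul_assoc w.b, e_inv', mul_one]
    abel
  · simp only [mul_x, inv_x, mul_one, mul_inv_cancel]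

/-- the value of the cocycle on a torus -/
def Z (N : ℕ) (g h : G) : MonoidAlgebra k G := S N g⁻¹ * e h⁻¹ * S N g - S N g⁻¹ * (e h * S N g)

theorem F_basic (N : ℕ) (g h : G) :
    F (⟨S N g, S N g⁻¹, 1⟩ : Gam k G) ⟨e h * S N g, S N g⁻¹ * e h⁻¹, 1⟩ -
      F (⟨e h * S N g, S N g⁻¹ * e h⁻¹, 1⟩ : Gam k G) ⟨S N g, S N g⁻¹, 1⟩ = Z N g h := by
  simp only [F, inv_one, e_one, mul_one]
  rfl

open Classical in
theorem coeff_SS (N : ℕ) (g h u : G) :
    (S N g⁻¹ * e h * S N g : MonoidAlgebra k G).coeff u =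
      ((((Finset.range N) ×ˢ (Finset.range N)).filter
        (fun ij : ℕ × ℕ => g⁻¹ ^ ij.1 * h * g ^ ij.2 = u)).card : k) := by
  simp only [S]
  rw [Finset.sum_mul, Finset.sum_mul_sum, MonoidAlgebra.coeff_sum, Finset.sum_apply',
    Finset.card_filter, Finset.sum_product, Nat.cast_sum]
  refine Finset.sum_congr rfl fun i _ => ?_
  rw [MonoidAlgebra.coeff_sum, Finset.sum_apply', Nat.cast_sum]
  refine Finset.sum_congr rfl fun j _ => ?_
  rw [← e_mul, ← e_mul, e, MonoidAlgebra.of_apply, MonoidAlgebra.coeff_single,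
    Finsupp.single_apply]
  split_ifs <;> simp

/-- an element outside of the cyclic subgroup is in the support -/
theorem Z_ne (N l : ℕ) [CharP k l] (hN : Odd N) (hl : N * N < l) (g h : G)
    (hexp : ∀ u : G, u ^ N = 1) (hh : h ∉ Subgroup.zpowers g) :
    (Z N g h : MonoidAlgebra k G).coeff h ≠ 0 := by
  classical
  have h1 : (S N g⁻¹ * e h⁻¹ * S N g : MonoidAlgebra k G).coeff h = 0 := by
    rw [coeff_SS, Finset.card_eq_zero.2, Nat.cast_zero]
    rw [Finset.filter_eq_empty_iff]
    rintro ⟨i, j⟩ - heq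
    simp only at heq
    apply hh
    -- `(h g ^ i) ^ 2` is a power of `g`
    have h2 : (h * g ^ i) * (h * g ^ i) = g ^ (j + i) := by
      have h5 : h * g ^ i * h = g ^ j := by
        calc h * g ^ i * h = h * g ^ i * (g⁻¹ ^ i * h⁻¹ * g ^ j) := by rw [heq]
          _ = g ^ j := by rw [inv_pow]; group
      rw [pow_add, ← h5]
      group
    obtain ⟨m, hm⟩ := hN
    have h3 : h * g ^ i = (g ^ (j + i)) ^ (m + 1) := by
      have h6 := hexp (h * g ^ i)
      rw [← h2, ← pow_two, ← pow_mul, show 2 * (m + 1) = N + 1 by omega, pow_succ, h6, one_mul]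
    have h4 : h * g ^ i ∈ Subgroup.zpowers g := by
      rw [h3, ← pow_mul]
      exact Subgroup.npow_mem_zpowers g _
    have h7 := (Subgroup.zpowers g).mul_mem h4
      ((Subgroup.zpowers g).inv_mem (Subgroup.npow_mem_zpowers g i))
    rwa [mul_inv_cancel_right] at h7
  have h3 : (S N g⁻¹ * (e h * S N g) : MonoidAlgebra k G).coeff h ≠ 0 := by
    rw [← mul_assoc, coeff_SS]
    intro h4
    rw [CharP.cast_eq_zero_iff k l] at h4
    have h5 := Nat.eq_zero_of_dvd_of_lt h4 (lt_of_le_of_lt (Finset.card_filter_le _ _) (by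
      rw [Finset.card_product, Finset.card_range]
      exact hl))
    rw [Finset.card_eq_zero, Finset.filter_eq_empty_iff] at h5
    have hN0 : 0 < N := hN.pos
    exact h5 (x := (0, 0)) (by simp [hN0]) (by simp)
  unfold Z
  rw [MonoidAlgebra.coeff_sub, Finsupp.sub_apply, h1, zero_sub, neg_ne_zero]
  exact h3

end Gam

end Pool.Agent.N56
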