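import Pool.Agent.Y45.MON.StmL

/-!
# Words in the operations of project MON

The word `DD w x y z` is different from `1` in the groups of the limit theorem whenever two of
`x`, `y`, `z` do not commute, and then it has a large rank.
-/

set_option autoImplicit false

namespace Pool.Agent.N56

open Pool.Agent.Y45.MON

section words

variable {r : ℕ} (w : WP r) {G : Type} [Group G]

/-- commutator -/
def com (a b : G) : G := a * b * a⁻¹ * b⁻¹

/-- a word which detects that two elements do not commute -/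
def tt (i j : Fin r) (a b : G) : G := vv w i (vv w j a b) (com a b)

/-- a word which is different from `1` if one of its arguments is -/
def orr (i j : Fin r) (u v : G) : G := vv w j (vv w i (u * v) v) u

theorem map_P0 {H : Type} [Group H] (φ : G →* H) (m : ℕ) (a b : G) :
    φ (P0 m a b) = P0 m (φ a) (φ b) := by simp [P0]

theorem map_X1 {H : Type} [Group H] (φ : G →* H) (m k : ℕ) (a b : G) :
    φ (X1 m k a b) = X1 m k (φ a) (φ b) := by simp [X1, P0]

theorem map_vv {H : Type} [Group H] (φ : G →* H) (j : Fin r) (a b : G) :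
    φ (vv w j a b) = vv w j (φ a) (φ b) := by
  simp [vv, Wj, map_X1]

theorem map_com {H : Type} [Group H] (φ : G →* H) (a b : G) :
    φ (com a b) = com (φ a) (φ b) := by simp [com]

theorem map_tt {H : Type} [Group H] (φ : G →* H) (i j : Fin r) (a b : G) :
    φ (tt w i j a b) = tt w i j (φ a) (φ b) := by simp [tt, map_vv, map_com]

theorem map_orr {H : Type} [Group H] (φ : G →* H) (i j : Fin r) (a b : G) :
    φ (orr w i j a b) = orr w i j (φ a) (φ b) := by simp [orr, map_vv]

theorem com_eq_one {a b : G} : com a b = 1 ↔ a * b = b * a := by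
  unfold com
  rw [mul_inv_eq_one, mul_inv_eq_iff_eq_mul]

theorem vv_comm (j : Fin r) {a b : G} (h : a * b = b * a) : vv w j a b = a ^ (w.δ j) * a⁻¹ := by
  have hc : Commute a b := h
  have h1 : P0 w.M1 a b = a ^ (w.M1 + 1) := by
    have h2 : b * a ^ w.M1 = a ^ w.M1 * b := (hc.symm.pow_right _).eq
    unfold P0
    rw [mul_assoc a b, h2, pow_succ']
    group
  have h3 : X1 w.M1 w.m2 a b = 1 := by
    unfold X1
    rw [h1, ← pow_mul, ← pow_succ', pow_succ]
    group
  unfold vv Wj
  rw [h3]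
  simp only [one_pow, mul_one]
  have h4 : b * a⁻¹ = a⁻¹ * b := hc.symm.inv_right.eq
  rw [mul_assoc (a ^ w.δ j) b, h4]
  group

theorem vv_comm1 {j : Fin r} (hj : w.δ j = 1) {a b : G} (h : a * b = b * a) :
    vv w j a b = 1 := by
  rw [vv_comm w j h, hj, pow_one, mul_inv_cancel]

theorem vv_comm2 {j : Fin r} (hj : w.δ j = 2) {a b : G} (h : a * b = b * a) :
    vv w j a b = a := by
  rw [vv_comm w j h, hj, pow_two, mul_inv_cancel_right]

theorem orr_one_right {i j : Fin r} (hi : w.δ i = 2) (hj : w.δ j = 2) (u : G) :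
    orr w i j u 1 = u := by
  unfold orr
  rw [mul_one, vv_comm2 w hi (by rw [mul_one, one_mul]), vv_comm2 w hj rfl]

theorem orr_one_left {i j : Fin r} (hi : w.δ i = 2) (hj : w.δ j = 2) (v : G) :
    orr w i j 1 v = v := by
  unfold orr
  rw [one_mul, vv_comm2 w hi rfl, vv_comm2 w hj (by rw [mul_one, one_mul])]

theorem tt_one {i j : Fin r} (hi : w.δ i = 1) {a b : G} (h : a * b = b * a) :
    tt w i j a b = 1 := by
  unfold tt
  rw [com_eq_one.2 h]
  exact vv_comm1 w hi (by rw [mul_one, one_mul])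

end words

/-- the exponents of the operations -/
def eps (p q : ℕ) (j : Fin 10) : ℕ := if j = 8 then p else if j = 9 then q else p * q

/-- the exponents of the commuting case -/
def dels (j : Fin 10) : ℕ := if j.val < 4 then 1 else 2

section ten

variable (w : WP 10) {G : Type} [Group G]

/-- the main word -/
def DD (x y z : G) : G :=
  orr w 6 7 (orr w 4 5 (tt w 1 0 x y) (tt w 2 0 y z)) (tt w 3 0 x z)

theorem map_DD {H : Type} [Group H] (φ : G →* H) (x y z : G) :
    φ (DD w x y z) = DD w (φ x) (φ y) (φ z) := by simp [DD, map_orr, map_tt]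

/-- a value of one of the operations with index in `S` -/
def Val (S : Set (Fin 10)) (g : G) : Prop :=
  ∃ j ∈ S, ∃ a b : G, a * b ≠ b * a ∧ g = vv w j a b

variable {p q : ℕ} {col : G → Unit} {rk : G → ℕ}

/-- the properties of the limit group which are used -/
structure MG (p q : ℕ) (rk : G → ℕ) : Prop where
  del : w.δ = dels
  exp : ∀ g : G, g ^ (p * q) = 1
  gen : ∃ x y : G, Subgroup.closure {x, y} = ⊤ ∧ x * y ≠ y * x
  rkc : ∀ a b : G, a ≠ 1 → b ≠ 1 → a * b = b * a → rk a = rk b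
  rk1 : ∀ (j : Fin 10) (a b : G), a * b ≠ b * a → rk a < rk (vv w j a b) ∧ rk b < rk (vv w j a b)
  ord : ∀ (j : Fin 10) (a b : G), a * b ≠ b * a → orderOf (vv w j a b) = eps p q j
  cmm : ∀ (j j' : Fin 10) (a b a' b' : G) (k : ℤ), a * b ≠ b * a → a' * b' ≠ b' * a' →
    vv w j a b ^ k ≠ 1 → vv w j a b ^ k * vv w j' a' b' = vv w j' a' b' * vv w j a b ^ k →
    j = j'
  cmt : ∀ (j : Fin 10) (a b : G), a * b ≠ b * a →
    com a b * vv w j a b ≠ vv w j a b * com a b

end ten

section mg

variable {w : WP 10} {G : Type} [Group G] {p q : ℕ} {rk : G → ℕ}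

theorem MG.eps_ne (hp : p.Prime) (hq : q.Prime) (j : Fin 10) : eps p q j ≠ 1 := by
  unfold eps
  split_ifs
  · exact hp.one_lt.ne'
  · exact hq.one_lt.ne'
  · intro h
    exact hp.one_lt.ne' (Nat.eq_one_of_mul_eq_one_right h)

theorem MG.val_ne (H : MG w p q rk) (hp : p.Prime) (hq : q.Prime) {S : Set (Fin 10)} {g : G}
    (hg : Val w S g) : g ≠ 1 := by
  obtain ⟨j, -, a, b, hab, rfl⟩ := hg
  intro h
  have := H.ord j a b hab
  rw [h, orderOf_one] at this
  exact MG.eps_ne hp hq j this.symm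

theorem MG.val_nc (H : MG w p q rk) (hp : p.Prime) (hq : q.Prime) {S T : Set (Fin 10)} {g h : G}
    (hg : Val w S g) (hh : Val w T h) (hST : ∀ j ∈ S, j ∉ T) : g * h ≠ h * g := by
  have h1 := H.val_ne hp hq hg
  obtain ⟨j, hj, a, b, hab, rfl⟩ := hg
  obtain ⟨j', hj', a', b', hab', rfl⟩ := hh
  intro hc
  have h2 := H.cmm j j' a b a' b' 1 hab hab' (by rw [zpow_one]; exact h1)
    (by rw [zpow_one]; exact hc)
  subst h2
  exact hST j hj hj'

/-- the word `tt` -/
theorem MG.tt_spec (H : MG w p q rk) (i j : Fin 10) {a b : G} (hab : a * b ≠ b * a) :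
    Val w {i} (tt w i j a b) ∧ rk (com a b) < rk (tt w i j a b) := by
  have h1 := H.cmt j a b hab
  refine ⟨⟨i, rfl, _, _, h1.symm, rfl⟩, (H.rk1 i _ _ h1.symm).2⟩

/-- the word `orr` -/
theorem MG.orr_spec (H : MG w p q rk) (hp : p.Prime) (hq : q.Prime) {i j : Fin 10}
    (hi : w.δ i = 2) (hj : w.δ j = 2) {S T : Set (Fin 10)} {u v : G}
    (hu : u = 1 ∨ Val w S u) (hv : v = 1 ∨ Val w T v) (hST : ∀ k ∈ S, k ∉ T) (hiS : i ∉ S) :
    (orr w i j u v = 1 ∧ u = 1 ∧ v = 1) ∨ (Val w (S ∪ T ∪ {j}) (orr w i j u v) ∧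
      (u ≠ 1 → rk u ≤ rk (orr w i j u v)) ∧ (v ≠ 1 → rk v ≤ rk (orr w i j u v))) := by
  rcases hu with rfl | hu
  · rw [orr_one_left w hi hj]
    rcases hv with rfl | hv
    · exact Or.inl ⟨rfl, rfl, rfl⟩
    · right
      obtain ⟨k, hk, a, b, hab, rfl⟩ := hv
      exact ⟨⟨k, Or.inl (Or.inr hk), a, b, hab, rfl⟩, fun h => absurd rfl h, fun _ => le_rfl⟩
  · right
    rcases hv with rfl | hv
    · rw [orr_one_right w hi hj]
      obtain ⟨k, hk, a, b, hab, rfl⟩ := hu
      exact ⟨⟨k, Or.inl (Or.inl hk), a, b, hab, rfl⟩, fun _ => le_rfl, fun h => absurd rfl h⟩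
    · have h1 := H.val_nc hp hq hu hv hST
      have h2 : (u * v) * v ≠ v * (u * v) := by
        intro h
        apply h1
        have h3 : u * v * v = v * u * v := by rw [h, mul_assoc]
        exact mul_right_cancel h3
      have hF : Val w {i} (vv w i (u * v) v) := ⟨i, rfl, _, _, h2, rfl⟩
      have h3 := H.val_nc hp hq hF hu (by
        rintro k rfl
        exact hiS)
      refine ⟨⟨j, Or.inr rfl, _, _, h3, rfl⟩, fun _ => (H.rk1 j _ _ h3).2.le, fun _ => ?_⟩
      exact (H.rk1 i _ _ h2).2.le.trans (H.rk1 j _ _ h3).1.le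

/-- the main word: if two of the three elements do not commute, then the power with exponent `p`
of the main word does not commute with the commutators -/
theorem MG.DD_spec (H : MG w p q rk) (hp : p.Prime) (hq : q.Prime) (hpq : p ≠ q) (x y z : G) :
    (com x y ≠ 1 → com x y * DD w x y z ^ p ≠ DD w x y z ^ p * com x y) ∧
    (com y z ≠ 1 → com y z * DD w x y z ^ p ≠ DD w x y z ^ p * com y z) ∧
    (com x z ≠ 1 → com x z * DD w x y z ^ p ≠ DD w x y z ^ p * com x z) := by
  have h4 : ∀ k : Fin 10, 4 ≤ k.val → w.δ k = 2 := by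
    intro k hk
    rw [H.del, dels, if_neg (by omega)]
  have h1 : ∀ k : Fin 10, k.val < 4 → w.δ k = 1 := by
    intro k hk
    rw [H.del, dels, if_pos hk]
  have ht : ∀ (i j : Fin 10) (a b : G), i.val < 4 →
      (tt w i j a b = 1 ∨ Val w {i} (tt w i j a b)) := by
    intro i j a b hi
    by_cases hab : a * b = b * a
    · exact Or.inl (tt_one w (h1 i hi) hab)
    · exact Or.inr (H.tt_spec i j hab).1
  set t1 := tt w 1 0 x y with ht1
  set t2 := tt w 2 0 y z with ht2
  set t3 := tt w 3 0 x z with ht3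
  have a1 := ht 1 0 x y (by decide)
  have a2 := ht 2 0 y z (by decide)
  have a3 := ht 3 0 x z (by decide)
  have b1 := H.orr_spec hp hq (h4 4 (by decide)) (h4 5 (by decide)) a1 a2 (by
    rintro k rfl h
    exact absurd h (by decide)) (by decide)
  set f := orr w 4 5 (tt w 1 0 x y) (tt w 2 0 y z) with hf
  have c1 : f = 1 ∨ Val w ({1} ∪ {2} ∪ {5}) f := by
    rcases b1 with h | h
    · exact Or.inl h.1
    · exact Or.inr h.1
  have b2 := H.orr_spec hp hq (h4 6 (by decide)) (h4 7 (by decide)) c1 a3 (by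
    rintro k ((rfl | rfl) | rfl) h <;> exact absurd h (by decide)) (by
    rintro ((h | h) | h) <;> exact absurd h (by decide))
  have hDD : DD w x y z = orr w 6 7 f (tt w 3 0 x z) := rfl
  rw [← hDD] at b2
  set D := DD w x y z with hD
  -- the key statement
  have key : ∀ c : G, c ≠ 1 → (D ≠ 1 ∧ rk c < rk D) → c * D ^ p ≠ D ^ p * c := by
    rintro c hc ⟨hD1, hrk⟩ hcom
    rcases b2 with h | ⟨hval, -, -⟩
    · exact hD1 h.1
    obtain ⟨k, hk, a, b, hab, hDv⟩ := hval
    have hord := H.ord k a b hab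
    rw [← hDv] at hord
    have hk2 : eps p q k = p * q := by
      rcases hk with (((rfl | rfl) | rfl) | rfl) | rfl <;> rfl
    have hDp : D ^ p ≠ 1 := by
      intro h
      have h2 := orderOf_dvd_of_pow_eq_one h
      rw [hord, hk2] at h2
      have h3 := Nat.le_of_dvd hp.pos h2
      have h5 : p * 2 ≤ p * q := Nat.mul_le_mul_left _ hq.two_le
      have := hp.pos
      omega
    have e1 := H.rkc c (D ^ p) hc hDp hcom
    have e2 := H.rkc D (D ^ p) hD1 hDp (by rw [← pow_succ, ← pow_succ'])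
    omega
  refine ⟨fun hc => key _ hc ?_, fun hc => key _ hc ?_, fun hc => key _ hc ?_⟩
  · have hab : x * y ≠ y * x := fun h => hc (com_eq_one.2 h)
    obtain ⟨s1, s2⟩ := H.tt_spec 1 0 hab
    have s3 := H.val_ne hp hq s1
    rcases b1 with h | ⟨v1, r1, -⟩
    · exact absurd h.2.1 s3
    have s4 := H.val_ne hp hq v1
    rcases b2 with h | ⟨v2, r2, -⟩
    · exact absurd h.2.1 s4
    exact ⟨H.val_ne hp hq v2, s2.trans_le ((r1 s3).trans (r2 s4))⟩
  · have hab : y * z ≠ z * y := fun h => hc (com_eq_one.2 h)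
    obtain ⟨s1, s2⟩ := H.tt_spec 2 0 hab
    have s3 := H.val_ne hp hq s1
    rcases b1 with h | ⟨v1, -, r1⟩
    · exact absurd h.2.2 s3
    have s4 := H.val_ne hp hq v1
    rcases b2 with h | ⟨v2, r2, -⟩
    · exact absurd h.2.1 s4
    exact ⟨H.val_ne hp hq v2, s2.trans_le ((r1 s3).trans (r2 s4))⟩
  · have hab : x * z ≠ z * x := fun h => hc (com_eq_one.2 h)
    obtain ⟨s1, s2⟩ := H.tt_spec 3 0 hab
    have s3 := H.val_ne hp hq s1
    rcases b2 with h | ⟨v2, -, r2⟩
    · exact absurd h.2.2 s3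
    exact ⟨H.val_ne hp hq v2, s2.trans_le (r2 s3)⟩

/-- the group is infinite -/
theorem MG.inf (H : MG w p q rk) (hp : p.Prime) (hq : q.Prime) : Infinite G := by
  have key : ∀ n : ℕ, ∃ a b : G, a * b ≠ b * a ∧ n ≤ rk a := by
    intro n
    induction n with
    | zero =>
      obtain ⟨x, y, -, h⟩ := H.gen
      exact ⟨x, y, h, Nat.zero_le _⟩
    | succ n ih =>
      obtain ⟨a, b, hab, hn⟩ := ih
      have h1 := (H.rk1 0 a b hab).1
      refine ⟨vv w 0 a b, a, ?_, by omega⟩
      intro h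
      have h2 : a ≠ 1 := by
        rintro rfl
        exact hab (by rw [one_mul, mul_one])
      have h3 : vv w 0 a b ≠ 1 := H.val_ne hp hq (S := {0}) ⟨0, rfl, a, b, hab, rfl⟩
      have := H.rkc _ _ h3 h2 h
      omega
  by_contra hfin
  rw [not_infinite_iff_finite] at hfin
  obtain ⟨M, hM⟩ := (Set.finite_range rk).bddAbove
  obtain ⟨a, b, -, h⟩ := key (M + 1)
  have := hM ⟨a, rfl⟩
  omega

end mg

end Pool.Agent.N56
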