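import Pool.Agent.N56.Mon
import Pool.Agent.N56.Ops

/-!
# The group and the laws
-/

set_option autoImplicit false

namespace Pool.Agent.N56

open Pool.Agent.Y45.MON

theorem exists_group : ∃ (w : WP 10) (p q : ℕ) (G : Type) (_ : Group G) (rk : G → ℕ),
    p.Prime ∧ q.Prime ∧ p ≠ q ∧ Odd (p * q) ∧ MG (G := G) w p q rk := by
  obtain ⟨w, n0, hδ, hn0, h⟩ := aMon 10 dels (by
    intro j
    unfold dels
    split_ifs <;> simp)
  obtain ⟨p, hp1, hp⟩ := Nat.exists_infinite_primes (max n0 3)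
  obtain ⟨q, hq1, hq⟩ := Nat.exists_infinite_primes (p + 1)
  have hpq : p ≠ q := by omega
  have hp3 : 3 ≤ p := (le_max_right _ _).trans hp1
  have hpn : n0 ≤ p := (le_max_left _ _).trans hp1
  obtain ⟨G, iG, col, rk, H⟩ := h (p * q) (by
      intro h
      exact hp.one_lt.ne' (Nat.eq_one_of_mul_eq_one_right h)) (by
      intro s hs hd
      rcases (Nat.Prime.dvd_mul hs).1 hd with h1 | h1
      · rw [(Nat.prime_dvd_prime_iff_eq hs hp).1 h1]; exact hpn
      · rw [(Nat.prime_dvd_prime_iff_eq hs hq).1 h1]; omega)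
    Unit ⟨()⟩ (fun _ _ _ => ()) (fun j _ _ => eps p q j) (by
      intro j _ _
      refine ⟨?_, MG.eps_ne hp hq j⟩
      unfold eps
      split_ifs
      · exact Dvd.intro _ rfl
      · exact Dvd.intro_left _ rfl
      · exact dvd_rfl)
  refine ⟨w, p, q, G, iG, rk, hp, hq, hpq, ?_, ?_⟩
  · exact (hp.odd_of_ne_two (by omega)).mul (hq.odd_of_ne_two (by omega))
  · exact ⟨hδ, H.exp, H.gen, H.rkc, H.rk1, H.ord,
      fun j j' a b a' b' k h1 h2 h3 h4 => (H.cmm j j' a b a' b' k h1 h2 h3 h4).1, H.cmt⟩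

end Pool.Agent.N56
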