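import Mathlib

/-!
# Second homology: two criteria
-/

set_option autoImplicit false

namespace Pool.Agent.N56

open groupHomology Finsupp

theorem H2π_surj (H : Type) [Group H] :
    Function.Surjective (H2π (Rep.trivial ℤ H ℤ)).hom :=
  fun x => H2_induction_on x fun y => ⟨y, rfl⟩

/-- the second homology of a finite group is finitely generated -/
theorem h2_finite (H : Type) [Group H] [Finite H] :
    Module.Finite ℤ (groupHomology (Rep.trivial ℤ H ℤ) 2) := by
  have h1 : Module.Finite ℤ (H × H →₀ ℤ) := inferInstance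
  have h3 : Module.Finite ℤ (cycles₂ (Rep.trivial ℤ H ℤ)) := by
    have : IsNoetherian ℤ (H × H →₀ ℤ) := isNoetherian_of_isNoetherianRing_of_finite ℤ _
    exact Module.Finite.of_injective (M := cycles₂ (Rep.trivial ℤ H ℤ)) (N := H × H →₀ ℤ)
      (Submodule.subtype _) (Submodule.subtype_injective _)
  exact Module.Finite.of_surjective (H2π (Rep.trivial ℤ H ℤ)).hom (H2π_surj H)

/-- a function with values in an abelian group of finite exponent which satisfies the cocycle
identity and has infinitely many values on tori -/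
theorem h2_inf {B : Type} [Group B] {R : Type} [AddCommGroup R] (F : B → B → R)
    (hF : ∀ a b c, F b c - F (a * b) c + F a (b * c) - F a b = 0) {l : ℕ} (hl : 0 < l)
    (hR : ∀ x : R, l • x = 0)
    (hinf : Set.Infinite {x : R | ∃ u v : B, u * v = v * u ∧ x = F u v - F v u}) :
    ¬ Module.Finite ℤ (groupHomology (Rep.trivial ℤ B ℤ) 2) := by
  intro hfin
  let L : (B × B →₀ ℤ) →ₗ[ℤ] R :=
    Finsupp.lsum ℤ (fun g => LinearMap.toSpanSingleton ℤ R (F g.1 g.2))
  have hL : ∀ (g : B × B) (n : ℤ), L (single g n) = n • F g.1 g.2 := by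
    intro g n
    simp [L]
  have hLb : ∀ x : B × B →₀ ℤ, x ∈ boundaries₂ (Rep.trivial ℤ B ℤ) → L x = 0 := by
    rintro x ⟨y, rfl⟩
    have h1 : L ∘ₗ (d₃₂ (Rep.trivial ℤ B ℤ)).hom = 0 := by
      apply Finsupp.lhom_ext
      rintro ⟨a, b, c⟩ n
      rw [LinearMap.comp_apply, LinearMap.zero_apply]
      have h2 : (d₃₂ (Rep.trivial ℤ B ℤ)).hom (single (a, b, c) n) =
        single (b, c) n - single (a * b, c) n + single (a, b * c) n - single (a, b) n := by
        simpa using d₃₂_single (A := Rep.trivial ℤ B ℤ) (a, b, c) n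
      rw [h2]
      simp only [map_sub, map_add, hL]
      rw [← smul_sub, ← smul_add, ← smul_sub, hF, smul_zero]
    exact LinearMap.congr_fun h1 y
  let Z := cycles₂ (Rep.trivial ℤ B ℤ)
  let L' : Z →ₗ[ℤ] R := L ∘ₗ Z.subtype
  let P : Z →ₗ[ℤ] (groupHomology (Rep.trivial ℤ B ℤ) 2) := (H2π (Rep.trivial ℤ B ℤ)).hom
  have hPs : Function.Surjective P := H2π_surj B
  have hker : LinearMap.ker P ≤ LinearMap.ker L' := by
    intro z hz
    rw [LinearMap.mem_ker] at hz ⊢
    exact hLb z.1 ((H2π_eq_zero_iff z).1 hz)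
  let T : (groupHomology (Rep.trivial ℤ B ℤ) 2) →ₗ[ℤ] R :=
    (Submodule.liftQ (LinearMap.ker P) L' hker) ∘ₗ
      (P.quotKerEquivOfSurjective hPs).symm.toLinearMap
  have hT : ∀ z : Z, T (P z) = L' z := by
    intro z
    have h1 : (P.quotKerEquivOfSurjective hPs).symm (P z) = Submodule.Quotient.mk z := by
      rw [LinearEquiv.symm_apply_eq]
      rfl
    simp only [T, LinearMap.comp_apply, LinearEquiv.coe_coe]
    rw [h1]
    rfl
  have hfr : Module.Finite ℤ (LinearMap.range T) := inferInstance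
  have hfin2 : Finite (LinearMap.range T) := by
    have hfg : AddGroup.FG (LinearMap.range T) := Module.Finite.iff_addGroup_fg.1 hfr
    exact AddCommGroup.finite_of_fg_isAddTorsion _ (by
      intro x
      rw [isOfFinAddOrder_iff_nsmul_eq_zero]
      exact ⟨l, hl, Subtype.ext (hR _)⟩)
  apply hinf
  refine (Set.toFinite (LinearMap.range T : Set R)).subset ?_
  rintro x ⟨u, v, huv, rfl⟩
  have hz : (single (u, v) 1 - single (v, u) 1 : B × B →₀ ℤ) ∈ Z := by
    have hd : ∀ g : B × B, (d₂₁ (Rep.trivial ℤ B ℤ)).hom (single g 1) =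
        single g.2 (1 : ℤ) - single (g.1 * g.2) 1 + single g.1 1 := by
      intro g
      simpa using d₂₁_single (A := Rep.trivial ℤ B ℤ) g 1
    change (d₂₁ (Rep.trivial ℤ B ℤ)).hom (single (u, v) 1 - single (v, u) 1) = 0
    rw [map_sub, hd, hd]
    simp only [huv]
    abel
  refine ⟨P ⟨_, hz⟩, ?_⟩
  rw [hT]
  change L (single (u, v) 1 - single (v, u) 1) = _
  rw [map_sub, hL, hL, one_smul, one_smul]

end Pool.Agent.N56
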