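import Mathlib

/-!
# Torsion-free relatively free groups of infinite rank: groups
-/

set_option autoImplicit false

namespace Pool.Agent.N56.Homog

section grp

variable {G : Type} [Group G]

/-- iterated products -/
def w (y : ℕ → G) (u : G) : ℕ → ℕ → G
  | 0, _ => u
  | k + 1, i => y i * (w y u k (i + 1) * w y u k (i + 1))

theorem map_w {H : Type} [Group H] (σ : G →* H) (y : ℕ → G) (u : G) (k i : ℕ) :
    σ (w y u k i) = w (fun j => σ (y j)) (σ u) k i := by
  induction k generalizing i with
  | zero => rfl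
  | succ k ih => simp only [w, map_mul, ih]

theorem w_eq (x y : ℕ → G) (h : ∀ i, x i = y i * (x (i + 1) * x (i + 1))) (k i : ℕ) :
    w y (x (i + k)) k i = x i := by
  induction k generalizing i with
  | zero => rfl
  | succ k ih =>
    have := ih (i + 1)
    rw [show i + 1 + k = i + (k + 1) by omega] at this
    simp only [w]
    rw [this, ← h]

theorem w_one (htf : ∀ g : G, ∀ n : ℕ, 0 < n → g ^ n = 1 → g = 1) (z : ℕ → G) (u : G) (m : ℕ)
    (hz : ∀ j < m, z j = 1) (k i : ℕ) (hk : i + k = m) (h : w z u (k + 1) i = 1) :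
    z m * (u * u) = 1 := by
  induction k generalizing i with
  | zero =>
    simp only [w, add_zero] at h hk
    rwa [hk] at h
  | succ k ih =>
    have h1 : z i = 1 := hz i (by omega)
    have h2 : w z u (k + 1) (i + 1) = 1 := by
      have h3 : z i * (w z u (k + 1) (i + 1) * w z u (k + 1) (i + 1)) = 1 := h
      rw [h1, one_mul, ← pow_two] at h3
      exact htf _ 2 (by norm_num) h3
    exact ih (i + 1) (by omega) h2

/-- a basis -/
structure Basis (X : Set G) : Prop where
  clo : Subgroup.closure X = ⊤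
  ext : ∀ f : X → G, ∃ φ : G →* G, ∀ x : X, φ x = f x

theorem hom_ext {X : Set G} (hX : Basis X) {φ ψ : G →* G} (h : ∀ x ∈ X, φ x = ψ x) : φ = ψ := by
  have : Set.EqOn φ ψ (Subgroup.closure X) := MonoidHom.eqOn_closure h
  ext g
  exact this (by rw [hX.clo]; trivial)

/-- there is an endomorphism with prescribed values on a sequence of basis elements -/
theorem exists_hom {X : Set G} (hX : Basis X) (e : ℕ ↪ X) (F : ℕ → G) (rest : G → G) :
    ∃ φ : G →* G, (∀ i, φ (e i) = F i) ∧ ∀ x ∈ X, (∀ i, (e i : G) ≠ x) → φ x = rest x := by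
  obtain ⟨φ, hφ⟩ := hX.ext (Function.extend e F (fun x => rest x))
  refine ⟨φ, fun i => ?_, fun x hx hne => ?_⟩
  · rw [hφ, e.injective.extend_apply]
  · have := hφ ⟨x, hx⟩
    rw [Function.extend_apply'] at this
    · exact this
    · rintro ⟨i, hi⟩
      exact hne i (congrArg Subtype.val hi)

/-- the automorphism -/
theorem exists_aut {X : Set G} (hX : Basis X) (e : ℕ ↪ X) (n : ℕ) :
    ∃ β : G ≃* G, ∀ i < n,
      β ((e i : G) * ((e (i + 1) : G) * (e (i + 1) : G))⁻¹) = e i := by
  let x : ℕ → G := fun i => e i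
  let y : ℕ → G := fun i => (e i : G) * ((e (i + 1) : G) * (e (i + 1) : G))⁻¹
  obtain ⟨α, hα1, hα2⟩ := exists_hom hX e (fun i => if i < n then y i else x i) id
  obtain ⟨β, hβ1, hβ2⟩ := exists_hom hX e (fun i => w x (x (i + (n - i))) (n - i) i) id
  have hv : ∀ i < n, β (x i) = x i * (β (x (i + 1)) * β (x (i + 1))) := by
    intro i hi
    change β (e i) = x i * (β (e (i + 1)) * β (e (i + 1)))
    rw [hβ1, hβ1]
    have h1 : n - i = (n - (i + 1)) + 1 := by omega
    have h2 : i + (n - i) = i + 1 + (n - (i + 1)) := by omega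
    rw [h2, h1]
    rfl
  have hv' : ∀ i, n ≤ i → β (x i) = x i := by
    intro i hi
    change β (e i) = x i
    rw [hβ1]
    have h1 : n - i = 0 := by omega
    rw [h1]
    rfl
  have hy : ∀ i < n, β (y i) = x i := by
    intro i hi
    have h1 : β (y i) = β (x i) * (β (x (i + 1)) * β (x (i + 1)))⁻¹ := by
      simp only [y, x, map_mul, map_inv]
    rw [h1, hv i hi, mul_inv_cancel_right]
  have hβα : β.comp α = MonoidHom.id G := by
    apply hom_ext hX
    intro z hz
    by_cases hz' : ∀ i, (e i : G) ≠ z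
    · rw [MonoidHom.comp_apply, hα2 z hz hz']
      exact hβ2 z hz hz'
    · push Not at hz'
      obtain ⟨i, rfl⟩ := hz'
      rw [MonoidHom.comp_apply, hα1]
      split_ifs with hi
      · exact hy i hi
      · exact hv' i (by omega)
  have hα3 : ∀ i, n ≤ i → α (x i) = x i := by
    intro i hi
    change α (e i) = x i
    rw [hα1, if_neg (by omega)]
  have hα4 : ∀ i < n, α (x i) = y i := by
    intro i hi
    change α (e i) = y i
    rw [hα1, if_pos hi]
  have hαβ' : ∀ k i, i + k = n → α (β (x i)) = x i := by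
    intro k
    induction k with
    | zero =>
      intro i hi
      rw [hv' i (by omega), hα3 i (by omega)]
    | succ k ih =>
      intro i hi
      rw [hv i (by omega), map_mul, map_mul, ih (i + 1) (by omega), hα4 i (by omega)]
      simp only [y, x]
      rw [inv_mul_cancel_right]
  have hαβ : α.comp β = MonoidHom.id G := by
    apply hom_ext hX
    intro z hz
    by_cases hz' : ∀ i, (e i : G) ≠ z
    · rw [MonoidHom.comp_apply, hβ2 z hz hz']
      exact hα2 z hz hz'
    · push Not at hz'
      obtain ⟨i, rfl⟩ := hz'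
      change α (β (x i)) = x i
      by_cases hi : i < n
      · exact hαβ' (n - i) i (by omega)
      · rw [hv' i (by omega), hα3 i (by omega)]
  refine ⟨MonoidHom.toMulEquiv β α hαβ hβα, fun i hi => ?_⟩
  exact hy i hi

/-- the main argument -/
theorem no_elem (htf : ∀ g : G, ∀ n : ℕ, 0 < n → g ^ n = 1 → g = 1) {X : Set G} (hX : Basis X)
    (e : ℕ ↪ X) (d : G) (h : ∀ k, ∃ u, d = w (fun i => (e i : G)) u k 0) : False := by
  -- projections
  have hpr : ∀ m, ∃ σ : G →* G, σ (e m) = e m ∧ (∀ i, i ≠ m → σ (e i) = 1) ∧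
      ∀ x ∈ X, (∀ i, (e i : G) ≠ x) → σ x = 1 := by
    intro m
    obtain ⟨σ, h1, h2⟩ := exists_hom hX e (fun i => if i = m then (e m : G) else 1) (fun _ => 1)
    refine ⟨σ, ?_, ?_, h2⟩
    · rw [h1, if_pos rfl]
    · intro i hi
      rw [h1, if_neg hi]
  choose σ hσ1 hσ2 hσ3 using hpr
  have hfin : ∀ g : G, ∃ M, ∀ m, M ≤ m → σ m g = 1 := by
    intro g
    have hg : g ∈ Subgroup.closure X := by rw [hX.clo]; trivial
    induction hg using Subgroup.closure_induction with
    | mem x hx =>
      by_cases hx' : ∀ i, (e i : G) ≠ x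
      · exact ⟨0, fun m _ => hσ3 m x hx hx'⟩
      · push Not at hx'
        obtain ⟨i, rfl⟩ := hx'
        exact ⟨i + 1, fun m hm => hσ2 m i (by omega)⟩
    | one => exact ⟨0, fun m _ => map_one _⟩
    | mul a b _ _ ha hb =>
      obtain ⟨M1, h1⟩ := ha
      obtain ⟨M2, h2⟩ := hb
      exact ⟨max M1 M2, fun m hm => by
        rw [map_mul, h1 m ((le_max_left _ _).trans hm), h2 m ((le_max_right _ _).trans hm),
          one_mul]⟩
    | inv a _ ha =>
      obtain ⟨M1, h1⟩ := ha
      exact ⟨M1, fun m hm => by rw [map_inv, h1 m hm, inv_one]⟩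
  obtain ⟨m, hm⟩ := hfin d
  have hm' := hm m le_rfl
  obtain ⟨u, hu⟩ := h (m + 1)
  have h1 : w (fun i => σ m (e i)) (σ m u) (m + 1) 0 = 1 := by
    rw [← map_w, ← hu, hm']
  have h2 := w_one htf (fun i => σ m (e i)) (σ m u) m
    (fun j hj => hσ2 m j (by omega)) m 0 (by omega) h1
  rw [hσ1] at h2
  have h3 : ∀ g : G, σ m g ∈ Subgroup.zpowers (e m : G) := by
    intro g
    have hg : g ∈ Subgroup.closure X := by rw [hX.clo]; trivial
    induction hg using Subgroup.closure_induction with
    | mem x hx =>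
      by_cases hx' : ∀ i, (e i : G) ≠ x
      · rw [hσ3 m x hx hx']; exact one_mem _
      · push Not at hx'
        obtain ⟨i, rfl⟩ := hx'
        by_cases hi : i = m
        · rw [hi, hσ1]; exact Subgroup.mem_zpowers _
        · rw [hσ2 m i hi]; exact one_mem _
    | one => rw [map_one]; exact one_mem _
    | mul a b _ _ ha hb => rw [map_mul]; exact mul_mem ha hb
    | inv a _ ha => rw [map_inv]; exact inv_mem ha
  obtain ⟨k, hk⟩ := Subgroup.mem_zpowers_iff.1 (h3 u)
  rw [← hk, ← zpow_add, ← zpow_one_add] at h2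
  have h4 : (e m : G) ^ (1 + (k + k)).natAbs = 1 := by
    rcases Int.natAbs_eq (1 + (k + k)) with h5 | h5
    · rw [h5, zpow_natCast] at h2
      exact h2
    · rw [h5, zpow_neg, inv_eq_one, zpow_natCast] at h2
      exact h2
  have h5 : (e m : G) = 1 := htf _ _ (by
    rw [Int.natAbs_pos]; omega) h4
  -- the basis element is not trivial
  obtain ⟨φ, hφ, -⟩ := exists_hom hX e (fun _ => (e (m + 1) : G)) (fun _ => 1)
  have h6 := hφ m
  rw [h5, map_one] at h6
  have h7 : (e m : G) = e (m + 1) := by rw [h5, h6]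
  have h8 := e.injective (Subtype.ext h7)
  omega

end grp

end Pool.Agent.N56.Homog
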