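import Pool.Agent.N56.Laws
import Pool.Agent.N56.Hom
import Pool.Agent.N56.Gam

/-!
# The relatively free group of rank two has large second homology
-/

set_option autoImplicit false

noncomputable section

namespace Pool.Agent.N56

open Pool.Agent.Y45.MON

theorem commute_quot {W : Set (FreeGroup ℕ)} {l N : ℕ} (hN : xx 0 ^ N ∈ W) {H : Type} [Group H]
    (a g : H) :
    (QuotientGroup.mk' (Subgroup.normalClosure (vals (WW l W) H)) (a ^ N)) *
      (QuotientGroup.mk' (Subgroup.normalClosure (vals (WW l W) H)) (g * a ^ N * g⁻¹)) =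
    (QuotientGroup.mk' (Subgroup.normalClosure (vals (WW l W) H)) (g * a ^ N * g⁻¹)) *
      (QuotientGroup.mk' (Subgroup.normalClosure (vals (WW l W) H)) (a ^ N)) := by
  have h1 : xx 0 ^ N ∈ K0 W := by
    apply Subgroup.subset_normalClosure
    refine ⟨_, hN, FreeGroup.of, ?_⟩
    simp [xx]
  have h2 : xx 1 * xx 0 ^ N * (xx 1)⁻¹ ∈ K0 W :=
    Subgroup.Normal.conj_mem (inferInstance : (K0 W).Normal) _ h1 _
  let f : ℕ → H := fun n => if n = 0 then a else g
  have h3 : a ^ N * (g * a ^ N * g⁻¹) * (a ^ N)⁻¹ * (g * a ^ N * g⁻¹)⁻¹ ∈ vals (WW l W) H := by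
    refine ⟨_, Or.inr ⟨_, h1, _, h2, rfl⟩, f, ?_⟩
    simp [xx, f]
  have h4 := Subgroup.subset_normalClosure h3
  rw [SetLike.mem_coe, ← QuotientGroup.eq_one_iff] at h4
  change QuotientGroup.mk' (Subgroup.normalClosure (vals (WW l W) H))
    (a ^ N * (g * a ^ N * g⁻¹) * (a ^ N)⁻¹ * (g * a ^ N * g⁻¹)⁻¹) = 1 at h4
  rw [map_mul, map_mul, map_mul, map_inv, map_inv] at h4
  rw [mul_inv_eq_one, mul_inv_eq_iff_eq_mul] at h4
  exact h4

theorem h2_not_finite {w : WP 10} {p q : ℕ} {G : Type} [Group G] {rk : G → ℕ}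
    (H : MG w p q rk) (hp : p.Prime) (hq : q.Prime) (hpq : p ≠ q) (hodd : Odd (p * q)) {l : ℕ}
    (hl0 : 0 < l) (hl : (p * q) * (p * q) < l) :
    ¬ Module.Finite ℤ (groupHomology (Rep.trivial ℤ (FreeGroup (Fin 2) ⧸
      Subgroup.normalClosure (vals (WW l (W0 w p q)) (FreeGroup (Fin 2)))) ℤ) 2) := by
  obtain ⟨g, g', hgen, -⟩ := H.gen
  have hNe : NeZero l := ⟨hl0.ne'⟩
  let k := ZMod l
  have hsat : Sat (WW l (W0 w p q)) (Gam k G) :=
    sat_ext Gam.pr (H.sat hp hq hpq) Gam.pr_comm (fun a ha => Gam.pr_pow a ha)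
  let W := WW l (W0 w p q)
  let F2 := FreeGroup (Fin 2)
  let th : F2 →* Gam k G := FreeGroup.lift ![⟨1, 1, g⟩, ⟨0, 0, g'⟩]
  have th0 : th (FreeGroup.of 0) = ⟨1, 1, g⟩ := FreeGroup.lift_apply_of
  have th1 : th (FreeGroup.of 1) = ⟨0, 0, g'⟩ := FreeGroup.lift_apply_of
  have hle : Subgroup.normalClosure (vals W F2) ≤ th.ker := by
    apply Subgroup.normalClosure_le_normal
    rintro _ ⟨u, hu, f, rfl⟩
    rw [SetLike.mem_coe, MonoidHom.mem_ker, ← lift_comp]
    exact hsat u hu _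
  let B := F2 ⧸ Subgroup.normalClosure (vals W F2)
  let mk : F2 →* B := QuotientGroup.mk' _
  let th' : B →* Gam k G := QuotientGroup.lift _ th (fun x hx => hle hx)
  have hth : ∀ x : F2, th' (mk x) = th x := fun x => QuotientGroup.lift_mk' _ _ x
  have hsurj : ∀ h : G, ∃ x : F2, (th x).x = h := by
    have h1 : (Gam.pr.comp th).range = ⊤ := by
      rw [eq_top_iff, ← hgen, Subgroup.closure_le]
      rintro x (rfl | rfl)
      · exact ⟨FreeGroup.of 0, congrArg Gam.x th0⟩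
      · exact ⟨FreeGroup.of 1, congrArg Gam.x th1⟩
    intro h
    have h2 : h ∈ (Gam.pr.comp th).range := by rw [h1]; trivial
    exact h2
  apply h2_inf (fun s t => Gam.F (th' s) (th' t)) (R := MonoidAlgebra k G)
    (fun a b c => by
      rw [map_mul, map_mul]
      exact Gam.F_cocycle _ _ _) hl0 (fun x => Gam.char_smul x)
  have key : ∀ h : G, Gam.Z (p * q) g h ∈ {x : MonoidAlgebra k G | ∃ u v : B, u * v = v * u ∧
      x = Gam.F (th' u) (th' v) - Gam.F (th' v) (th' u)} := by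
    intro h
    obtain ⟨c, hc⟩ := hsurj h
    have e1 : th (FreeGroup.of 0 ^ (p * q)) =
        ⟨Gam.S (p * q) g, Gam.S (p * q) g⁻¹, 1⟩ := by
      rw [map_pow, th0, Gam.pow_basic, H.exp]
    have e2 : th (c * FreeGroup.of 0 ^ (p * q) * c⁻¹) =
        ⟨Gam.e h * Gam.S (p * q) g, Gam.S (p * q) g⁻¹ * Gam.e h⁻¹, 1⟩ := by
      rw [map_mul, map_mul, map_inv, e1, Gam.conj_basic, hc]
    refine ⟨mk (FreeGroup.of 0 ^ (p * q)), mk (c * FreeGroup.of 0 ^ (p * q) * c⁻¹),
      commute_quot (Or.inl rfl) _ _, ?_⟩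
    rw [hth, hth, e1, e2, Gam.F_basic]
  intro hfin
  have hG : Infinite G := H.inf hp hq
  have hN : 0 < p * q := Nat.mul_pos hp.pos hq.pos
  have hz : Finite (Subgroup.zpowers g) := by
    rw [← Nat.card_pos_iff.trans (and_iff_right ⟨(1 : Subgroup.zpowers g)⟩)]
    rw [Nat.card_zpowers]
    exact orderOf_pos_iff.2 (isOfFinOrder_iff_pow_eq_one.2 ⟨_, hN, H.exp g⟩)
  have hfin2 : (⋃ x ∈ {x : MonoidAlgebra k G | ∃ u v : B, u * v = v * u ∧
      x = Gam.F (th' u) (th' v) - Gam.F (th' v) (th' u)}, (x.coeff.support : Set G)).Finite :=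
    hfin.biUnion (fun x _ => x.coeff.support.finite_toSet)
  have hfin3 : (Set.univ : Set G).Finite := by
    refine (hfin2.union (Set.toFinite (Subgroup.zpowers g : Set G))).subset ?_
    intro h _
    by_cases hh : h ∈ Subgroup.zpowers g
    · exact Or.inr hh
    · left
      rw [Set.mem_iUnion₂]
      refine ⟨_, key h, ?_⟩
      rw [Finset.mem_coe, Finsupp.mem_support_iff]
      exact Gam.Z_ne (p * q) l hodd hl g h H.exp hh
  exact Set.infinite_univ hfin3

end Pool.Agent.N56
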