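import Pool.Agent.N804.LI.StmE
import Pool.Agent.H370R2.DirGood

/-!
# LI/CJ: conjugate zeros of Dirichlet L-functions
-/

set_option autoImplicit false

open Complex Filter Topology Set

namespace Pool.Agent.N56.LI_CJ

/-- conjugation of a function -/
noncomputable def cj (f : ℂ → ℂ) (s : ℂ) : ℂ := (starRingEnd ℂ) (f ((starRingEnd ℂ) s))

lemma analyticAt_cj {f : ℂ → ℂ} {s : ℂ} (h : AnalyticAt ℂ f ((starRingEnd ℂ) s)) :
    AnalyticAt ℂ (cj f) s := by
  rw [analyticAt_iff_eventually_differentiableAt] at h ⊢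
  have h2 := (continuous_conj.tendsto s).eventually h
  filter_upwards [h2] with z hz
  have h3 := hz.hasDerivAt.conj_conj
  rw [Complex.conj_conj] at h3
  exact h3.differentiableAt

lemma order_cj {f : ℂ → ℂ} {s : ℂ} (h : AnalyticAt ℂ f ((starRingEnd ℂ) s)) :
    analyticOrderAt (cj f) s = analyticOrderAt f ((starRingEnd ℂ) s) := by
  rcases eq_or_ne (analyticOrderAt f ((starRingEnd ℂ) s)) ⊤ with h0 | h0
  · rw [h0, analyticOrderAt_eq_top]
    rw [analyticOrderAt_eq_top] at h0
    have h2 := (continuous_conj.tendsto s).eventually h0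
    filter_upwards [h2] with z hz
    simp [cj, hz]
  · obtain ⟨n, hn⟩ := ENat.ne_top_iff_exists.mp h0
    rw [← hn]
    obtain ⟨g, hg, hg0, hfg⟩ := (h.analyticOrderAt_eq_natCast).mp hn.symm
    rw [(analyticAt_cj h).analyticOrderAt_eq_natCast]
    refine ⟨cj g, analyticAt_cj hg, ?_, ?_⟩
    · simp [cj, hg0]
    · have h2 := (continuous_conj.tendsto s).eventually hfg
      filter_upwards [h2] with z hz
      simp only [cj, hz, smul_eq_mul, map_mul, map_pow, map_sub, Complex.conj_conj]

theorem main : Pool.Agent.N804.LI.S_CJ := by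
  intro q _ χ s h0 h1
  have hs : s ≠ 1 := by
    rintro rfl
    simp at h1
  have hs' : (starRingEnd ℂ) s ≠ 1 := by
    intro h
    have := congrArg Complex.re h
    rw [conj_re, one_re] at this
    linarith
  have e := H370.DL.LFunction_conj χ s hs
  constructor
  · rw [e, map_eq_zero]
  · have h2 : DirichletCharacter.LFunction χ =ᶠ[𝓝 s] cj (DirichletCharacter.LFunction χ⁻¹) := by
      filter_upwards [isOpen_compl_singleton.mem_nhds (show s ∈ ({1} : Set ℂ)ᶜ from hs)] with z hz
      unfold cj
      rw [H370.DL.LFunction_conj χ z hz, Complex.conj_conj]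
    unfold analyticOrderNatAt
    rw [analyticOrderAt_congr h2, order_cj (H370.DL.analyticAt_L hs')]

end Pool.Agent.N56.LI_CJ
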