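import Pool.Agent.N56.Grp

/-!
# The laws
-/

set_option autoImplicit false

namespace Pool.Agent.N56

open Pool.Agent.Y45.MON

/-- the group satisfies the laws -/
def Sat (W : Set (FreeGroup ℕ)) (H : Type) [Group H] : Prop :=
  ∀ w ∈ W, ∀ f : ℕ → H, FreeGroup.lift f w = 1

/-- the letters -/
def xx (i : ℕ) : FreeGroup ℕ := FreeGroup.of i

/-- the laws of the first variety -/
def W0 (w : WP 10) (p q : ℕ) : Set (FreeGroup ℕ) :=
  {g | g = xx 0 ^ (p * q) ∨
    ∃ c : FreeGroup ℕ, (c = com (xx 0) (xx 1) ∨ c = com (xx 1) (xx 2) ∨ c = com (xx 0) (xx 2)) ∧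
      (g = vv w 8 c (DD w (xx 0) (xx 1) (xx 2) ^ p) ^ p ∨
        g = vv w 9 c (DD w (xx 0) (xx 1) (xx 2) ^ p) ^ q)}

theorem MG.sat {w : WP 10} {G : Type} [Group G] {p q : ℕ} {rk : G → ℕ} (H : MG w p q rk)
    (hp : p.Prime) (hq : q.Prime) (hpq : p ≠ q) : Sat (W0 w p q) G := by
  rintro g hg f
  have key : ∀ (x y z c : G), (c = com x y ∨ c = com y z ∨ c = com x z) →
      vv w 8 c (DD w x y z ^ p) ^ p = 1 ∧ vv w 9 c (DD w x y z ^ p) ^ q = 1 := by
    intro x y z c hc
    have h8 : w.δ 8 = 2 := by rw [H.del]; rfl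
    have h9 : w.δ 9 = 2 := by rw [H.del]; rfl
    by_cases hc1 : c = 1
    · subst hc1
      rw [vv_comm2 w h8 (by rw [one_mul, mul_one]), vv_comm2 w h9 (by rw [one_mul, mul_one])]
      exact ⟨one_pow _, one_pow _⟩
    have hnc : c * DD w x y z ^ p ≠ DD w x y z ^ p * c := by
      obtain ⟨h1, h2, h3⟩ := H.DD_spec hp hq hpq x y z
      rcases hc with rfl | rfl | rfl
      · exact h1 hc1
      · exact h2 hc1
      · exact h3 hc1
    constructor
    · have := H.ord 8 _ _ hnc
      rw [← orderOf_dvd_iff_pow_eq_one, this]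
      exact dvd_rfl
    · have := H.ord 9 _ _ hnc
      rw [← orderOf_dvd_iff_pow_eq_one, this]
      exact dvd_rfl
  rcases hg with rfl | ⟨c, hc, hg⟩
  · rw [map_pow]
    exact H.exp _
  · have h1 := key (f 0) (f 1) (f 2) (FreeGroup.lift f c) (by
      rcases hc with rfl | rfl | rfl
      · left; simp [map_com, xx]
      · right; left; simp [map_com, xx]
      · right; right; simp [map_com, xx])
    rcases hg with rfl | rfl
    · rw [map_pow, map_vv, map_pow, map_DD]
      simpa [xx] using h1.1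
    · rw [map_pow, map_vv, map_pow, map_DD]
      simpa [xx] using h1.2

/-- in the first variety a relation forces commutativity -/
theorem sat_comm {w : WP 10} (hw : w.δ = dels) {p q : ℕ} (hp : p.Prime) (hq : q.Prime)
    (hpq : p ≠ q) {H : Type} [Group H] (hH : Sat (W0 w p q) H) {x y z : H}
    (h : DD w x y z ^ p = 1) : x * y = y * x ∧ y * z = z * y ∧ x * z = z * x := by
  have h8 : w.δ 8 = 2 := by rw [hw]; rfl
  have h9 : w.δ 9 = 2 := by rw [hw]; rfl
  let f : ℕ → H := fun n => if n = 0 then x else if n = 1 then y else z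
  have hD : FreeGroup.lift f (DD w (xx 0) (xx 1) (xx 2) ^ p) = 1 := by
    rw [map_pow, map_DD]
    simpa [xx, f] using h
  have key : ∀ c : FreeGroup ℕ,
      (c = com (xx 0) (xx 1) ∨ c = com (xx 1) (xx 2) ∨ c = com (xx 0) (xx 2)) →
      FreeGroup.lift f c = 1 := by
    intro c hc
    have h1 := hH _ (Or.inr ⟨c, hc, Or.inl rfl⟩) f
    have h2 := hH _ (Or.inr ⟨c, hc, Or.inr rfl⟩) f
    rw [map_pow, map_vv, hD, vv_comm2 w h8 (by rw [one_mul, mul_one])] at h1
    rw [map_pow, map_vv, hD, vv_comm2 w h9 (by rw [one_mul, mul_one])] at h2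
    have h3 := orderOf_dvd_of_pow_eq_one h1
    have h4 := orderOf_dvd_of_pow_eq_one h2
    have h5 := Nat.dvd_gcd h3 h4
    rw [(Nat.coprime_primes hp hq).2 hpq] at h5
    exact orderOf_eq_one_iff.1 (Nat.dvd_one.1 h5)
  have k1 := key _ (Or.inl rfl)
  have k2 := key _ (Or.inr (Or.inl rfl))
  have k3 := key _ (Or.inr (Or.inr rfl))
  rw [map_com] at k1 k2 k3
  exact ⟨com_eq_one.1 (by simpa [xx, f] using k1), com_eq_one.1 (by simpa [xx, f] using k2),
    com_eq_one.1 (by simpa [xx, f] using k3)⟩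

/-- the values of the laws -/
def vals (W : Set (FreeGroup ℕ)) (H : Type) [Group H] : Set H :=
  {g | ∃ w ∈ W, ∃ f : ℕ → H, FreeGroup.lift f w = g}

/-- the verbal subgroup of the free group of countable rank -/
def K0 (W : Set (FreeGroup ℕ)) : Subgroup (FreeGroup ℕ) :=
  Subgroup.normalClosure (vals W (FreeGroup ℕ))

instance (W : Set (FreeGroup ℕ)) : (K0 W).Normal := Subgroup.normalClosure_normal

/-- the laws of the extensions of an abelian group of exponent `l` by a group in the variety -/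
def WW (l : ℕ) (W : Set (FreeGroup ℕ)) : Set (FreeGroup ℕ) :=
  {g | (∃ u ∈ K0 W, g = u ^ l) ∨ ∃ u ∈ K0 W, ∃ v ∈ K0 W, g = u * v * u⁻¹ * v⁻¹}

theorem lift_comp {H H' : Type} [Group H] [Group H'] (φ : H →* H') (f : ℕ → H)
    (g : FreeGroup ℕ) : FreeGroup.lift (fun n => φ (f n)) g = φ (FreeGroup.lift f g) := by
  have : FreeGroup.lift (fun n => φ (f n)) = φ.comp (FreeGroup.lift f) := by
    ext n
    simp
  rw [this]
  rfl

theorem K0_le {W : Set (FreeGroup ℕ)} {H : Type} [Group H] (hH : Sat W H)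
    (φ : FreeGroup ℕ →* H) : K0 W ≤ φ.ker := by
  unfold K0
  apply Subgroup.normalClosure_le_normal
  rintro _ ⟨w, hw, f, rfl⟩
  rw [SetLike.mem_coe, MonoidHom.mem_ker, ← lift_comp]
  exact hH w hw _

/-- extensions satisfy the laws -/
theorem sat_ext {l : ℕ} {W : Set (FreeGroup ℕ)} {Γ G : Type} [Group Γ] [Group G] (π : Γ →* G)
    (hG : Sat W G) (h1 : ∀ a b : Γ, π a = 1 → π b = 1 → a * b = b * a)
    (h2 : ∀ a : Γ, π a = 1 → a ^ l = 1) : Sat (WW l W) Γ := by
  rintro g hg f
  have hk : ∀ u ∈ K0 W, π (FreeGroup.lift f u) = 1 := fun u hu =>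
    K0_le hG (π.comp (FreeGroup.lift f)) hu
  rcases hg with ⟨u, hu, rfl⟩ | ⟨u, hu, v, hv, rfl⟩
  · rw [map_pow]
    exact h2 _ (hk u hu)
  · simp only [map_mul, map_inv]
    rw [h1 _ _ (hk u hu) (hk v hv)]
    group

theorem sat_quot (W : Set (FreeGroup ℕ)) (H : Type) [Group H] :
    Sat W (H ⧸ Subgroup.normalClosure (vals W H)) := by
  intro w hw f
  have hs : ∀ n, ∃ g : H, QuotientGroup.mk' (Subgroup.normalClosure (vals W H)) g = f n :=
    fun n => QuotientGroup.mk'_surjective _ _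
  choose g hg using hs
  have : FreeGroup.lift f w =
      QuotientGroup.mk' (Subgroup.normalClosure (vals W H)) (FreeGroup.lift g w) := by
    rw [← lift_comp]
    congr 2
    funext n
    exact (hg n).symm
  rw [this, QuotientGroup.mk'_apply, QuotientGroup.eq_one_iff]
  exact Subgroup.subset_normalClosure ⟨w, hw, g, rfl⟩

theorem comm_of_gen {H : Type} [Group H] (a b c : H) (hgen : Subgroup.closure {a, b, c} = ⊤)
    (h1 : a * b = b * a) (h2 : b * c = c * b) (h3 : a * c = c * a) (x y : H) : x * y = y * x := by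
  have key : ∀ x ∈ ({a, b, c} : Set H), ∀ y ∈ ({a, b, c} : Set H), x * y = y * x := by
    rintro x (rfl | rfl | rfl) y (rfl | rfl | rfl) <;> first | rfl | assumption | (symm; assumption)
  have h4 : Subgroup.closure ({a, b, c} : Set H) ≤ Subgroup.centralizer {a, b, c} := by
    rw [Subgroup.closure_le]
    intro u hu
    rw [SetLike.mem_coe, Subgroup.mem_centralizer_iff]
    exact fun v hv => key v hv u hu
  have h5 : Subgroup.closure ({a, b, c} : Set H) ≤
      Subgroup.centralizer (Subgroup.closure ({a, b, c} : Set H) : Set H) := by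
    rw [Subgroup.closure_le]
    intro u hu
    rw [SetLike.mem_coe, Subgroup.mem_centralizer_iff]
    intro v hv
    have h6 := h4 hv
    rw [Subgroup.mem_centralizer_iff] at h6
    exact (h6 u hu).symm
  have hx : x ∈ Subgroup.closure ({a, b, c} : Set H) := by rw [hgen]; trivial
  have hy : y ∈ Subgroup.closure ({a, b, c} : Set H) := by rw [hgen]; trivial
  have h7 := h5 hx
  rw [Subgroup.mem_centralizer_iff] at h7
  exact (h7 y hy).symm

/-- a finitely generated commutative group of finite exponent is finite -/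
theorem finite_of_exp {H : Type} [Group H] (hfg : Group.FG H) (hc : ∀ x y : H, x * y = y * x)
    {N : ℕ} (hN : 0 < N) (hexp : ∀ g : H, g ^ N = 1) : Finite H := by
  let iH : CommGroup H := { (inferInstance : Group H) with mul_comm := hc }
  have hfg' : @Group.FG H iH.toGroup := hfg
  exact @CommGroup.finite_of_fg_isMulTorsion H iH hfg'
    (fun g => isOfFinOrder_iff_pow_eq_one.2 ⟨N, hN, hexp g⟩)

theorem lift_surj {H : Type} [Group H] (a b c : H) (hgen : Subgroup.closure {a, b, c} = ⊤) :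
    ∃ π : FreeGroup ℕ →* H, Function.Surjective π := by
  let f : ℕ → H := fun n => if n = 0 then a else if n = 1 then b else c
  refine ⟨FreeGroup.lift f, ?_⟩
  rw [← MonoidHom.range_eq_top, eq_top_iff, ← hgen, Subgroup.closure_le]
  rintro x (rfl | rfl | rfl)
  · exact ⟨FreeGroup.of 0, by simp [f]⟩
  · exact ⟨FreeGroup.of 1, by simp [f]⟩
  · exact ⟨FreeGroup.of 2, by simp [f]⟩

/-- a relation forces finiteness in the second variety -/
theorem finite_of_rel {w : WP 10} (hw : w.δ = dels) {p q : ℕ} (hp : p.Prime) (hq : q.Prime)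
    (hpq : p ≠ q) {l : ℕ} (hl : 0 < l) {H : Type} [Group H] (hH : Sat (WW l (W0 w p q)) H)
    (a b c : H) (hgen : Subgroup.closure {a, b, c} = ⊤) (h : DD w a b c ^ p = 1) : Finite H := by
  obtain ⟨π, hπ⟩ := lift_surj a b c hgen
  obtain ⟨A, hA⟩ : ∃ A : Subgroup H, A = (K0 (W0 w p q)).map π := ⟨_, rfl⟩
  have hAn : A.Normal := by
    rw [hA]
    exact Subgroup.Normal.map inferInstance π hπ
  have hfgH : Group.FG H := by
    rw [Group.fg_iff]
    exact ⟨{a, b, c}, hgen, by simp⟩
  have hev : ∀ u : FreeGroup ℕ, FreeGroup.lift (fun n => π (FreeGroup.of n)) u = π u := by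
    intro u
    rw [lift_comp]
    congr 1
    have : (FreeGroup.lift fun n => FreeGroup.of n : FreeGroup ℕ →* FreeGroup ℕ) =
        MonoidHom.id _ := by
      ext n
      simp
    rw [this]
    rfl
  -- the subgroup
  have hAc : ∀ x ∈ A, ∀ y ∈ A, x * y = y * x := by
    intro x hx y hy
    rw [hA] at hx hy
    obtain ⟨u, hu, rfl⟩ := hx
    obtain ⟨v, hv, rfl⟩ := hy
    have h1 := hH _ (Or.inr ⟨u, hu, v, hv, rfl⟩) (fun n => π (FreeGroup.of n))
    rw [hev] at h1
    simp only [map_mul, map_inv] at h1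
    rw [mul_inv_eq_one, mul_inv_eq_iff_eq_mul] at h1
    exact h1
  have hAe : ∀ x ∈ A, x ^ l = 1 := by
    intro x hx
    rw [hA] at hx
    obtain ⟨u, hu, rfl⟩ := hx
    have h1 := hH _ (Or.inl ⟨u, hu, rfl⟩) (fun n => π (FreeGroup.of n))
    rw [hev, map_pow] at h1
    exact h1
  -- the quotient
  have hQ : Sat (W0 w p q) (H ⧸ A) := by
    intro s hs f
    have hs' : ∀ n, ∃ g : FreeGroup ℕ, QuotientGroup.mk' A (π g) = f n := by
      intro n
      obtain ⟨y, hy⟩ := QuotientGroup.mk'_surjective A (f n)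
      obtain ⟨g, rfl⟩ := hπ y
      exact ⟨g, hy⟩
    choose g hg using hs'
    have h1 : FreeGroup.lift f s = (QuotientGroup.mk' A) (π (FreeGroup.lift g s)) := by
      have h2 := lift_comp ((QuotientGroup.mk' A).comp π) g s
      rw [MonoidHom.comp_apply] at h2
      rw [← h2]
      congr 2
      funext n
      exact (hg n).symm
    rw [h1, QuotientGroup.mk'_apply, QuotientGroup.eq_one_iff, hA]
    exact ⟨_, Subgroup.subset_normalClosure ⟨s, hs, g, rfl⟩, rfl⟩
  have hQ2 : DD w (a : H ⧸ A) (b : H ⧸ A) (c : H ⧸ A) ^ p = 1 := by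
    have := congrArg (QuotientGroup.mk' A) h
    rwa [map_pow, map_DD, map_one] at this
  obtain ⟨k1, k2, k3⟩ := sat_comm hw hp hq hpq hQ hQ2
  have hgenQ : Subgroup.closure {(a : H ⧸ A), (b : H ⧸ A), (c : H ⧸ A)} = ⊤ := by
    have h1 := congrArg (Subgroup.map (QuotientGroup.mk' A)) hgen
    rw [MonoidHom.map_closure, Subgroup.map_top_of_surjective _ (QuotientGroup.mk'_surjective A)]
      at h1
    rw [← h1, Set.image_insert_eq, Set.image_insert_eq, Set.image_singleton]
    rfl
  have hfgQ : Group.FG (H ⧸ A) := by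
    rw [Group.fg_iff]
    exact ⟨_, hgenQ, Set.toFinite _⟩
  have hfinQ : Finite (H ⧸ A) := by
    refine finite_of_exp hfgQ (comm_of_gen _ _ _ hgenQ k1 k2 k3) (Nat.mul_pos hp.pos hq.pos) ?_
    intro g
    have := hQ _ (Or.inl rfl) (fun _ => g)
    simpa [xx] using this
  have hfi : A.FiniteIndex := Subgroup.finiteIndex_of_finite_quotient
  have hfgA : Group.FG A := Subgroup.fg_of_index_ne_zero A
  have hfinA : Finite A := by
    refine finite_of_exp hfgA ?_ hl ?_
    · intro x y
      exact Subtype.ext (hAc x x.2 y y.2)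
    · intro x
      exact Subtype.ext (hAe x x.2)
  have h8 : Nat.card H = Nat.card (H ⧸ A) * Nat.card A := Subgroup.card_eq_card_quotient_mul_card_subgroup A
  have h9 : Nat.card H ≠ 0 := by
    rw [h8]
    exact Nat.mul_ne_zero Nat.card_pos.ne' Nat.card_pos.ne'
  exact Nat.finite_of_card_ne_zero h9

end Pool.Agent.N56
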