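import Pool.Agent.Y45.MON.Geo
import Pool.Agent.Y811.MON.Frame
import Pool.Agent.Y914.MON.Xa
import Pool.Agent.Y571.MON.S4
import Pool.Agent.Y331.MON.Step5
import Pool.Agent.Y864.MON.LimA
import Pool.Agent.Y872.MON.LimB

/-!
# The limit theorem of project MON (assembled from the starting library)
-/

set_option autoImplicit false

namespace Pool.Agent.N56

open Pool.Agent.Y45.MON

theorem aFrame : FrameStmt := Pool.Agent.Y811.MON.frame
theorem aWr : WrStmt := Pool.Agent.Y811.MON.wr aFrame aRig
theorem aXa : XaStmt := Pool.Agent.Y914.MON.xa aFrame aBdd aRig2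
theorem aPb : PbStmt := Pool.Agent.Y571.MON.t_PB aKey2 aNew
theorem aStep : StepStmt :=
  Pool.Agent.Y331.MON.stepJob aWr aXa aPb aGr aQuo aStabTor aMix aOrd aConjN aConjO aConjT
theorem aSq : SqStmt := Pool.Agent.Y864.MON.limA aStep
theorem aLim : LimStmt := Pool.Agent.Y872.MON.lim
theorem aMon : MonStmt := mon_of aSq aLim

end Pool.Agent.N56
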