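import Pool.Agent.N906.SZ.Stm
import Pool.Agent.H510R2.Div

/-!
# SZ/CONIC: uniform bound for the number of the solutions of `x² + r y² = N` in a box
-/

set_option autoImplicit false

namespace Pool.Agent.N56.SZ

open Finset Pool.Agent.N906.SZ

theorem cop_y {r N x y : ℤ} (h : x ^ 2 + r * y ^ 2 = N) (c : IsCoprime x y) : IsCoprime y N := by
  have h1 : IsCoprime y (x ^ 2) := c.symm.pow_right
  have h2 : IsCoprime y (x ^ 2 + y * (r * y)) := IsCoprime.add_mul_left_right h1 _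
  have e : x ^ 2 + y * (r * y) = N := by rw [← h]; ring
  rwa [e] at h2

theorem key {r N : ℤ} (hN : N ≠ 0) (hr : ∀ p : ℕ, p.Prime → (p : ℤ) ∣ N → ¬ (p : ℤ) ^ 2 ∣ r)
    {x0 y0 x1 y1 x2 y2 : ℤ} (h0 : x0 ^ 2 + r * y0 ^ 2 = N) (h1 : x1 ^ 2 + r * y1 ^ 2 = N)
    (h2 : x2 ^ 2 + r * y2 ^ 2 = N) (c0 : IsCoprime x0 y0) (c1 : IsCoprime x1 y1)
    (e1 : Int.gcd (x1 * y0 - x0 * y1) N = Int.gcd (x2 * y0 - x0 * y2) N)
    (e2 : Int.gcd (x1 * y0 + x0 * y1) N = Int.gcd (x2 * y0 + x0 * y2) N) :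
    N ∣ 2 * (x1 * y2 - x2 * y1) := by
  have hy0 := cop_y h0 c0
  have hy1 := cop_y h1 c1
  set d1 := Int.gcd (x1 * y0 - x0 * y1) N with hd1
  set d2 := Int.gcd (x1 * y0 + x0 * y1) N with hd2
  have hd1N : (d1 : ℤ) ∣ N := Int.gcd_dvd_right ..
  have hd2N : (d2 : ℤ) ∣ N := Int.gcd_dvd_right ..
  have a1 : (d1 : ℤ) ∣ x1 * y0 - x0 * y1 := Int.gcd_dvd_left ..
  have a2 : (d2 : ℤ) ∣ x1 * y0 + x0 * y1 := Int.gcd_dvd_left ..
  have b1 : (d1 : ℤ) ∣ x2 * y0 - x0 * y2 := by rw [e1]; exact Int.gcd_dvd_left ..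
  have b2 : (d2 : ℤ) ∣ x2 * y0 + x0 * y2 := by rw [e2]; exact Int.gcd_dvd_left ..
  have hcy : ∀ {d : ℤ}, d ∣ N → IsCoprime y0 d := fun {d} hd =>
    IsCoprime.of_isCoprime_of_dvd_right hy0 hd
  have w1 : (d1 : ℤ) ∣ x1 * y2 - x2 * y1 := by
    have h3 := (a1.mul_left y2).sub (b1.mul_left y1)
    have e : y2 * (x1 * y0 - x0 * y1) - y1 * (x2 * y0 - x0 * y2) = y0 * (x1 * y2 - x2 * y1) := by
      ring
    rw [e] at h3
    exact (hcy hd1N).symm.dvd_of_dvd_mul_left h3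
  have w2 : (d2 : ℤ) ∣ x1 * y2 - x2 * y1 := by
    have h3 := (a2.mul_left y2).sub (b2.mul_left y1)
    have e : y2 * (x1 * y0 + x0 * y1) - y1 * (x2 * y0 + x0 * y2) = y0 * (x1 * y2 - x2 * y1) := by
      ring
    rw [e] at h3
    exact (hcy hd2N).symm.dvd_of_dvd_mul_left h3
  have hprod : N ∣ (d1 : ℤ) * d2 := by
    have h3 : N ∣ (x1 * y0 - x0 * y1) * (x1 * y0 + x0 * y1) := by
      refine ⟨y0 ^ 2 - y1 ^ 2, ?_⟩
      have e : (x1 * y0 - x0 * y1) * (x1 * y0 + x0 * y1) = x1 ^ 2 * y0 ^ 2 - x0 ^ 2 * y1 ^ 2 := by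
        ring
      rw [e, show x1 ^ 2 = N - r * y1 ^ 2 by rw [← h1]; ring,
        show x0 ^ 2 = N - r * y0 ^ 2 by rw [← h0]; ring]
      ring
    rw [← Int.natAbs_dvd_natAbs, Int.natAbs_mul] at h3
    rw [← Int.natAbs_dvd_natAbs, Int.natAbs_mul, Int.natAbs_natCast, Int.natAbs_natCast]
    have h4 := Nat.dvd_gcd_mul_gcd_iff_dvd_mul.2 h3
    rw [hd1, hd2, Int.gcd_comm _ N, Int.gcd_comm _ N]
    exact h4
  set L := Nat.lcm d1 d2 with hL
  set g := Nat.gcd d1 d2 with hg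
  have hLw : (L : ℤ) ∣ x1 * y2 - x2 * y1 := by
    rw [Int.natCast_dvd] at w1 w2 ⊢
    exact Nat.lcm_dvd w1 w2
  have hgL : (g : ℤ) * L = d1 * d2 := by exact_mod_cast Nat.gcd_mul_lcm d1 d2
  have hg1 : (g : ℤ) ∣ d1 := by exact_mod_cast Nat.gcd_dvd_left d1 d2
  have hg2 : (g : ℤ) ∣ d2 := by exact_mod_cast Nat.gcd_dvd_right d1 d2
  have hgN : (g : ℤ) ∣ N := hg1.trans hd1N
  have hgx : (g : ℤ) ∣ 2 * x1 := by
    have h3 := (hg1.trans a1).add (hg2.trans a2)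
    have e : x1 * y0 - x0 * y1 + (x1 * y0 + x0 * y1) = y0 * (2 * x1) := by ring
    rw [e] at h3
    exact (hcy hgN).symm.dvd_of_dvd_mul_left h3
  set h := Int.gcd x1 N with hh
  have hhx : (h : ℤ) ∣ x1 := Int.gcd_dvd_left ..
  have hhN : (h : ℤ) ∣ N := Int.gcd_dvd_right ..
  have hgh : (g : ℤ) ∣ 2 * h := by
    have h3 : (g : ℤ) ∣ (Int.gcd (2 * x1) (2 * N) : ℤ) := Int.dvd_coe_gcd hgx (hgN.mul_left 2)
    rw [Int.gcd_mul_left] at h3
    simpa using h3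
  -- primes
  have hpp : ∀ p : ℕ, p.Prime → (p : ℤ) ∣ x1 → ¬ (p : ℤ) ^ 2 ∣ N := by
    intro p hp hpx hpN
    have hpN1 : (p : ℤ) ∣ N := (dvd_pow_self _ two_ne_zero).trans hpN
    apply hr p hp hpN1
    have h3 : (p : ℤ) ^ 2 ∣ r * y1 ^ 2 := by
      have e : r * y1 ^ 2 = N - x1 ^ 2 := by rw [← h1]; ring
      rw [e]
      exact hpN.sub (pow_dvd_pow_of_dvd hpx 2)
    have h4 : IsCoprime ((p : ℤ) ^ 2) (y1 ^ 2) :=
      (IsCoprime.of_isCoprime_of_dvd_right hy1 hpN1).symm.pow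
    exact h4.dvd_of_dvd_mul_right h3
  have hsq : Squarefree h := by
    rw [Nat.squarefree_iff_prime_squarefree]
    intro p hp hpp'
    have h3 : (p : ℤ) * p ∣ h := by exact_mod_cast hpp'
    apply hpp p hp ((dvd_mul_right _ _).trans (h3.trans hhx))
    rw [sq]
    exact h3.trans hhN
  obtain ⟨k, hk⟩ := hhN
  have hcop : IsCoprime (h : ℤ) k := by
    rw [Int.isCoprime_iff_gcd_eq_one]
    by_contra hne
    obtain ⟨p, hp, hpd⟩ := Nat.exists_prime_and_dvd hne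
    have h3 : (p : ℤ) ∣ (Int.gcd (h : ℤ) k : ℤ) := by exact_mod_cast hpd
    have h4 : (p : ℤ) ∣ h := h3.trans (Int.gcd_dvd_left ..)
    have h5 : (p : ℤ) ∣ k := h3.trans (Int.gcd_dvd_right ..)
    apply hpp p hp (h4.trans hhx)
    rw [hk, sq]
    exact mul_dvd_mul h4 h5
  have hh0 : (h : ℤ) ≠ 0 := by
    intro h3
    rw [h3] at hk
    exact hN (by rw [hk]; ring)
  have hkL : k ∣ 2 * L := by
    have h3 : (h : ℤ) * k ∣ h * (2 * L) := by
      rw [← hk]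
      calc N ∣ (d1 : ℤ) * d2 := hprod
        _ = g * L := hgL.symm
        _ ∣ (2 * h) * L := mul_dvd_mul_right hgh _
        _ = h * (2 * L) := by ring
    exact (mul_dvd_mul_iff_left hh0).1 h3
  have hhr : (h : ℤ) ∣ r := by
    have h3 : (h : ℤ) ∣ r * y1 ^ 2 := by
      have e : r * y1 ^ 2 = N - x1 ^ 2 := by rw [← h1]; ring
      rw [e]
      exact (Dvd.intro k hk.symm : (h : ℤ) ∣ N).sub (hhx.trans (dvd_pow_self _ two_ne_zero))
    have h4 : IsCoprime (h : ℤ) (y1 ^ 2) :=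
      (IsCoprime.of_isCoprime_of_dvd_right hy1 ⟨k, hk⟩).symm.pow_right
    exact h4.dvd_of_dvd_mul_right h3
  have hhx2 : (h : ℤ) ∣ x2 := by
    have h3 : (h : ℤ) ∣ x2 ^ 2 := by
      have e : x2 ^ 2 = N - r * y2 ^ 2 := by rw [← h2]; ring
      rw [e]
      exact (Dvd.intro k hk.symm : (h : ℤ) ∣ N).sub (hhr.mul_right _)
    rw [Int.natCast_dvd] at h3 ⊢
    rw [Int.natAbs_pow] at h3
    exact (hsq.dvd_pow_iff_dvd two_ne_zero).1 h3
  have hhw : (h : ℤ) ∣ 2 * (x1 * y2 - x2 * y1) :=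
    ((hhx.mul_right y2).sub (hhx2.mul_right y1)).mul_left 2
  have hkw : k ∣ 2 * (x1 * y2 - x2 * y1) := hkL.trans (mul_dvd_mul_left 2 hLw)
  rw [hk]
  exact hcop.mul_dvd hhw hkw

theorem key2 {r N : ℤ} (hN : N ≠ 0) {x1 y1 x2 y2 : ℤ} (h1 : x1 ^ 2 + r * y1 ^ 2 = N)
    (h2 : x2 ^ 2 + r * y2 ^ 2 = N) (hd : N ∣ 2 * (x1 * y2 - x2 * y1)) :
    ∃ S T : ℤ, S ^ 2 + r * T ^ 2 = 4 ∧ 2 * x1 = S * x2 + r * T * y2 ∧ 2 * y1 = S * y2 - T * x2 := by
  obtain ⟨T, hT⟩ := hd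
  have hb : (2 * (x1 * x2 + r * y1 * y2)) ^ 2 = N ^ 2 * (4 - r * T ^ 2) := by
    have e : (2 * (x1 * x2 + r * y1 * y2)) ^ 2 = 4 * ((x1 ^ 2 + r * y1 ^ 2) * (x2 ^ 2 + r * y2 ^ 2)) -
      r * (2 * (x1 * y2 - x2 * y1)) ^ 2 := by ring
    rw [e, hT, h1, h2]
    ring
  have hd2 : N ∣ 2 * (x1 * x2 + r * y1 * y2) := by
    rw [← Int.pow_dvd_pow_iff two_ne_zero, hb]
    exact dvd_mul_right _ _
  obtain ⟨S, hS⟩ := hd2
  refine ⟨S, T, ?_, ?_, ?_⟩
  · have h3 : N ^ 2 * (S ^ 2 + r * T ^ 2) = N ^ 2 * 4 := by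
      have h4 : N ^ 2 * S ^ 2 = N ^ 2 * (4 - r * T ^ 2) := by rw [← hb, hS]; ring
      linarith
    exact mul_left_cancel₀ (pow_ne_zero 2 hN) h3
  · have h3 : N * (2 * x1) = N * (S * x2 + r * T * y2) := by
      have e : N * (S * x2 + r * T * y2) = (N * S) * x2 + r * (N * T) * y2 := by ring
      rw [e, ← hS, ← hT, ← h2]
      ring
    exact mul_left_cancel₀ hN h3
  · have h3 : N * (2 * y1) = N * (S * y2 - T * x2) := by
      have e : N * (S * y2 - T * x2) = (N * S) * y2 - (N * T) * x2 := by ring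
      rw [e, ← hS, ← hT, ← h2]
      ring
    exact mul_left_cancel₀ hN h3

/-- the size of a solution for `r = -R` -/
noncomputable def al (R : ℤ) (z : ℤ × ℤ) : ℝ := z.1 + z.2 * √(R : ℝ)

theorem al_mul {R N : ℤ} (hR : 0 < R) {z : ℤ × ℤ} (h : z.1 ^ 2 + (-R) * z.2 ^ 2 = N) :
    al R z * (z.1 - z.2 * √(R : ℝ)) = N := by
  have h1 : (√(R : ℝ)) ^ 2 = R := Real.sq_sqrt (by exact_mod_cast hR.le)
  have h2 : (z.1 : ℝ) ^ 2 + (-R) * (z.2 : ℝ) ^ 2 = N := by exact_mod_cast h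
  unfold al
  nlinarith

theorem al_bd {R N : ℤ} (hR : 0 < R) {z : ℤ × ℤ} (h : z.1 ^ 2 + (-R) * z.2 ^ 2 = N) {B : ℝ}
    (hB : 1 ≤ B) (hN0 : N ≠ 0) (hN : |(N : ℝ)| ≤ B) (h1 : |(z.1 : ℝ)| ≤ B) :
    1 / (3 * B) ≤ |al R z| ∧ |al R z| ≤ 3 * B := by
  have e1 : (√(R : ℝ)) ^ 2 = R := Real.sq_sqrt (by exact_mod_cast hR.le)
  have e2 : (z.1 : ℝ) ^ 2 + (-R) * (z.2 : ℝ) ^ 2 = N := by exact_mod_cast h
  have e3 : |(z.2 : ℝ) * √(R : ℝ)| ≤ 2 * B := by
    apply abs_le_of_sq_le_sq _ (by linarith)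
    have e4 : ((z.2 : ℝ) * √(R : ℝ)) ^ 2 = (z.1 : ℝ) ^ 2 - N := by
      rw [mul_pow, e1]; linarith
    rw [e4]
    have e5 : (z.1 : ℝ) ^ 2 ≤ B ^ 2 := by
      rw [← sq_abs]; exact pow_le_pow_left₀ (abs_nonneg _) h1 2
    have e6 := (abs_le.1 hN).1
    nlinarith
  have e7 : |al R z| ≤ 3 * B := by
    unfold al
    calc |(z.1 : ℝ) + z.2 * √(R : ℝ)| ≤ |(z.1 : ℝ)| + |z.2 * √(R : ℝ)| := abs_add_le _ _
      _ ≤ 3 * B := by linarith
  have e8 : |(z.1 : ℝ) - z.2 * √(R : ℝ)| ≤ 3 * B := by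
    calc |(z.1 : ℝ) - z.2 * √(R : ℝ)| ≤ |(z.1 : ℝ)| + |z.2 * √(R : ℝ)| := abs_sub _ _
      _ ≤ 3 * B := by linarith
  refine ⟨?_, e7⟩
  have e9 : (1 : ℝ) ≤ |(N : ℝ)| := by exact_mod_cast Int.one_le_abs hN0
  rw [← al_mul hR h, abs_mul] at e9
  rw [div_le_iff₀ (by linarith)]
  calc 1 ≤ |al R z| * |(z.1 : ℝ) - z.2 * √(R : ℝ)| := e9
    _ ≤ |al R z| * (3 * B) := mul_le_mul_of_nonneg_left e8 (abs_nonneg _)

theorem ratio {R S T : ℤ} (hR : 0 < R) (h : S ^ 2 + (-R) * T ^ 2 = 4)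
    (h1 : 1 / 2 < |((S : ℝ) - T * √(R : ℝ)) / 2|) (h2 : |((S : ℝ) - T * √(R : ℝ)) / 2| < 2) :
    T = 0 := by
  have e1 : (√(R : ℝ)) ^ 2 = R := Real.sq_sqrt (by exact_mod_cast hR.le)
  have e2 : (S : ℝ) ^ 2 + (-R) * (T : ℝ) ^ 2 = 4 := by exact_mod_cast h
  set u := ((S : ℝ) - T * √(R : ℝ)) / 2 with hu
  set v := ((S : ℝ) + T * √(R : ℝ)) / 2 with hv
  have huv : u * v = 1 := by rw [hu, hv]; nlinarith
  have hS : (S : ℝ) = u + v := by rw [hu, hv]; ring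
  have h3 : |u| * |v| = 1 := by rw [← abs_mul, huv, abs_one]
  have h4 : |(S : ℝ)| < 5 / 2 := by
    rw [hS]
    have h5 : |u + v| ≤ |u| + |v| := abs_add_le _ _
    have h6 : |u| + |v| < 5 / 2 := by
      by_contra h7
      push Not at h7
      have h8 : |u| * (5 / 2) ≤ |u| * (|u| + |v|) := mul_le_mul_of_nonneg_left h7 (abs_nonneg _)
      nlinarith
    linarith
  have h5 : |S| < 3 := by
    have : |(S : ℝ)| < 3 := by linarith
    exact_mod_cast this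
  have h6 : S ^ 2 ≤ 4 := by
    have h7 := abs_lt.1 h5
    nlinarith
  by_contra hT
  have h7 : 0 < T ^ 2 := by positivity
  nlinarith [mul_pos hR h7]

/-- the number of the solutions in one class, `r < 0` -/
theorem cls_neg {R N : ℤ} (hR : 0 < R) (hN0 : N ≠ 0) {B : ℝ} (hB : 1 ≤ B)
    (hN : |(N : ℝ)| ≤ B) (F : Finset (ℤ × ℤ))
    (hF : ∀ z ∈ F, |(z.1 : ℝ)| ≤ B ∧ z.1 ^ 2 + (-R) * z.2 ^ 2 = N)
    (hd : ∀ z ∈ F, ∀ w ∈ F, N ∣ 2 * (z.1 * w.2 - w.1 * z.2)) :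
    F.card ≤ 2 * (2 * ⌈Real.logb 2 (3 * B)⌉₊ + 2) := by
  classical
  set K := ⌈Real.logb 2 (3 * B)⌉₊ with hK
  let f : ℤ × ℤ → ℤ × Bool := fun z => (⌊Real.logb 2 |al R z|⌋, decide (0 < al R z))
  have hpos : ∀ z ∈ F, 0 < |al R z| := fun z hz =>
    lt_of_lt_of_le (by positivity) (al_bd hR (hF z hz).2 hB hN0 hN (hF z hz).1).1
  have hmap : ∀ z ∈ F, f z ∈ (Finset.Icc (-(K : ℤ) - 1) K) ×ˢ (Finset.univ : Finset Bool) := by
    intro z hz
    obtain ⟨b1, b2⟩ := al_bd hR (hF z hz).2 hB hN0 hN (hF z hz).1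
    have hl : Real.logb 2 (3 * B) ≤ K := Nat.le_ceil _
    have b3 : Real.logb 2 |al R z| ≤ K :=
      (Real.logb_le_logb_of_le (by norm_num) (hpos z hz) b2).trans hl
    have b4 : -(K : ℝ) ≤ Real.logb 2 |al R z| := by
      have := Real.logb_le_logb_of_le (b := 2) (by norm_num) (by positivity) b1
      rw [one_div, Real.logb_inv] at this
      linarith
    simp only [f, Finset.mem_product, Finset.mem_Icc, Finset.mem_univ, and_true]
    constructor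
    · rw [Int.le_floor]; push_cast; linarith
    · have := Int.floor_le_floor b3
      simpa using this
  have hinj : Set.InjOn f (F : Set (ℤ × ℤ)) := by
    intro z hz w hw hzw
    have hz' : z ∈ F := hz
    have hw' : w ∈ F := hw
    simp only [f, Prod.mk.injEq] at hzw
    obtain ⟨hfl, hsg⟩ := hzw
    obtain ⟨S, T, hST, hx, hy⟩ := key2 hN0 (hF z hz').2 (hF w hw').2 (hd z hz' w hw')
    have hrel : al R z = ((S : ℝ) - T * √(R : ℝ)) / 2 * al R w := by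
      have e1 : (√(R : ℝ)) ^ 2 = R := Real.sq_sqrt (by exact_mod_cast hR.le)
      have e2 : 2 * (z.1 : ℝ) = S * w.1 + (-R) * T * w.2 := by exact_mod_cast hx
      have e3 : 2 * (z.2 : ℝ) = S * w.2 - T * w.1 := by exact_mod_cast hy
      have e4 : al R z = (2 * (z.1 : ℝ) + 2 * (z.2 : ℝ) * √(R : ℝ)) / 2 := by unfold al; ring
      rw [e4, e2, e3]
      unfold al
      linear_combination (T * w.2 / 2 : ℝ) * e1
    have habs : |al R z| = |((S : ℝ) - T * √(R : ℝ)) / 2| * |al R w| := by rw [hrel, abs_mul]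
    have hz0 := hpos z hz'
    have hw0 := hpos w hw'
    have hu0 : 0 < |((S : ℝ) - T * √(R : ℝ)) / 2| := by
      rcases (abs_nonneg (((S : ℝ) - T * √(R : ℝ)) / 2)).lt_or_eq with h | h
      · exact h
      · rw [← h] at habs; linarith
    have hlog : Real.logb 2 |al R z| = Real.logb 2 |((S : ℝ) - T * √(R : ℝ)) / 2| +
        Real.logb 2 |al R w| := by
      rw [habs, Real.logb_mul hu0.ne' hw0.ne']
    have hf1 := Int.abs_sub_lt_one_of_floor_eq_floor hfl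
    rw [hlog, add_sub_cancel_right, abs_lt] at hf1
    have hT : T = 0 := by
      apply ratio hR hST
      · have := (Real.lt_logb_iff_rpow_lt (b := 2) (by norm_num) hu0).1 hf1.1
        rw [Real.rpow_neg_one] at this
        norm_num at this ⊢
        exact this
      · have := (Real.logb_lt_iff_lt_rpow (b := 2) (by norm_num) hu0).1 hf1.2
        rwa [Real.rpow_one] at this
    subst hT
    have hS2 : S ^ 2 = 4 := by linarith
    have hS : S = 2 ∨ S = -2 := by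
      have : (S - 2) * (S + 2) = 0 := by ring_nf; linarith
      rcases mul_eq_zero.1 this with h | h
      · left; linarith
      · right; linarith
    rcases hS with hS | hS
    · subst hS
      apply Prod.ext <;> linarith
    · exfalso
      subst hS
      have hneg : al R z = - al R w := by rw [hrel]; push_cast; ring
      have hne : al R w ≠ 0 := abs_pos.1 hw0
      rw [hneg] at hsg
      rcases lt_or_gt_of_ne hne with h | h
      · have h1 : 0 < -al R w := by linarith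
        have h2 : ¬ 0 < al R w := by linarith
        simp [h1, h2] at hsg
      · have h1 : ¬ 0 < -al R w := by linarith
        simp [h1, h] at hsg
  calc F.card ≤ ((Finset.Icc (-(K : ℤ) - 1) K) ×ˢ (Finset.univ : Finset Bool)).card :=
        Finset.card_le_card_of_injOn f hmap hinj
    _ = (2 * K + 2) * 2 := by
        rw [Finset.card_product, Int.card_Icc]
        simp
        omega
    _ = _ := by ring

/-- the number of the solutions in one class, `r > 0` -/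
theorem cls_pos {r N : ℤ} (hr : 0 < r) (hN0 : N ≠ 0) (F : Finset (ℤ × ℤ))
    (hF : ∀ z ∈ F, z.1 ^ 2 + r * z.2 ^ 2 = N)
    (hd : ∀ z ∈ F, ∀ w ∈ F, N ∣ 2 * (z.1 * w.2 - w.1 * z.2)) :
    F.card ≤ 25 := by
  classical
  rcases F.eq_empty_or_nonempty with h | ⟨w, hw⟩
  · simp [h]
  have hsub : F ⊆ ((Finset.Icc (-2 : ℤ) 2) ×ˢ (Finset.Icc (-2 : ℤ) 2)).image
      (fun p : ℤ × ℤ => ((p.1 * w.1 + r * p.2 * w.2) / 2, (p.1 * w.2 - p.2 * w.1) / 2)) := by
    intro z hz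
    obtain ⟨S, T, hST, hx, hy⟩ := key2 hN0 (hF z hz) (hF w hw) (hd z hz w hw)
    rw [Finset.mem_image]
    refine ⟨(S, T), ?_, ?_⟩
    · have h1 : T ^ 2 ≤ r * T ^ 2 := by nlinarith [sq_nonneg T]
      have h2 : S ^ 2 ≤ 4 := by nlinarith [sq_nonneg T]
      have h3 : T ^ 2 ≤ 4 := by nlinarith [sq_nonneg S]
      rw [Finset.mem_product, Finset.mem_Icc, Finset.mem_Icc]
      refine ⟨⟨?_, ?_⟩, ?_, ?_⟩ <;> simp only <;> nlinarith
    · simp only
      rw [← hx, ← hy]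
      apply Prod.ext <;> simp
  calc F.card ≤ _ := Finset.card_le_card hsub
    _ ≤ ((Finset.Icc (-2 : ℤ) 2) ×ˢ (Finset.Icc (-2 : ℤ) 2)).card := Finset.card_image_le
    _ = 25 := by simp

/-- the bound for one class -/
noncomputable def Mb (B : ℝ) : ℕ := 2 * (2 * ⌈Real.logb 2 (3 * B)⌉₊ + 2) + 25

theorem cls {r N : ℤ} (hr : r ≠ 0) (hN0 : N ≠ 0) {B : ℝ} (hB : 1 ≤ B)
    (hN : |(N : ℝ)| ≤ B) (F : Finset (ℤ × ℤ))
    (hF : ∀ z ∈ F, |(z.1 : ℝ)| ≤ B ∧ z.1 ^ 2 + r * z.2 ^ 2 = N)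
    (hd : ∀ z ∈ F, ∀ w ∈ F, N ∣ 2 * (z.1 * w.2 - w.1 * z.2)) :
    F.card ≤ Mb B := by
  unfold Mb
  rcases lt_or_gt_of_ne hr with h | h
  · have := cls_neg (R := -r) (by linarith) hN0 hB hN F (by simpa using hF) hd
    omega
  · have := cls_pos h hN0 F (fun z hz => (hF z hz).2) hd
    omega

/-- coprime solutions, no prime `p ∣ N` with `p² ∣ r` -/
theorem cop1 {r N : ℤ} (hr : r ≠ 0) (hN0 : N ≠ 0)
    (hp : ∀ p : ℕ, p.Prime → (p : ℤ) ∣ N → ¬ (p : ℤ) ^ 2 ∣ r) {B : ℝ} (hB : 1 ≤ B)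
    (hN : |(N : ℝ)| ≤ B) (F : Finset (ℤ × ℤ))
    (hF : ∀ z ∈ F, |(z.1 : ℝ)| ≤ B ∧ z.1 ^ 2 + r * z.2 ^ 2 = N ∧ IsCoprime z.1 z.2) :
    F.card ≤ Mb B * N.natAbs.divisors.card ^ 2 := by
  classical
  rcases F.eq_empty_or_nonempty with h | ⟨z0, hz0⟩
  · simp [h]
  let f : ℤ × ℤ → ℕ × ℕ := fun z =>
    (Int.gcd (z.1 * z0.2 - z0.1 * z.2) N, Int.gcd (z.1 * z0.2 + z0.1 * z.2) N)
  have hmap : ∀ z ∈ F, f z ∈ N.natAbs.divisors ×ˢ N.natAbs.divisors := by
    intro z _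
    have h0 : N.natAbs ≠ 0 := Int.natAbs_ne_zero.2 hN0
    simp only [f, Finset.mem_product, Nat.mem_divisors]
    exact ⟨⟨Nat.gcd_dvd_right _ _, h0⟩, Nat.gcd_dvd_right _ _, h0⟩
  have hfib : ∀ b ∈ N.natAbs.divisors ×ˢ N.natAbs.divisors,
      (F.filter fun z => f z = b).card ≤ Mb B := by
    intro b _
    apply cls hr hN0 hB hN
    · intro z hz
      have h1 := hF z (Finset.mem_filter.1 hz).1
      exact ⟨h1.1, h1.2.1⟩
    · intro z hz w hw
      obtain ⟨hz1, hz2⟩ := Finset.mem_filter.1 hz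
      obtain ⟨hw1, hw2⟩ := Finset.mem_filter.1 hw
      have he : f z = f w := by rw [hz2, hw2]
      simp only [f, Prod.mk.injEq] at he
      exact key hN0 hp (hF z0 hz0).2.1 (hF z hz1).2.1 (hF w hw1).2.1 (hF z0 hz0).2.2
        (hF z hz1).2.2 he.1 he.2
  have := Finset.card_le_mul_card_image_of_maps_to hmap (Mb B) hfib
  rw [Finset.card_product] at this
  rw [sq]
  exact this

/-- coprime solutions -/
theorem cop2 {B : ℝ} (hB : 1 ≤ B) (n : ℕ) : ∀ {r N : ℤ}, N.natAbs = n → r ≠ 0 → N ≠ 0 →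
    |(N : ℝ)| ≤ B → ∀ F : Finset (ℤ × ℤ),
    (∀ z ∈ F, |(z.1 : ℝ)| ≤ B ∧ z.1 ^ 2 + r * z.2 ^ 2 = N ∧ IsCoprime z.1 z.2) →
    F.card ≤ Mb B * N.natAbs.divisors.card ^ 2 := by
  classical
  induction n using Nat.strong_induction_on with
  | _ n ih =>
    intro r N hn hr hN0 hN F hF
    by_cases hp : ∀ p : ℕ, p.Prime → (p : ℤ) ∣ N → ¬ (p : ℤ) ^ 2 ∣ r
    · exact cop1 hr hN0 hp hB hN F hF
    push Not at hp
    obtain ⟨p, hp, hpN, r', hr'⟩ := hp
    rcases F.eq_empty_or_nonempty with h | ⟨z0, hz0⟩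
    · simp [h]
    have hp0 : (p : ℤ) ≠ 0 := by exact_mod_cast hp.ne_zero
    have hpx : ∀ z ∈ F, (p : ℤ) ∣ z.1 := by
      intro z hz
      have h1 : (p : ℤ) ∣ z.1 ^ 2 := by
        have e : z.1 ^ 2 = N - r * z.2 ^ 2 := by rw [← (hF z hz).2.1]; ring
        rw [e, hr']
        exact hpN.sub (((dvd_pow_self _ two_ne_zero).mul_right _).mul_right _)
      exact (Nat.prime_iff_prime_int.1 hp).dvd_of_dvd_pow h1
    have hN2 : (p : ℤ) ^ 2 ∣ N := by
      rw [← (hF z0 hz0).2.1, hr']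
      exact (pow_dvd_pow_of_dvd (hpx z0 hz0) 2).add ((dvd_mul_right _ _).mul_right _)
    obtain ⟨N', hN'⟩ := hN2
    have hN'0 : N' ≠ 0 := by rintro rfl; exact hN0 (by rw [hN']; ring)
    have hr'0 : r' ≠ 0 := by rintro rfl; exact hr (by rw [hr']; ring)
    have hN'n : N.natAbs = p ^ 2 * N'.natAbs := by
      rw [hN', Int.natAbs_mul, Int.natAbs_pow, Int.natAbs_natCast]
    have hN'pos : 0 < N'.natAbs := Int.natAbs_pos.2 hN'0
    have hlt : N'.natAbs < n := by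
      rw [← hn, hN'n]
      have h2 := hp.two_le
      have h3 : 2 ^ 2 ≤ p ^ 2 := Nat.pow_le_pow_left h2 2
      have h4 : 2 ^ 2 * N'.natAbs ≤ p ^ 2 * N'.natAbs := Nat.mul_le_mul_right _ h3
      omega
    have hN'B : |(N' : ℝ)| ≤ B := by
      refine le_trans ?_ hN
      have h3 : (N'.natAbs : ℝ) ≤ (N.natAbs : ℝ) := by
        have : N'.natAbs ≤ N.natAbs := by omega
        exact_mod_cast this
      rw [Nat.cast_natAbs, Nat.cast_natAbs] at h3
      push_cast at h3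
      exact h3
    let g : ℤ × ℤ → ℤ × ℤ := fun z => (z.1 / p, z.2)
    have hg : ∀ z ∈ F, z.1 = p * (g z).1 := fun z hz => (Int.mul_ediv_cancel' (hpx z hz)).symm
    have hinj : Set.InjOn g (F : Set (ℤ × ℤ)) := by
      intro z hz w hw hzw
      have h1 := hg z hz
      have h2 := hg w hw
      rw [hzw] at h1
      have h3 : (g z).2 = (g w).2 := congrArg Prod.snd hzw
      exact Prod.ext (h1.trans h2.symm) h3
    have hmain := ih _ hlt (r := r') (N := N') rfl hr'0 hN'0 hN'B (F.image g) (by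
      intro y hy
      obtain ⟨z, hz, rfl⟩ := Finset.mem_image.1 hy
      obtain ⟨h1, h2, h3⟩ := hF z hz
      have h4 := hg z hz
      refine ⟨?_, ?_, ?_⟩
      · have h5 : (z.1 : ℝ) = p * ((g z).1 : ℝ) := by exact_mod_cast h4
        rw [h5, abs_mul] at h1
        refine le_trans ?_ h1
        have h6 : (1 : ℝ) ≤ |(p : ℝ)| := by
          rw [Nat.abs_cast]; exact_mod_cast hp.one_le
        nlinarith [abs_nonneg ((g z).1 : ℝ)]
      · have h5 : (p : ℤ) ^ 2 * ((g z).1 ^ 2 + r' * (g z).2 ^ 2) = p ^ 2 * N' := by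
          rw [← hN', ← h2, h4, hr']
          simp only [g]
          ring
        exact mul_left_cancel₀ (pow_ne_zero 2 hp0) h5
      · rw [h4] at h3
        exact h3.of_mul_left_right)
    rw [Finset.card_image_of_injOn hinj] at hmain
    refine hmain.trans ?_
    have hdv : N'.natAbs.divisors.card ≤ N.natAbs.divisors.card :=
      Finset.card_le_card (Nat.divisors_subset_of_dvd (Int.natAbs_ne_zero.2 hN0)
        (hN'n ▸ dvd_mul_left _ _))
    gcongr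

theorem all {r N : ℤ} (hr : r ≠ 0) (hN0 : N ≠ 0) {B : ℝ} (hB : 1 ≤ B)
    (hN : |(N : ℝ)| ≤ B) (F : Finset (ℤ × ℤ))
    (hF : ∀ z ∈ F, |(z.1 : ℝ)| ≤ B ∧ z.1 ^ 2 + r * z.2 ^ 2 = N) :
    F.card ≤ Mb B * N.natAbs.divisors.card ^ 3 := by
  classical
  have h0 : N.natAbs ≠ 0 := Int.natAbs_ne_zero.2 hN0
  have hmap : ∀ z ∈ F, Int.gcd z.1 z.2 ∈ N.natAbs.divisors := by
    intro z hz
    rw [Nat.mem_divisors]
    refine ⟨?_, h0⟩
    rw [← Int.natCast_dvd, ← (hF z hz).2]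
    exact ((Int.gcd_dvd_left ..).trans (dvd_pow_self _ two_ne_zero)).add
      (((Int.gcd_dvd_right ..).trans (dvd_pow_self _ two_ne_zero)).mul_left _)
  have hfib : ∀ b ∈ N.natAbs.divisors,
      (F.filter fun z => Int.gcd z.1 z.2 = b).card ≤ Mb B * N.natAbs.divisors.card ^ 2 := by
    intro b hb
    set Fb := F.filter fun z => Int.gcd z.1 z.2 = b with hFb
    rcases Fb.eq_empty_or_nonempty with h | ⟨z0, hz0⟩
    · simp [h]
    have hb0 : b ≠ 0 := by rintro rfl; simp at hb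
    have hbZ : (b : ℤ) ≠ 0 := by exact_mod_cast hb0
    have hmem : ∀ z ∈ Fb, (|(z.1 : ℝ)| ≤ B ∧ z.1 ^ 2 + r * z.2 ^ 2 = N) ∧ Int.gcd z.1 z.2 = b := by
      intro z hz
      obtain ⟨h1, h2⟩ := Finset.mem_filter.1 hz
      exact ⟨hF z h1, h2⟩
    let g : ℤ × ℤ → ℤ × ℤ := fun z => (z.1 / b, z.2 / b)
    have hg1 : ∀ z ∈ Fb, z.1 = b * (g z).1 := by
      intro z hz
      have h1 : (b : ℤ) ∣ z.1 := by rw [← (hmem z hz).2]; exact Int.gcd_dvd_left ..
      exact (Int.mul_ediv_cancel' h1).symm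
    have hg2 : ∀ z ∈ Fb, z.2 = b * (g z).2 := by
      intro z hz
      have h1 : (b : ℤ) ∣ z.2 := by rw [← (hmem z hz).2]; exact Int.gcd_dvd_right ..
      exact (Int.mul_ediv_cancel' h1).symm
    have hinj : Set.InjOn g (Fb : Set (ℤ × ℤ)) := by
      intro z hz w hw hzw
      have h1 := hg1 z hz
      have h2 := hg1 w hw
      have h3 := hg2 z hz
      have h4 := hg2 w hw
      rw [hzw] at h1 h3
      exact Prod.ext (h1.trans h2.symm) (h3.trans h4.symm)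
    have heq : ∀ z ∈ Fb, N = (b : ℤ) ^ 2 * ((g z).1 ^ 2 + r * (g z).2 ^ 2) := by
      intro z hz
      rw [← (hmem z hz).1.2]
      conv_lhs => rw [hg1 z hz, hg2 z hz]
      ring
    set N' := (g z0).1 ^ 2 + r * (g z0).2 ^ 2 with hN'
    have hNN' : N = (b : ℤ) ^ 2 * N' := heq z0 hz0
    have hN'0 : N' ≠ 0 := by intro h; exact hN0 (by rw [hNN', h]; ring)
    have hN'n : N.natAbs = b ^ 2 * N'.natAbs := by
      rw [hNN', Int.natAbs_mul, Int.natAbs_pow, Int.natAbs_natCast]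
    have hN'B : |(N' : ℝ)| ≤ B := by
      refine le_trans ?_ hN
      have h3 : (N'.natAbs : ℝ) ≤ (N.natAbs : ℝ) := by
        have : N'.natAbs ≤ N.natAbs := by
          rw [hN'n]
          exact Nat.le_mul_of_pos_left _ (by positivity)
        exact_mod_cast this
      rw [Nat.cast_natAbs, Nat.cast_natAbs] at h3
      push_cast at h3
      exact h3
    have hmain := cop2 hB _ (r := r) (N := N') rfl hr hN'0 hN'B (Fb.image g) (by
      intro y hy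
      obtain ⟨z, hz, rfl⟩ := Finset.mem_image.1 hy
      have h4 := hg1 z hz
      refine ⟨?_, ?_, ?_⟩
      · have h1 := (hmem z hz).1.1
        have h5 : (z.1 : ℝ) = b * ((g z).1 : ℝ) := by exact_mod_cast h4
        rw [h5, abs_mul] at h1
        refine le_trans ?_ h1
        have h6 : (1 : ℝ) ≤ |(b : ℝ)| := by
          rw [Nat.abs_cast]; exact_mod_cast Nat.one_le_iff_ne_zero.2 hb0
        nlinarith [abs_nonneg ((g z).1 : ℝ)]
      · have h5 : (b : ℤ) ^ 2 * ((g z).1 ^ 2 + r * (g z).2 ^ 2) = b ^ 2 * N' := by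
          rw [← heq z hz, ← hNN']
        exact mul_left_cancel₀ (pow_ne_zero 2 hbZ) h5
      · rw [Int.isCoprime_iff_gcd_eq_one]
        have h1 := (hmem z hz).2
        rw [h4, hg2 z hz, Int.gcd_mul_left, Int.natAbs_natCast] at h1
        exact Nat.eq_of_mul_eq_mul_left (Nat.pos_of_ne_zero hb0) (by rw [h1, mul_one]))
    rw [Finset.card_image_of_injOn hinj] at hmain
    refine hmain.trans ?_
    have hdv : N'.natAbs.divisors.card ≤ N.natAbs.divisors.card :=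
      Finset.card_le_card (Nat.divisors_subset_of_dvd h0 (hN'n ▸ dvd_mul_left _ _))
    gcongr
  have := Finset.card_le_mul_card_image_of_maps_to hmap _ hfib
  calc F.card ≤ _ := this
    _ = _ := by ring

theorem conic : S_CONIC := by
  intro ε hε
  obtain ⟨C1, hC1, h1⟩ := Pool.Agent.H510R2.divisor_bound (ε / 4) (by positivity)
  refine ⟨(4 * (3 ^ (ε / 4) / (ε / 4) / Real.log 2) + 33) * C1 ^ 3, by
    have := Real.log_pos (show (1 : ℝ) < 2 by norm_num)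
    positivity, ?_⟩
  intro r N B hr hN0 hB hN F hF
  have hl2 : 0 < Real.log 2 := Real.log_pos (by norm_num)
  have hB0 : 0 < B := by linarith
  have h2 := all hr hN0 hB hN F (fun z hz => ⟨(hF z hz).1, (hF z hz).2.2⟩)
  have h3 : (F.card : ℝ) ≤ Mb B * (N.natAbs.divisors.card : ℝ) ^ 3 := by exact_mod_cast h2
  have hx : 1 ≤ B ^ (ε / 4) := Real.one_le_rpow hB (by positivity)
  have h4 : (N.natAbs.divisors.card : ℝ) ≤ C1 * B ^ (ε / 4) := by
    refine (h1 _ (Int.natAbs_pos.2 hN0)).trans ?_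
    have h5 : ((N.natAbs : ℕ) : ℝ) ≤ B := by
      rw [Nat.cast_natAbs]; push_cast; exact hN
    have h6 : ((N.natAbs : ℕ) : ℝ) ^ (ε / 4) ≤ B ^ (ε / 4) :=
      Real.rpow_le_rpow (Nat.cast_nonneg _) h5 (by positivity)
    exact mul_le_mul_of_nonneg_left h6 hC1.le
  have h7 : (Mb B : ℝ) ≤ (4 * (3 ^ (ε / 4) / (ε / 4) / Real.log 2) + 33) * B ^ (ε / 4) := by
    unfold Mb
    have h8 : 0 ≤ Real.logb 2 (3 * B) := Real.logb_nonneg (by norm_num) (by linarith)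
    have h9 := Nat.ceil_lt_add_one h8
    have h10 : Real.logb 2 (3 * B) ≤ 3 ^ (ε / 4) / (ε / 4) / Real.log 2 * B ^ (ε / 4) := by
      unfold Real.logb
      have h11 : Real.log (3 * B) ≤ (3 * B) ^ (ε / 4) / (ε / 4) :=
        Real.log_le_rpow_div (by linarith) (by positivity)
      rw [Real.mul_rpow (by norm_num) hB0.le] at h11
      calc Real.log (3 * B) / Real.log 2 ≤ 3 ^ (ε / 4) * B ^ (ε / 4) / (ε / 4) / Real.log 2 := by
            gcongr
        _ = _ := by ring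
    push_cast
    nlinarith
  calc (F.card : ℝ) ≤ Mb B * (N.natAbs.divisors.card : ℝ) ^ 3 := h3
    _ ≤ ((4 * (3 ^ (ε / 4) / (ε / 4) / Real.log 2) + 33) * B ^ (ε / 4)) *
        (C1 * B ^ (ε / 4)) ^ 3 := by
        gcongr
    _ = (4 * (3 ^ (ε / 4) / (ε / 4) / Real.log 2) + 33) * C1 ^ 3 * (B ^ (ε / 4)) ^ 4 := by ring
    _ = _ := by
        rw [← Real.rpow_mul_natCast hB0.le]
        congr 2
        push_cast
        ring

end Pool.Agent.N56.SZ
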