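import Pool.Agent.N906.SZ.Stm

/-!
# SZ/LOWQ: many curves with given local types
-/

set_option autoImplicit false

namespace Pool.Agent.N56.SZ

open Finset Pool.Agent.N906.SZ

namespace LQ

/-- the integers of absolute value at most `Y` -/
noncomputable def Bx (Y : ℝ) : Finset ℤ := Finset.Ioc (-⌊Y⌋ - 1) ⌊Y⌋

theorem mem_Bx {Y : ℝ} {a : ℤ} : a ∈ Bx Y ↔ |(a : ℝ)| ≤ Y := by
  unfold Bx
  rw [Finset.mem_Ioc, abs_le, Int.le_floor]
  constructor
  · rintro ⟨h1, h2⟩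
    refine ⟨?_, h2⟩
    have h3 : -a ≤ ⌊Y⌋ := by omega
    rw [Int.le_floor] at h3
    push_cast at h3
    linarith
  · rintro ⟨h1, h2⟩
    refine ⟨?_, h2⟩
    have h3 : -a ≤ ⌊Y⌋ := by rw [Int.le_floor]; push_cast; linarith
    omega

theorem cnt_up {Y : ℝ} (hY : 1 ≤ Y) {M : ℕ} (hM : 1 ≤ M) (hMY : (M : ℝ) ≤ Y) (v : ℤ) :
    (((Bx Y).filter fun a => a ≡ v [ZMOD M]).card : ℝ) ≤ 4 * Y / M := by
  have hM0 : (0 : ℤ) < M := by exact_mod_cast hM
  have hMr : (0 : ℝ) < M := by exact_mod_cast hM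
  have h := Int.Ioc_filter_modEq_card (-⌊Y⌋ - 1) ⌊Y⌋ hM0 v
  have h1 : (((Bx Y).filter fun a => a ≡ v [ZMOD M]).card : ℤ) =
    max (⌊((⌊Y⌋ : ℚ) - v) / ((M : ℤ) : ℚ)⌋ - ⌊(((-⌊Y⌋ - 1 : ℤ) : ℚ) - v) / ((M : ℤ) : ℚ)⌋) 0 := h
  have hMq : (0 : ℚ) < M := by exact_mod_cast hM
  have h2 : ((⌊((⌊Y⌋ : ℚ) - v) / ((M : ℤ) : ℚ)⌋ - ⌊(((-⌊Y⌋ - 1 : ℤ) : ℚ) - v) / ((M : ℤ) : ℚ)⌋ : ℤ) : ℚ) ≤
      (2 * ⌊Y⌋ + 1) / M + 1 := by
    have h3 := Int.floor_le (((⌊Y⌋ : ℚ) - v) / ((M : ℤ) : ℚ))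
    have h4 := Int.lt_floor_add_one ((((-⌊Y⌋ - 1 : ℤ) : ℚ) - v) / ((M : ℤ) : ℚ))
    push_cast at h3 h4 ⊢
    have h5 : (2 * (⌊Y⌋ : ℚ) + 1) / M = ((⌊Y⌋ : ℚ) - v) / M - (-(⌊Y⌋ : ℚ) - 1 - v) / M := by
      field_simp; ring
    rw [h5]
    linarith
  have h2' : ((⌊((⌊Y⌋ : ℚ) - v) / ((M : ℤ) : ℚ)⌋ - ⌊(((-⌊Y⌋ - 1 : ℤ) : ℚ) - v) / ((M : ℤ) : ℚ)⌋ : ℤ) : ℝ) ≤
      (2 * ⌊Y⌋ + 1) / M + 1 := by exact_mod_cast h2
  have h6 : (⌊Y⌋ : ℝ) ≤ Y := Int.floor_le Y
  have h7 : (2 * (⌊Y⌋ : ℝ) + 1) / M + 1 ≤ 4 * Y / M := by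
    rw [div_add_one hMr.ne']
    gcongr
    linarith
  have h8 : (((Bx Y).filter fun a => a ≡ v [ZMOD M]).card : ℝ) =
    ((max (⌊((⌊Y⌋ : ℚ) - v) / ((M : ℤ) : ℚ)⌋ - ⌊(((-⌊Y⌋ - 1 : ℤ) : ℚ) - v) / ((M : ℤ) : ℚ)⌋) 0 : ℤ) : ℝ) := by
    exact_mod_cast h1
  rw [h8, Int.cast_max, max_le_iff]
  exact ⟨h2'.trans h7, by push_cast; positivity⟩

theorem cnt_lo {Y : ℝ} {M : ℕ} (hM : 1 ≤ M) (v : ℤ) :
    (2 * Y - 1) / M - 1 ≤ (((Bx Y).filter fun a => a ≡ v [ZMOD M]).card : ℝ) := by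
  have hM0 : (0 : ℤ) < M := by exact_mod_cast hM
  have hMr : (0 : ℝ) < M := by exact_mod_cast hM
  have h := Int.Ioc_filter_modEq_card (-⌊Y⌋ - 1) ⌊Y⌋ hM0 v
  have h1 : (((Bx Y).filter fun a => a ≡ v [ZMOD M]).card : ℤ) =
    max (⌊((⌊Y⌋ : ℚ) - v) / ((M : ℤ) : ℚ)⌋ - ⌊(((-⌊Y⌋ - 1 : ℤ) : ℚ) - v) / ((M : ℤ) : ℚ)⌋) 0 := h
  have hMq : (0 : ℚ) < M := by exact_mod_cast hM
  have h2 : (2 * (⌊Y⌋ : ℚ) + 1) / M - 1 ≤
    ((⌊((⌊Y⌋ : ℚ) - v) / ((M : ℤ) : ℚ)⌋ - ⌊(((-⌊Y⌋ - 1 : ℤ) : ℚ) - v) / ((M : ℤ) : ℚ)⌋ : ℤ) : ℚ) := by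
    have h3 := Int.lt_floor_add_one (((⌊Y⌋ : ℚ) - v) / ((M : ℤ) : ℚ))
    have h4 := Int.floor_le ((((-⌊Y⌋ - 1 : ℤ) : ℚ) - v) / ((M : ℤ) : ℚ))
    push_cast at h3 h4 ⊢
    have h5 : (2 * (⌊Y⌋ : ℚ) + 1) / M = ((⌊Y⌋ : ℚ) - v) / M - (-(⌊Y⌋ : ℚ) - 1 - v) / M := by
      field_simp; ring
    rw [h5]
    linarith
  have h2' : (2 * (⌊Y⌋ : ℝ) + 1) / M - 1 ≤
    ((⌊((⌊Y⌋ : ℚ) - v) / ((M : ℤ) : ℚ)⌋ - ⌊(((-⌊Y⌋ - 1 : ℤ) : ℚ) - v) / ((M : ℤ) : ℚ)⌋ : ℤ) : ℝ) := by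
    exact_mod_cast h2
  have h6 : Y < ⌊Y⌋ + 1 := Int.lt_floor_add_one Y
  have h7 : (2 * Y - 1) / M - 1 ≤ (2 * (⌊Y⌋ : ℝ) + 1) / M - 1 := by
    gcongr
    linarith
  have h8 : (((Bx Y).filter fun a => a ≡ v [ZMOD M]).card : ℝ) =
    ((max (⌊((⌊Y⌋ : ℚ) - v) / ((M : ℤ) : ℚ)⌋ - ⌊(((-⌊Y⌋ - 1 : ℤ) : ℚ) - v) / ((M : ℤ) : ℚ)⌋) 0 : ℤ) : ℝ) := by
    exact_mod_cast h1
  rw [h8, Int.cast_max]
  exact (h7.trans h2').trans (le_max_left _ _)

/-- the parametrisation of the cuspidal cubic modulo `M` -/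
theorem par {M : ℕ} (hM : M.Coprime 6) {a b : ℤ} (ha : IsCoprime a M) (hD : (M : ℤ) ∣ Dd a b) :
    ∃ t : (ZMod M)ˣ, (a : ZMod M) = 3 * (t : ZMod M) ^ 2 ∧ (b : ZMod M) = 2 * (t : ZMod M) ^ 3 := by
  have h2 : IsUnit ((2 : ℕ) : ZMod M) := by
    rw [ZMod.isUnit_iff_coprime]
    exact (Nat.Coprime.coprime_dvd_right (by norm_num) hM).symm
  have h3 : IsUnit ((3 : ℕ) : ZMod M) := by
    rw [ZMod.isUnit_iff_coprime]
    exact (Nat.Coprime.coprime_dvd_right (by norm_num) hM).symm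
  have ha' : IsUnit (a : ZMod M) := by
    obtain ⟨u, v, huv⟩ := ha
    have h4 : ((u * a + v * M : ℤ) : ZMod M) = 1 := by rw [huv]; simp
    push_cast at h4
    rw [ZMod.natCast_self, mul_zero, add_zero] at h4
    exact IsUnit.of_mul_eq_one _ (by rw [mul_comm]; exact h4)
  have hD' : 4 * (a : ZMod M) ^ 3 = 27 * (b : ZMod M) ^ 2 := by
    have h4 : ((Dd a b : ℤ) : ZMod M) = 0 := (ZMod.intCast_zmod_eq_zero_iff_dvd _ _).2 hD
    unfold Dd at h4
    push_cast at h4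
    exact sub_eq_zero.1 h4
  obtain ⟨A, hA⟩ := ha'
  obtain ⟨T2, hT2⟩ := h2
  obtain ⟨T3, hT3⟩ := h3
  push_cast at hT2 hT3
  set β : ZMod M := (b : ZMod M) with hβ
  set i2 : ZMod M := ((T2⁻¹ : (ZMod M)ˣ) : ZMod M) with hi2
  set i3 : ZMod M := ((T3⁻¹ : (ZMod M)ˣ) : ZMod M) with hi3
  set iA : ZMod M := ((A⁻¹ : (ZMod M)ˣ) : ZMod M) with hiA
  have e2 : 2 * i2 = 1 := by rw [← hT2]; exact T2.mul_inv
  have e3 : 3 * i3 = 1 := by rw [← hT3]; exact T3.mul_inv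
  have eA : (a : ZMod M) * iA = 1 := by rw [← hA]; exact A.mul_inv
  set α : ZMod M := (a : ZMod M) with hα
  -- t = 3 b / (2 a)
  set t := 3 * β * i2 * iA with ht
  have h5 : t ^ 2 = α * i3 := by
    have h6 : t ^ 2 = (3 * i3) * (9 * β ^ 2 * i2 ^ 2 * iA ^ 2) := by rw [e3, ht]; ring
    rw [h6]
    have h7 : 3 * i3 * (9 * β ^ 2 * i2 ^ 2 * iA ^ 2) = i3 * i2 ^ 2 * iA ^ 2 * (27 * β ^ 2) := by ring
    rw [h7, ← hD']
    have h8 : i3 * i2 ^ 2 * iA ^ 2 * (4 * α ^ 3) = (2 * i2) ^ 2 * (α * iA) ^ 2 * (α * i3) := by ring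
    rw [h8, e2, eA]
    ring
  have h9 : 3 * t ^ 2 = α := by
    rw [h5]
    calc 3 * (α * i3) = (3 * i3) * α := by ring
      _ = α := by rw [e3, one_mul]
  have h10 : 2 * t ^ 3 = β := by
    calc 2 * t ^ 3 = 2 * t * t ^ 2 := by ring
      _ = (2 * i2) * (3 * i3) * (α * iA) * β := by rw [h5, ht]; ring
      _ = β := by rw [e2, e3, eA]; ring
  have hu : IsUnit t := by
    have h11 : t * (3 * t * iA) = 1 := by
      calc t * (3 * t * iA) = (3 * t ^ 2) * iA := by ring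
        _ = 1 := by rw [h9, eA]
    exact IsUnit.of_mul_eq_one _ h11
  obtain ⟨U, hU⟩ := hu
  exact ⟨U, by rw [hU, h9], by rw [hU, h10]⟩

/-- upper bound for the number of the pairs with parameters modulo `M` -/
theorem up {M M1 M2 : ℕ} (hM : M.Coprime 6) (hM0 : 1 ≤ M) (hM1 : 1 ≤ M1) (hM2 : 1 ≤ M2)
    {Y1 Y2 : ℝ} (hY1 : (M1 : ℝ) ≤ Y1) (hY2 : (M2 : ℝ) ≤ Y2) (S : Finset (ℤ × ℤ))
    (hS : ∀ x ∈ S, |(x.1 : ℝ)| ≤ Y1 ∧ |(x.2 : ℝ)| ≤ Y2 ∧ IsCoprime x.1 M ∧ (M : ℤ) ∣ Dd x.1 x.2)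
    (h1 : ∀ x ∈ S, ∀ y ∈ S, x.1 ≡ y.1 [ZMOD M] → x.1 ≡ y.1 [ZMOD M1])
    (h2 : ∀ x ∈ S, ∀ y ∈ S, x.2 ≡ y.2 [ZMOD M] → x.2 ≡ y.2 [ZMOD M2]) :
    (S.card : ℝ) ≤ M.totient * (16 * (Y1 * Y2) / (M1 * M2)) := by
  classical
  have : NeZero M := ⟨by omega⟩
  have hM1' : (1 : ℝ) ≤ M1 := by exact_mod_cast hM1
  have hM2' : (1 : ℝ) ≤ M2 := by exact_mod_cast hM2
  let f : ℤ × ℤ → (ZMod M)ˣ := fun x => if h : ∃ t : (ZMod M)ˣ, (x.1 : ZMod M) = 3 * (t : ZMod M) ^ 2 ∧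
    (x.2 : ZMod M) = 2 * (t : ZMod M) ^ 3 then h.choose else 1
  have hf : ∀ x ∈ S, (x.1 : ZMod M) = 3 * (f x : ZMod M) ^ 2 ∧
    (x.2 : ZMod M) = 2 * (f x : ZMod M) ^ 3 := by
    intro x hx
    have h := par hM (hS x hx).2.2.1 (hS x hx).2.2.2
    simp only [f, dif_pos h]
    exact h.choose_spec
  have hfib : ∀ t : (ZMod M)ˣ, ((S.filter fun x => f x = t).card : ℝ) ≤ 16 * (Y1 * Y2) / (M1 * M2) := by
    intro t
    set St := S.filter fun x => f x = t with hSt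
    rcases St.eq_empty_or_nonempty with h | ⟨x0, hx0⟩
    · rw [h]; simp only [Finset.card_empty, Nat.cast_zero]
      have : 0 ≤ Y1 := by linarith
      have : 0 ≤ Y2 := by linarith
      positivity
    obtain ⟨hx0S, hx0t⟩ := Finset.mem_filter.1 hx0
    have hsub : St ⊆ ((Bx Y1).filter fun a => a ≡ x0.1 [ZMOD M1]) ×ˢ
        ((Bx Y2).filter fun a => a ≡ x0.2 [ZMOD M2]) := by
      intro x hx
      obtain ⟨hxS, hxt⟩ := Finset.mem_filter.1 hx
      have e1 : (x.1 : ZMod M) = (x0.1 : ZMod M) := by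
        rw [(hf x hxS).1, (hf x0 hx0S).1, hxt, hx0t]
      have e2 : (x.2 : ZMod M) = (x0.2 : ZMod M) := by
        rw [(hf x hxS).2, (hf x0 hx0S).2, hxt, hx0t]
      rw [Finset.mem_product, Finset.mem_filter, Finset.mem_filter, mem_Bx, mem_Bx]
      exact ⟨⟨(hS x hxS).1, h1 x hxS x0 hx0S ((ZMod.intCast_eq_intCast_iff _ _ _).1 e1)⟩,
        (hS x hxS).2.1, h2 x hxS x0 hx0S ((ZMod.intCast_eq_intCast_iff _ _ _).1 e2)⟩
    have hc := Finset.card_le_card hsub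
    rw [Finset.card_product] at hc
    have hc' : (St.card : ℝ) ≤ (((Bx Y1).filter fun a => a ≡ x0.1 [ZMOD M1]).card : ℝ) *
        (((Bx Y2).filter fun a => a ≡ x0.2 [ZMOD M2]).card : ℝ) := by exact_mod_cast hc
    refine hc'.trans ?_
    calc _ ≤ (4 * Y1 / M1) * (4 * Y2 / M2) := by
          apply mul_le_mul (cnt_up (by linarith) hM1 hY1 _) (cnt_up (by linarith) hM2 hY2 _)
            (Nat.cast_nonneg _)
          have : 0 ≤ Y1 := by linarith
          positivity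
      _ = _ := by field_simp; ring
  have hsum : (S.card : ℝ) = ∑ t : (ZMod M)ˣ, ((S.filter fun x => f x = t).card : ℝ) := by
    exact_mod_cast Finset.card_eq_sum_card_fiberwise (f := f) (s := S) (t := Finset.univ)
      (fun x _ => Finset.mem_coe.2 (Finset.mem_univ _))
  rw [hsum]
  calc _ ≤ ∑ t : (ZMod M)ˣ, 16 * (Y1 * Y2) / (M1 * M2) := Finset.sum_le_sum fun t _ => hfib t
    _ = _ := by rw [Finset.sum_const, Finset.card_univ, ZMod.card_units_eq_totient, nsmul_eq_mul]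

/-- lower bound for the number of the pairs -/
theorem lo {m : ℕ} (hm : m.Coprime 6) (hm0 : 1 ≤ m) {Y1 Y2 : ℝ} (S : Finset (ℤ × ℤ))
    (hS : ∀ a b : ℤ, |(a : ℝ)| ≤ Y1 → |(b : ℝ)| ≤ Y2 → a ≡ 1 [ZMOD 6] → IsCoprime a m →
      (m : ℤ) ∣ Dd a b → (a, b) ∈ S) (h2 : 0 ≤ (2 * Y2 - 1) / m - 1) :
    m.totient * (((2 * Y1 - 1) / (6 * m) - 1) * ((2 * Y2 - 1) / m - 1)) ≤ S.card := by
  classical
  have : NeZero m := ⟨by omega⟩
  have h2u : IsUnit (2 : ZMod m) := by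
    have : IsUnit ((2 : ℕ) : ZMod m) := by
      rw [ZMod.isUnit_iff_coprime]
      exact (Nat.Coprime.coprime_dvd_right (by norm_num) hm).symm
    exact_mod_cast this
  have h3u : IsUnit (3 : ZMod m) := by
    have : IsUnit ((3 : ℕ) : ZMod m) := by
      rw [ZMod.isUnit_iff_coprime]
      exact (Nat.Coprime.coprime_dvd_right (by norm_num) hm).symm
    exact_mod_cast this
  have hcop : IsCoprime (6 : ℤ) (m : ℤ) := by
    have : IsCoprime ((6 : ℕ) : ℤ) (m : ℤ) := Nat.isCoprime_iff_coprime.2 hm.symm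
    exact_mod_cast this
  obtain ⟨u, v, huv⟩ := hcop
  let c : (ZMod m)ˣ → ℤ := fun t => ((t : ZMod m).val : ℤ)
  have hc : ∀ t, ((c t : ℤ) : ZMod m) = t := by
    intro t
    simp only [c, Int.cast_natCast, ZMod.natCast_zmod_val]
  let al : (ZMod m)ˣ → ℤ := fun t => v * m + u * 6 * (3 * c t ^ 2)
  let be : (ZMod m)ˣ → ℤ := fun t => 2 * c t ^ 3
  have hal6 : ∀ t, al t ≡ 1 [ZMOD 6] := by
    intro t
    refine (Int.modEq_iff_dvd.2 ⟨u - u * (3 * c t ^ 2), ?_⟩)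
    simp only [al]
    linear_combination -huv
  have halm : ∀ t, ((al t : ℤ) : ZMod m) = 3 * (t : ZMod m) ^ 2 := by
    intro t
    have e : al t = 3 * c t ^ 2 + m * (v - v * (3 * c t ^ 2)) := by
      simp only [al]
      linear_combination (3 * c t ^ 2) * huv
    rw [e]
    push_cast
    rw [hc, ZMod.natCast_self, zero_mul, add_zero]
  have hbe : ∀ t, ((be t : ℤ) : ZMod m) = 2 * (t : ZMod m) ^ 3 := by
    intro t
    simp only [be]
    push_cast
    rw [hc]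
  let Pt : (ZMod m)ˣ → Finset (ℤ × ℤ) := fun t =>
    ((Bx Y1).filter fun a => a ≡ al t [ZMOD ((6 * m : ℕ) : ℤ)]) ×ˢ
      ((Bx Y2).filter fun a => a ≡ be t [ZMOD (m : ℤ)])
  have hPm : ∀ t, ∀ x ∈ Pt t, ((x.1 : ℤ) : ZMod m) = 3 * (t : ZMod m) ^ 2 ∧
      ((x.2 : ℤ) : ZMod m) = 2 * (t : ZMod m) ^ 3 ∧ x.1 ≡ 1 [ZMOD 6] ∧ |(x.1 : ℝ)| ≤ Y1 ∧
      |(x.2 : ℝ)| ≤ Y2 := by
    intro t x hx
    simp only [Pt, Finset.mem_product, Finset.mem_filter, mem_Bx] at hx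
    obtain ⟨⟨g1, g2⟩, g3, g4⟩ := hx
    refine ⟨?_, ?_, ?_, g1, g3⟩
    · rw [← halm t, ZMod.intCast_eq_intCast_iff]
      exact g2.of_dvd (by push_cast; exact dvd_mul_left _ _)
    · rw [← hbe t, ZMod.intCast_eq_intCast_iff]
      exact g4
    · exact (g2.of_dvd (by push_cast; exact dvd_mul_right _ _)).trans (hal6 t)
  have hdisj : Set.PairwiseDisjoint (↑(Finset.univ : Finset (ZMod m)ˣ)) Pt := by
    intro t _ s _ hts
    rw [Function.onFun, Finset.disjoint_left]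
    intro x hx hy
    apply hts
    obtain ⟨g1, g2, -⟩ := hPm t x hx
    obtain ⟨g3, g4, -⟩ := hPm s x hy
    have e1 : (t : ZMod m) ^ 2 = (s : ZMod m) ^ 2 := h3u.mul_left_cancel (g1.symm.trans g3)
    have e2 : (t : ZMod m) ^ 3 = (s : ZMod m) ^ 3 := h2u.mul_left_cancel (g2.symm.trans g4)
    have e3 : IsUnit ((s : ZMod m) ^ 2) := (Units.isUnit s).pow 2
    apply Units.ext
    apply e3.mul_left_cancel
    calc (s : ZMod m) ^ 2 * t = (t : ZMod m) ^ 3 := by rw [← e1]; ring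
      _ = (s : ZMod m) ^ 2 * s := by rw [e2]; ring
  have hsub : (Finset.univ : Finset (ZMod m)ˣ).biUnion Pt ⊆ S := by
    intro x hx
    rw [Finset.mem_biUnion] at hx
    obtain ⟨t, -, hx⟩ := hx
    obtain ⟨g1, g2, g3, g4, g5⟩ := hPm t x hx
    have := hS x.1 x.2 g4 g5 g3 ?_ ?_
    · simpa using this
    · have hu : IsUnit ((x.1 : ℤ) : ZMod m) := by
        rw [g1]; exact h3u.mul ((Units.isUnit t).pow 2)
      obtain ⟨y, hy⟩ := hu.exists_right_inv
      have hy' : ((x.1 * (y.val : ℤ) : ℤ) : ZMod m) = ((1 : ℤ) : ZMod m) := by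
        push_cast
        rw [ZMod.natCast_zmod_val, hy]
      rw [ZMod.intCast_eq_intCast_iff, Int.modEq_iff_dvd] at hy'
      obtain ⟨k, hk⟩ := hy'
      exact ⟨y.val, k, by linarith⟩
    · rw [← ZMod.intCast_zmod_eq_zero_iff_dvd]
      unfold Dd
      push_cast
      rw [g1, g2]
      ring
  have hcard := Finset.card_le_card hsub
  rw [Finset.card_biUnion (fun t ht s hs hts => hdisj ht hs hts)] at hcard
  have hm' : 1 ≤ 6 * m := by omega
  calc m.totient * (((2 * Y1 - 1) / (6 * m) - 1) * ((2 * Y2 - 1) / m - 1))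
      = ∑ t : (ZMod m)ˣ, (((2 * Y1 - 1) / (6 * m) - 1) * ((2 * Y2 - 1) / m - 1)) := by
        rw [Finset.sum_const, Finset.card_univ, ZMod.card_units_eq_totient, nsmul_eq_mul]
    _ ≤ ∑ t : (ZMod m)ˣ, ((Pt t).card : ℝ) := by
        apply Finset.sum_le_sum
        intro t _
        simp only [Pt, Finset.card_product, Nat.cast_mul]
        have g1 := cnt_lo (Y := Y1) hm' (al t)
        have g2 := cnt_lo (Y := Y2) hm0 (be t)
        push_cast at g1 ⊢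
        exact mul_le_mul g1 g2 h2 (Nat.cast_nonneg _)
    _ ≤ S.card := by exact_mod_cast hcard

/-- tails of the sum of `1/n²` -/
theorem tail (S : Finset ℕ) {w : ℝ} (hw : 1 ≤ w) (hS : ∀ n ∈ S, w < (n : ℝ)) :
    ∑ n ∈ S, (1 : ℝ) / (n : ℝ) ^ 2 ≤ 2 / w := by
  set k := ⌊w⌋₊ with hk
  have hk1 : 1 ≤ k := Nat.le_floor (by exact_mod_cast hw)
  have hsub : S ⊆ Finset.Ioc k (k + S.sup id) := by
    intro n hn
    rw [Finset.mem_Ioc]
    constructor
    · rw [hk, Nat.floor_lt (by linarith)]; exact hS n hn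
    · have := Finset.le_sup (f := id) hn
      simp only [id] at this
      omega
  have hkr : (1 : ℝ) ≤ k := by exact_mod_cast hk1
  have hwk : w < k + 1 := Nat.lt_floor_add_one w
  calc ∑ n ∈ S, (1 : ℝ) / (n : ℝ) ^ 2 ≤ ∑ n ∈ Finset.Ioc k (k + S.sup id), (1 : ℝ) / (n : ℝ) ^ 2 :=
        Finset.sum_le_sum_of_subset_of_nonneg hsub (fun _ _ _ => by positivity)
    _ = ∑ n ∈ Finset.Ioc k (k + S.sup id), ((n : ℝ) ^ 2)⁻¹ := by simp only [one_div]
    _ ≤ (k : ℝ)⁻¹ - ((k + S.sup id : ℕ) : ℝ)⁻¹ := sum_Ioc_inv_sq_le_sub (by omega) (by omega)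
    _ ≤ (k : ℝ)⁻¹ := by
        have : (0 : ℝ) ≤ ((k + S.sup id : ℕ) : ℝ)⁻¹ := by positivity
        linarith
    _ ≤ 2 / w := by
        rw [inv_eq_one_div, div_le_div_iff₀ (by linarith) (by linarith)]
        linarith

theorem modEq_mul {m k : ℕ} (hc : m.Coprime k) {a b : ℤ} (h : a ≡ b [ZMOD m])
    (ha : (k : ℤ) ∣ a) (hb : (k : ℤ) ∣ b) : a ≡ b [ZMOD ((m * k : ℕ) : ℤ)] := by
  rw [Int.modEq_iff_dvd] at h ⊢
  push_cast
  exact (Nat.isCoprime_iff_coprime.2 hc).mul_dvd h (hb.sub ha)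

/-- the sieve; `X = w ^ 6` -/
theorem sieve {w z P : ℝ} {m : ℕ} {T : Finset ℕ} (hm : m.Coprime 6) (hm0 : 1 ≤ m)
    (hw : 6400 ≤ w) (hz : 6400 ≤ z) (hmw : (m : ℝ) ≤ w ^ 8) (hP : (m : ℝ) * P ^ 2 ≤ w ^ 12)
    (hT : ∀ p ∈ T, p.Prime ∧ p ∣ m ∧ (p : ℝ) ≤ P) (hTs : ∑ p ∈ T, (1 : ℝ) / p ≤ 1 / 1000)
    (hphi : (m : ℝ) ≤ 2 * m.totient) :
    ∃ F : Finset (ℤ × ℤ), (∀ x ∈ F, |(x.1 : ℝ)| ≤ w ^ 12 ∧ |(x.2 : ℝ)| ≤ w ^ 18 ∧
      x.1 ≡ 1 [ZMOD 6] ∧ IsCoprime x.1 m ∧ (m : ℤ) ∣ Dd x.1 x.2 ∧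
      (∀ p ∈ T, ¬ ((m * p : ℕ) : ℤ) ∣ Dd x.1 x.2) ∧
      (∀ p : ℕ, p.Prime → z < (p : ℝ) → (p : ℝ) ≤ P → ¬ p ∣ m →
        ¬ (p : ℤ) ∣ x.1 → ¬ (p : ℤ) ^ 2 ∣ Dd x.1 x.2) ∧
      (∀ p : ℕ, p.Prime → z < (p : ℝ) → (p : ℝ) ≤ P → ¬ p ∣ m →
        (p : ℤ) ∣ x.1 → ¬ (p : ℤ) ^ 2 ∣ x.2) ∧
      (∀ p : ℕ, p.Prime → 5 ≤ p → ¬ p ∣ m → ¬ ((p : ℤ) ^ 4 ∣ x.1 ∧ (p : ℤ) ^ 6 ∣ x.2))) ∧
    w ^ 30 / (24 * m) ≤ F.card := by
  classical
  have hw0 : (0 : ℝ) < w := by linarith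
  have hw1 : (1 : ℝ) ≤ w := by linarith
  have hmr : (1 : ℝ) ≤ m := by exact_mod_cast hm0
  have hm0r : (0 : ℝ) < m := by linarith
  set A : Finset (ℤ × ℤ) := (Bx (w ^ 12) ×ˢ Bx (w ^ 18)).filter fun x =>
    x.1 ≡ 1 [ZMOD 6] ∧ IsCoprime x.1 m ∧ (m : ℤ) ∣ Dd x.1 x.2 with hA
  have memA : ∀ x, x ∈ A ↔ (|(x.1 : ℝ)| ≤ w ^ 12 ∧ |(x.2 : ℝ)| ≤ w ^ 18) ∧
      x.1 ≡ 1 [ZMOD 6] ∧ IsCoprime x.1 m ∧ (m : ℤ) ∣ Dd x.1 x.2 := by
    intro x
    rw [hA, Finset.mem_filter, Finset.mem_product, mem_Bx, mem_Bx]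
  set Q : ℝ := m.totient * w ^ 30 / m ^ 2 with hQ
  have hQ0 : 0 ≤ Q := by positivity
  have hQ1 : w ^ 30 / (2 * m) ≤ Q := by
    rw [hQ, div_le_div_iff₀ (by positivity) (by positivity)]
    have : w ^ 30 * (m : ℝ) ^ 2 ≤ w ^ 30 * (2 * m.totient * m) := by
      apply mul_le_mul_of_nonneg_left _ (by positivity)
      rw [sq]
      exact mul_le_mul_of_nonneg_right hphi hm0r.le
    linarith
  have hw4 : (7 : ℝ) ≤ w ^ 4 := by
    calc (7 : ℝ) ≤ 6400 ^ 4 := by norm_num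
      _ ≤ w ^ 4 := by gcongr
  have hw12 : 6 * (m : ℝ) + 1 ≤ w ^ 12 := by
    have h1 : w ^ 12 = w ^ 4 * w ^ 8 := by ring
    have h2 : (1 : ℝ) ≤ w ^ 8 := one_le_pow₀ hw1
    nlinarith
  have hw18 : (m : ℝ) + 1 ≤ w ^ 18 := by
    have h1 : w ^ 12 ≤ w ^ 18 := pow_le_pow_right₀ hw1 (by norm_num)
    linarith
  -- lower bound
  have hlo : Q / 6 ≤ A.card := by
    have e1 : w ^ 12 / (6 * m) ≤ (2 * w ^ 12 - 1) / (6 * m) - 1 := by
      rw [div_sub_one (by positivity)]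
      gcongr
      linarith
    have e2 : w ^ 18 / m ≤ (2 * w ^ 18 - 1) / m - 1 := by
      rw [div_sub_one (by positivity)]
      gcongr
      linarith
    have h1 := lo (Y1 := w ^ 12) (Y2 := w ^ 18) hm hm0 A (by
      intro a b h1 h2 h3 h4 h5
      rw [memA]
      exact ⟨⟨h1, h2⟩, h3, h4, h5⟩) (le_trans (by positivity) e2)
    refine le_trans ?_ h1
    calc Q / 6 = m.totient * ((w ^ 12 / (6 * m)) * (w ^ 18 / m)) := by
          rw [hQ]; field_simp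
      _ ≤ _ := by
        apply mul_le_mul_of_nonneg_left _ (Nat.cast_nonneg _)
        exact mul_le_mul e1 e2 (by positivity) (le_trans (by positivity) e1)
  -- the bad sets
  let B1 : ℕ → Finset (ℤ × ℤ) := fun p => A.filter fun x => ((m * p : ℕ) : ℤ) ∣ Dd x.1 x.2
  let B2 : ℕ → Finset (ℤ × ℤ) := fun p => A.filter fun x => ¬ (p : ℤ) ∣ x.1 ∧
    (p : ℤ) ^ 2 ∣ Dd x.1 x.2
  let B2' : ℕ → Finset (ℤ × ℤ) := fun p => A.filter fun x => (p : ℤ) ∣ x.1 ∧ (p : ℤ) ^ 2 ∣ x.2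
  let B3 : ℕ → Finset (ℤ × ℤ) := fun p => A.filter fun x => (p : ℤ) ^ 4 ∣ x.1 ∧ (p : ℤ) ^ 6 ∣ x.2
  let P2 : Finset ℕ := (Finset.range (⌊P⌋₊ + 1)).filter fun p => p.Prime ∧ z < (p : ℝ) ∧
    (p : ℝ) ≤ P ∧ ¬ p ∣ m
  let P3 : Finset ℕ := (Finset.range (⌊w ^ 12⌋₊ + 1)).filter fun p => p.Prime ∧ 5 ≤ p ∧ ¬ p ∣ m ∧
    (p : ℝ) ^ 4 ≤ w ^ 12
  let P3a : Finset ℕ := P3.filter fun p => (m : ℝ) * (p : ℝ) ^ 4 ≤ w ^ 12
  let P3b : Finset ℕ := P3.filter fun p => ¬ (m : ℝ) * (p : ℝ) ^ 4 ≤ w ^ 12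
  -- the bounds
  have hb1 : ∀ p ∈ T, ((B1 p).card : ℝ) ≤ 16 * Q * (1 / p) := by
    intro p hp
    obtain ⟨hpp, hpm, hpP⟩ := hT p hp
    have hp1 : (1 : ℝ) ≤ p := by exact_mod_cast hpp.one_le
    have hmp : ((m * p : ℕ) : ℝ) ≤ w ^ 12 := by
      push_cast
      refine le_trans ?_ hP
      have : (p : ℝ) ≤ P ^ 2 := by nlinarith
      gcongr
    have hcop6 : (m * p).Coprime 6 := Nat.Coprime.mul_left hm (hm.coprime_dvd_left hpm)
    have h := up (M := m * p) (M1 := m * p) (M2 := m * p) hcop6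
      (Nat.mul_pos hm0 hpp.pos) (Nat.mul_pos hm0 hpp.pos) (Nat.mul_pos hm0 hpp.pos)
      (Y1 := w ^ 12) (Y2 := w ^ 18) hmp
      (hmp.trans (pow_le_pow_right₀ hw1 (by norm_num))) (B1 p) (by
        intro x hx
        simp only [B1, Finset.mem_filter, memA] at hx
        refine ⟨hx.1.1.1, hx.1.1.2, ?_, hx.2⟩
        push_cast
        have h5 : IsCoprime x.1 (p : ℤ) :=
          IsCoprime.of_isCoprime_of_dvd_right hx.1.2.2.1 (by exact_mod_cast hpm)
        exact hx.1.2.2.1.mul_right h5) (fun _ _ _ _ h => h) (fun _ _ _ _ h => h)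
    refine h.trans (le_of_eq ?_)
    rw [mul_comm m p, Nat.totient_mul_of_prime_of_dvd hpp hpm, hQ]
    push_cast
    have : (p : ℝ) ≠ 0 := by positivity
    field_simp
  have hb2 : ∀ p ∈ P2, ((B2 p).card : ℝ) ≤ 16 * Q * (1 / (p : ℝ) ^ 2) := by
    intro p hp
    simp only [P2, Finset.mem_filter] at hp
    obtain ⟨-, hpp, hzp, hpP, hpm⟩ := hp
    have hp1 : (1 : ℝ) ≤ p := by exact_mod_cast hpp.one_le
    have hpc : m.Coprime p := ((Nat.Prime.coprime_iff_not_dvd hpp).2 hpm).symm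
    have hmp : ((m * p ^ 2 : ℕ) : ℝ) ≤ w ^ 12 := by
      push_cast
      refine le_trans ?_ hP
      gcongr
    have hp6 : (p ^ 2).Coprime 6 := by
      apply Nat.Coprime.pow_left
      rw [Nat.Prime.coprime_iff_not_dvd hpp]
      intro h6
      have := Nat.le_of_dvd (by norm_num) h6
      have h7 : (p : ℝ) ≤ 6 := by exact_mod_cast this
      linarith
    have h := up (M := m * p ^ 2) (M1 := m * p ^ 2) (M2 := m * p ^ 2) (Nat.Coprime.mul_left hm hp6)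
      (Nat.mul_pos hm0 (pow_pos hpp.pos 2)) (Nat.mul_pos hm0 (pow_pos hpp.pos 2))
      (Nat.mul_pos hm0 (pow_pos hpp.pos 2))
      (Y1 := w ^ 12) (Y2 := w ^ 18) hmp
      (hmp.trans (pow_le_pow_right₀ hw1 (by norm_num))) (B2 p) (by
        intro x hx
        simp only [B2, Finset.mem_filter, memA] at hx
        refine ⟨hx.1.1.1, hx.1.1.2, ?_, ?_⟩
        · push_cast
          have h5 : IsCoprime x.1 ((p : ℤ) ^ 2) :=
            ((Prime.coprime_iff_not_dvd (Nat.prime_iff_prime_int.1 hpp)).2 hx.2.1).symm.pow_right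
          exact hx.1.2.2.1.mul_right h5
        · push_cast
          have h5 : IsCoprime (m : ℤ) ((p : ℤ) ^ 2) := (Nat.isCoprime_iff_coprime.2 hpc).pow_right
          exact h5.mul_dvd hx.1.2.2.2 hx.2.2) (fun _ _ _ _ h => h) (fun _ _ _ _ h => h)
    have hphi2 : (((m * p ^ 2).totient : ℕ) : ℝ) ≤ m.totient * (p : ℝ) ^ 2 := by
      rw [Nat.totient_mul (hpc.pow_right 2)]
      have : (p ^ 2).totient ≤ p ^ 2 := Nat.totient_le _
      have h7 : (((p ^ 2).totient : ℕ) : ℝ) ≤ (p : ℝ) ^ 2 := by exact_mod_cast this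
      push_cast
      gcongr
    calc ((B2 p).card : ℝ) ≤ _ := h
      _ ≤ (m.totient * (p : ℝ) ^ 2) *
          (16 * (w ^ 12 * w ^ 18) / (((m * p ^ 2 : ℕ) : ℝ) * ((m * p ^ 2 : ℕ) : ℝ))) := by gcongr
      _ = 16 * Q * (1 / (p : ℝ) ^ 2) := by
        rw [hQ]
        push_cast
        have : (p : ℝ) ≠ 0 := by positivity
        field_simp
  have hb2' : ∀ p ∈ P2, ((B2' p).card : ℝ) ≤ 16 * Q * (1 / (p : ℝ) ^ 2) := by
    intro p hp
    simp only [P2, Finset.mem_filter] at hp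
    obtain ⟨-, hpp, hzp, hpP, hpm⟩ := hp
    have hp1 : (1 : ℝ) ≤ p := by exact_mod_cast hpp.one_le
    have hpc : m.Coprime p := ((Nat.Prime.coprime_iff_not_dvd hpp).2 hpm).symm
    have hmp : ((m * p ^ 2 : ℕ) : ℝ) ≤ w ^ 12 := by
      push_cast
      refine le_trans ?_ hP
      gcongr
    have hmp1 : ((m * p : ℕ) : ℝ) ≤ w ^ 12 := by
      refine le_trans ?_ hmp
      push_cast
      have : (p : ℝ) ≤ (p : ℝ) ^ 2 := by nlinarith
      gcongr
    have h := up (M := m) (M1 := m * p) (M2 := m * p ^ 2) hm hm0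
      (Nat.mul_pos hm0 hpp.pos) (Nat.mul_pos hm0 (pow_pos hpp.pos 2))
      (Y1 := w ^ 12) (Y2 := w ^ 18) hmp1
      (hmp.trans (pow_le_pow_right₀ hw1 (by norm_num))) (B2' p) (by
        intro x hx
        simp only [B2', Finset.mem_filter, memA] at hx
        exact ⟨hx.1.1.1, hx.1.1.2, hx.1.2.2.1, hx.1.2.2.2⟩)
        (by
          intro x hx y hy h
          simp only [B2', Finset.mem_filter] at hx hy
          exact modEq_mul hpc h hx.2.1 hy.2.1)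
        (by
          intro x hx y hy h
          simp only [B2', Finset.mem_filter] at hx hy
          exact modEq_mul (hpc.pow_right 2) h (by push_cast; exact hx.2.2)
            (by push_cast; exact hy.2.2))
    calc ((B2' p).card : ℝ) ≤ _ := h
      _ = 16 * Q * (1 / (p : ℝ) ^ 3) := by
        rw [hQ]
        push_cast
        have : (p : ℝ) ≠ 0 := by positivity
        field_simp
      _ ≤ 16 * Q * (1 / (p : ℝ) ^ 2) := by
        have h11 : (p : ℝ) ^ 2 ≤ (p : ℝ) ^ 3 := pow_le_pow_right₀ hp1 (by norm_num)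
        gcongr
  have hb3a : ∀ p ∈ P3a, ((B3 p).card : ℝ) ≤ 16 * Q / 390625 * (1 / (p : ℝ) ^ 2) := by
    intro p hp
    simp only [P3a, P3, Finset.mem_filter] at hp
    obtain ⟨⟨-, hpp, hp5, hpm, hp4⟩, hmp4⟩ := hp
    have hp5r : (5 : ℝ) ≤ p := by exact_mod_cast hp5
    have hpc : m.Coprime p := ((Nat.Prime.coprime_iff_not_dvd hpp).2 hpm).symm
    have hp2 : (p : ℝ) ^ 2 ≤ w ^ 6 := by
      have h5 : ((p : ℝ) ^ 2) ^ 2 ≤ (w ^ 6) ^ 2 := by
        calc ((p : ℝ) ^ 2) ^ 2 = (p : ℝ) ^ 4 := by ring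
          _ ≤ w ^ 12 := hp4
          _ = (w ^ 6) ^ 2 := by ring
      exact le_of_sq_le_sq h5 (by positivity)
    have h := up (M := m) (M1 := m * p ^ 4) (M2 := m * p ^ 6) hm hm0
      (Nat.mul_pos hm0 (pow_pos hpp.pos 4)) (Nat.mul_pos hm0 (pow_pos hpp.pos 6))
      (Y1 := w ^ 12) (Y2 := w ^ 18) (by push_cast; exact hmp4)
      (by
        push_cast
        calc (m : ℝ) * (p : ℝ) ^ 6 = (m * (p : ℝ) ^ 4) * (p : ℝ) ^ 2 := by ring
          _ ≤ w ^ 12 * w ^ 6 := by gcongr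
          _ = w ^ 18 := by ring) (B3 p) (by
        intro x hx
        simp only [B3, Finset.mem_filter, memA] at hx
        exact ⟨hx.1.1.1, hx.1.1.2, hx.1.2.2.1, hx.1.2.2.2⟩)
        (by
          intro x hx y hy h
          simp only [B3, Finset.mem_filter] at hx hy
          exact modEq_mul (hpc.pow_right 4) h (by push_cast; exact hx.2.1)
            (by push_cast; exact hy.2.1))
        (by
          intro x hx y hy h
          simp only [B3, Finset.mem_filter] at hx hy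
          exact modEq_mul (hpc.pow_right 6) h (by push_cast; exact hx.2.2)
            (by push_cast; exact hy.2.2))
    have h8 : (390625 : ℝ) ≤ (p : ℝ) ^ 8 := by
      calc (390625 : ℝ) = 5 ^ 8 := by norm_num
        _ ≤ (p : ℝ) ^ 8 := by gcongr
    calc ((B3 p).card : ℝ) ≤ _ := h
      _ = 16 * Q / (p : ℝ) ^ 8 * (1 / (p : ℝ) ^ 2) := by
        rw [hQ]
        push_cast
        have : (p : ℝ) ≠ 0 := by positivity
        field_simp
      _ ≤ 16 * Q / 390625 * (1 / (p : ℝ) ^ 2) := by gcongr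
  have hb3b : ∀ p ∈ P3b, ((B3 p).card : ℝ) ≤ 32 * m ^ 3 * Q / w ^ 24 * (1 / (p : ℝ) ^ 2) := by
    intro p hp
    simp only [P3b, P3, Finset.mem_filter, not_le] at hp
    obtain ⟨⟨-, hpp, hp5, hpm, hp4⟩, hmp4⟩ := hp
    have hp5r : (5 : ℝ) ≤ p := by exact_mod_cast hp5
    have hp2 : (p : ℝ) ^ 2 ≤ w ^ 6 := by
      have h5 : ((p : ℝ) ^ 2) ^ 2 ≤ (w ^ 6) ^ 2 := by
        calc ((p : ℝ) ^ 2) ^ 2 = (p : ℝ) ^ 4 := by ring
          _ ≤ w ^ 12 := hp4
          _ = (w ^ 6) ^ 2 := by ring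
      exact le_of_sq_le_sq h5 (by positivity)
    have hz1 : ∀ {a b : ℤ}, ((p ^ 4 : ℕ) : ℤ) ∣ a → ((p ^ 4 : ℕ) : ℤ) ∣ b →
        a ≡ b [ZMOD ((p ^ 4 : ℕ) : ℤ)] := fun ha hb => Int.modEq_iff_dvd.2 (hb.sub ha)
    have h := up (M := 1) (M1 := p ^ 4) (M2 := p ^ 6) (by norm_num) le_rfl
      (pow_pos hpp.pos 4) (pow_pos hpp.pos 6)
      (Y1 := w ^ 12) (Y2 := w ^ 18) (by push_cast; exact hp4)
      (by
        push_cast
        calc (p : ℝ) ^ 6 = (p : ℝ) ^ 4 * (p : ℝ) ^ 2 := by ring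
          _ ≤ w ^ 12 * w ^ 6 := by gcongr
          _ = w ^ 18 := by ring) (B3 p) (by
        intro x hx
        simp only [B3, Finset.mem_filter, memA] at hx
        exact ⟨hx.1.1.1, hx.1.1.2, by push_cast; exact isCoprime_one_right, by simp⟩)
        (by
          intro x hx y hy h
          simp only [B3, Finset.mem_filter] at hx hy
          refine Int.modEq_iff_dvd.2 (dvd_sub ?_ ?_)
          · push_cast; exact hy.2.1
          · push_cast; exact hx.2.1)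
        (by
          intro x hx y hy h
          simp only [B3, Finset.mem_filter] at hx hy
          refine Int.modEq_iff_dvd.2 (dvd_sub ?_ ?_)
          · push_cast; exact hy.2.2
          · push_cast; exact hx.2.2)
    have h9 : w ^ 24 / m ^ 2 ≤ (p : ℝ) ^ 8 := by
      rw [div_le_iff₀ (by positivity)]
      calc w ^ 24 = w ^ 12 * w ^ 12 := by ring
        _ ≤ (m * (p : ℝ) ^ 4) * (m * (p : ℝ) ^ 4) := by gcongr
        _ = _ := by ring
    calc ((B3 p).card : ℝ) ≤ _ := h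
      _ = 16 * w ^ 30 / (p : ℝ) ^ 8 * (1 / (p : ℝ) ^ 2) := by
        push_cast
        have : (p : ℝ) ≠ 0 := by positivity
        simp only [Nat.totient_one, Nat.cast_one]
        field_simp
      _ ≤ 16 * w ^ 30 / (w ^ 24 / m ^ 2) * (1 / (p : ℝ) ^ 2) := by gcongr
      _ = 32 * m ^ 3 * (w ^ 30 / (2 * m)) / w ^ 24 * (1 / (p : ℝ) ^ 2) := by
        field_simp
        ring
      _ ≤ 32 * m ^ 3 * Q / w ^ 24 * (1 / (p : ℝ) ^ 2) := by gcongr
  -- the sums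
  have hs1 : ∑ p ∈ T, ((B1 p).card : ℝ) ≤ 16 / 1000 * Q := by
    calc _ ≤ ∑ p ∈ T, 16 * Q * (1 / (p : ℝ)) := Finset.sum_le_sum hb1
      _ = 16 * Q * ∑ p ∈ T, 1 / (p : ℝ) := by rw [Finset.mul_sum]
      _ ≤ 16 * Q * (1 / 1000) := by gcongr
      _ = _ := by ring
  have ht2 : ∑ p ∈ P2, 1 / (p : ℝ) ^ 2 ≤ 2 / z :=
    tail P2 (by linarith) (fun n hn => (Finset.mem_filter.1 hn).2.2.1)
  have hz2 : 2 / z ≤ 2 / 6400 := by gcongr
  have hs2 : ∑ p ∈ P2, ((B2 p).card : ℝ) ≤ 32 / 6400 * Q := by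
    calc _ ≤ ∑ p ∈ P2, 16 * Q * (1 / (p : ℝ) ^ 2) := Finset.sum_le_sum hb2
      _ = 16 * Q * ∑ p ∈ P2, 1 / (p : ℝ) ^ 2 := by rw [Finset.mul_sum]
      _ ≤ 16 * Q * (2 / 6400) := by gcongr; exact ht2.trans hz2
      _ = _ := by ring
  have hs2' : ∑ p ∈ P2, ((B2' p).card : ℝ) ≤ 32 / 6400 * Q := by
    calc _ ≤ ∑ p ∈ P2, 16 * Q * (1 / (p : ℝ) ^ 2) := Finset.sum_le_sum hb2'
      _ = 16 * Q * ∑ p ∈ P2, 1 / (p : ℝ) ^ 2 := by rw [Finset.mul_sum]
      _ ≤ 16 * Q * (2 / 6400) := by gcongr; exact ht2.trans hz2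
      _ = _ := by ring
  have hs3a : ∑ p ∈ P3a, ((B3 p).card : ℝ) ≤ 8 / 390625 * Q := by
    have ht : ∑ p ∈ P3a, 1 / (p : ℝ) ^ 2 ≤ 2 / 4 :=
      tail P3a (by norm_num) (fun n hn => by
        have h5 : 5 ≤ n := (Finset.mem_filter.1 (Finset.mem_filter.1 hn).1).2.2.1
        have : (5 : ℝ) ≤ n := by exact_mod_cast h5
        linarith)
    calc _ ≤ ∑ p ∈ P3a, 16 * Q / 390625 * (1 / (p : ℝ) ^ 2) := Finset.sum_le_sum hb3a
      _ = 16 * Q / 390625 * ∑ p ∈ P3a, 1 / (p : ℝ) ^ 2 := by rw [Finset.mul_sum]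
      _ ≤ 16 * Q / 390625 * (2 / 4) := by gcongr
      _ = _ := by ring
  have hs3b : ∑ p ∈ P3b, ((B3 p).card : ℝ) ≤ 64 / 6400 * Q := by
    have ht : ∑ p ∈ P3b, 1 / (p : ℝ) ^ 2 ≤ 2 / w :=
      tail P3b hw1 (fun n hn => by
        have h5 : w ^ 12 < m * (n : ℝ) ^ 4 := not_le.1 (Finset.mem_filter.1 hn).2
        have h6 : w ^ 8 * w ^ 4 < w ^ 8 * (n : ℝ) ^ 4 := by
          calc w ^ 8 * w ^ 4 = w ^ 12 := by ring
            _ < m * (n : ℝ) ^ 4 := h5
            _ ≤ w ^ 8 * (n : ℝ) ^ 4 := by gcongr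
        have h7 : w ^ 4 < (n : ℝ) ^ 4 := lt_of_mul_lt_mul_left h6 (by positivity)
        exact lt_of_pow_lt_pow_left₀ 4 (by positivity) h7)
    have hm3 : (m : ℝ) ^ 3 ≤ w ^ 24 := by
      calc (m : ℝ) ^ 3 ≤ (w ^ 8) ^ 3 := by gcongr
        _ = w ^ 24 := by ring
    calc _ ≤ ∑ p ∈ P3b, 32 * m ^ 3 * Q / w ^ 24 * (1 / (p : ℝ) ^ 2) := Finset.sum_le_sum hb3b
      _ = 32 * m ^ 3 * Q / w ^ 24 * ∑ p ∈ P3b, 1 / (p : ℝ) ^ 2 := by rw [Finset.mul_sum]
      _ ≤ 32 * m ^ 3 * Q / w ^ 24 * (2 / w) := by gcongr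
      _ ≤ 32 * w ^ 24 * Q / w ^ 24 * (2 / 6400) := by gcongr
      _ = _ := by field_simp; ring
  set F : Finset (ℤ × ℤ) := A \ (T.biUnion B1 ∪ P2.biUnion B2 ∪ P2.biUnion B2' ∪ P3a.biUnion B3 ∪
    P3b.biUnion B3) with hF
  refine ⟨F, ?_, ?_⟩
  · intro x hx
    rw [hF, Finset.mem_sdiff, memA] at hx
    simp only [Finset.mem_union, Finset.mem_biUnion, not_or] at hx
    obtain ⟨⟨⟨g1, g2⟩, g3, g4, g5⟩, ⟨⟨⟨n1, n2⟩, n2'⟩, n3a⟩, n3b⟩ := hx
    have hxA : x ∈ A := (memA x).2 ⟨⟨g1, g2⟩, g3, g4, g5⟩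
    have hin2 : ∀ p : ℕ, p.Prime → z < (p : ℝ) → (p : ℝ) ≤ P → ¬ p ∣ m → p ∈ P2 := by
      intro p hpp h1 h2 h3
      simp only [P2, Finset.mem_filter, Finset.mem_range]
      refine ⟨?_, hpp, h1, h2, h3⟩
      have := Nat.le_floor h2
      omega
    refine ⟨g1, g2, g3, g4, g5, ?_, ?_, ?_, ?_⟩
    · intro p hp hd
      exact n1 ⟨p, hp, Finset.mem_filter.2 ⟨hxA, hd⟩⟩
    · intro p hpp h1 h2 h3 h4 h5
      exact n2 ⟨p, hin2 p hpp h1 h2 h3, Finset.mem_filter.2 ⟨hxA, h4, h5⟩⟩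
    · intro p hpp h1 h2 h3 h4 h5
      exact n2' ⟨p, hin2 p hpp h1 h2 h3, Finset.mem_filter.2 ⟨hxA, h4, h5⟩⟩
    · intro p hpp hp5 hpm ⟨h4, h5⟩
      have hx0 : x.1 ≠ 0 := by
        intro h0
        rw [h0] at g3
        have := g3.dvd
        omega
      have hp4 : (p : ℝ) ^ 4 ≤ w ^ 12 := by
        refine le_trans ?_ g1
        have h6 : (p : ℤ) ^ 4 ≤ |x.1| := Int.le_of_dvd (abs_pos.2 hx0) ((dvd_abs _ _).2 h4)
        exact_mod_cast h6
      have hp3 : p ∈ P3 := by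
        simp only [P3, Finset.mem_filter, Finset.mem_range]
        refine ⟨?_, hpp, hp5, hpm, hp4⟩
        have hp1 : (1 : ℝ) ≤ p := by exact_mod_cast hpp.one_le
        have h6 : (p : ℝ) ≤ w ^ 12 := le_trans (by
          calc (p : ℝ) = (p : ℝ) ^ 1 := (pow_one _).symm
            _ ≤ (p : ℝ) ^ 4 := pow_le_pow_right₀ hp1 (by norm_num)) hp4
        have := Nat.le_floor h6
        omega
      by_cases h6 : (m : ℝ) * (p : ℝ) ^ 4 ≤ w ^ 12
      · exact n3a ⟨p, Finset.mem_filter.2 ⟨hp3, h6⟩, Finset.mem_filter.2 ⟨hxA, h4, h5⟩⟩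
      · exact n3b ⟨p, Finset.mem_filter.2 ⟨hp3, h6⟩, Finset.mem_filter.2 ⟨hxA, h4, h5⟩⟩
  · have hc1 : A.card ≤ F.card + (∑ p ∈ T, (B1 p).card + ∑ p ∈ P2, (B2 p).card +
        ∑ p ∈ P2, (B2' p).card + ∑ p ∈ P3a, (B3 p).card + ∑ p ∈ P3b, (B3 p).card) := by
      have h1 := Finset.card_le_card_sdiff_add_card (t := T.biUnion B1 ∪ P2.biUnion B2 ∪
        P2.biUnion B2' ∪ P3a.biUnion B3 ∪ P3b.biUnion B3) (s := A)
      have k1 : (T.biUnion B1).card ≤ ∑ p ∈ T, (B1 p).card := Finset.card_biUnion_le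
      have k2 : (P2.biUnion B2).card ≤ ∑ p ∈ P2, (B2 p).card := Finset.card_biUnion_le
      have k3 : (P2.biUnion B2').card ≤ ∑ p ∈ P2, (B2' p).card := Finset.card_biUnion_le
      have k4 : (P3a.biUnion B3).card ≤ ∑ p ∈ P3a, (B3 p).card := Finset.card_biUnion_le
      have k5 : (P3b.biUnion B3).card ≤ ∑ p ∈ P3b, (B3 p).card := Finset.card_biUnion_le
      have u1 := Finset.card_union_le (T.biUnion B1) (P2.biUnion B2)
      have u2 := Finset.card_union_le (T.biUnion B1 ∪ P2.biUnion B2) (P2.biUnion B2')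
      have u3 := Finset.card_union_le (T.biUnion B1 ∪ P2.biUnion B2 ∪ P2.biUnion B2')
        (P3a.biUnion B3)
      have u4 := Finset.card_union_le (T.biUnion B1 ∪ P2.biUnion B2 ∪ P2.biUnion B2' ∪
        P3a.biUnion B3) (P3b.biUnion B3)
      rw [← hF] at h1
      omega
    have hc2 : (A.card : ℝ) ≤ F.card + (∑ p ∈ T, ((B1 p).card : ℝ) + ∑ p ∈ P2, ((B2 p).card : ℝ) +
        ∑ p ∈ P2, ((B2' p).card : ℝ) + ∑ p ∈ P3a, ((B3 p).card : ℝ) +
        ∑ p ∈ P3b, ((B3 p).card : ℝ)) := by exact_mod_cast hc1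
    have hfin : Q / 12 ≤ F.card := by linarith
    refine le_trans ?_ hfin
    calc w ^ 30 / (24 * m) = w ^ 30 / (2 * m) / 12 := by field_simp; ring
      _ ≤ Q / 12 := by gcongr

theorem rd_eq {n : ℕ} (h : ∀ p ∈ n.primeFactors, 5 ≤ p) : rd n = ∏ p ∈ n.primeFactors, p := by
  unfold rd
  rw [Finset.filter_true_of_mem h]

theorem fact_rd {n p : ℕ} (hn : n ≠ 0) (h : ∀ p ∈ n.primeFactors, 5 ≤ p) (hp : p.Prime) :
    (rd n).factorization p = if p ∣ n then 1 else 0 := by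
  classical
  rw [rd_eq h, Nat.factorization_prod_apply
    (fun x hx => (Nat.prime_of_mem_primeFactors hx).ne_zero)]
  have e : ∀ x ∈ n.primeFactors, x.factorization p = if x = p then 1 else 0 := by
    intro x hx
    rw [(Nat.prime_of_mem_primeFactors hx).factorization, Finsupp.single_apply]
  rw [Finset.sum_congr rfl e, Finset.sum_ite_eq']
  simp [Nat.mem_primeFactors, hp, hn]

theorem rd_pos (n : ℕ) : 0 < rd n := by
  unfold rd
  exact Finset.prod_pos fun p hp => (Nat.prime_of_mem_primeFactors (Finset.mem_filter.1 hp).1).pos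

theorem one_sub_sum (S : Finset ℕ) (f : ℕ → ℝ) (h0 : ∀ p ∈ S, 0 ≤ f p) (h1 : ∀ p ∈ S, f p ≤ 1) :
    1 - ∑ p ∈ S, f p ≤ ∏ p ∈ S, (1 - f p) := by
  classical
  induction S using Finset.induction_on with
  | empty => simp
  | insert a S ha ih =>
    rw [Finset.sum_insert ha, Finset.prod_insert ha]
    have h2 := ih (fun p hp => h0 p (Finset.mem_insert_of_mem hp))
      (fun p hp => h1 p (Finset.mem_insert_of_mem hp))
    have h3 := h0 a (Finset.mem_insert_self _ _)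
    have h4 := h1 a (Finset.mem_insert_self _ _)
    have h5 : 0 ≤ ∑ p ∈ S, f p := Finset.sum_nonneg fun p hp => h0 p (Finset.mem_insert_of_mem hp)
    have h6 : (1 - f a) * (1 - ∑ p ∈ S, f p) ≤ (1 - f a) * ∏ p ∈ S, (1 - f p) :=
      mul_le_mul_of_nonneg_left h2 (by linarith)
    nlinarith [mul_nonneg h3 h5]

theorem val_eq {m p D : ℕ} (hm0 : m ≠ 0) (hp : p.Prime) (hD : D ≠ 0) (h : m ∣ D)
    (hn : ¬ m * p ∣ D) (hpm : p ∣ m) : D.factorization p = m.factorization p := by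
  apply le_antisymm
  · by_contra hlt
    push Not at hlt
    -- `D = m k`, `p ∣ k`
    obtain ⟨k, hk⟩ := h
    have hk0 : k ≠ 0 := by rintro rfl; exact hD (by rw [hk]; ring)
    rw [hk, Nat.factorization_mul hm0 hk0, Finsupp.add_apply] at hlt
    have h1 : k.factorization p ≠ 0 := by omega
    have h2 : p ∣ k := Nat.dvd_of_factorization_pos h1
    apply hn
    rw [hk]
    exact mul_dvd_mul_left m h2
  · exact (Nat.factorization_le_iff_dvd hm0 hD).2 h p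

end LQ

open LQ in
theorem lowq : S_LOWQ := by
  refine ⟨1 / 1000, 1 / 120, 6400 ^ 6, by norm_num, by norm_num, by norm_num, ?_⟩
  intro X z P j q r hq hr hqr hz hpr hr5 hsum hX hm1 hm2
  classical
  have hq0 : q ≠ 0 := by omega
  have hr0 : r ≠ 0 := by omega
  have hz' : (6400 : ℝ) ≤ z := le_trans (by norm_num) hz
  have hqr0 : q * r ≠ 0 := mul_ne_zero hq0 hr0
  -- primes are large
  have hbig : ∀ p : ℕ, z < (p : ℝ) → 5 < p := by
    intro p hp
    have : (5 : ℝ) < p := by linarith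
    exact_mod_cast this
  have hpq : ∀ p ∈ q.primeFactors, p ∈ (q * r).primeFactors := by
    intro p hp
    exact Nat.primeFactors_mono (dvd_mul_right _ _) hqr0 hp
  have hpr' : ∀ p ∈ r.primeFactors, p ∈ (q * r).primeFactors := by
    intro p hp
    exact Nat.primeFactors_mono (dvd_mul_left _ _) hqr0 hp
  have h5q : ∀ p ∈ q.primeFactors, 5 ≤ p := fun p hp => (hbig p (hpr p (hpq p hp)).1).le
  have h5r : ∀ p ∈ r.primeFactors, 5 ≤ p := fun p hp => (hbig p (hpr p (hpr' p hp)).1).le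
  have h5qr : ∀ p ∈ (q * r).primeFactors, 5 ≤ p := fun p hp => (hbig p (hpr p hp).1).le
  have h5nq : ¬ 5 ∣ q := by
    intro h
    have := hbig 5 (hpr 5 (hpq 5 (Nat.mem_primeFactors.2 ⟨by norm_num, h, hq0⟩))).1
    omega
  have h5nr : ¬ 5 ∣ r := by
    intro h
    have := hbig 5 (hpr 5 (hpr' 5 (Nat.mem_primeFactors.2 ⟨by norm_num, h, hr0⟩))).1
    omega
  set u := rd r with hu
  have hu0 : 0 < u := rd_pos r
  have hfu : ∀ p : ℕ, p.Prime → u.factorization p = if p ∣ r then 1 else 0 :=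
    fun p hp => fact_rd hr0 h5r hp
  have hfq : ∀ p : ℕ, p.Prime → (rd q).factorization p = if p ∣ q then 1 else 0 :=
    fun p hp => fact_rd hq0 h5q hp
  have hrdq0 : 0 < rd q := rd_pos q
  have hu4 : u ^ 4 ∣ r := by
    rw [← Nat.factorization_le_iff_dvd (pow_ne_zero 4 hu0.ne') hr0]
    intro p
    by_cases hp : p.Prime
    · rw [Nat.factorization_pow, Finsupp.smul_apply, smul_eq_mul, hfu p hp]
      split_ifs with h
      · have := hr5 p (Nat.mem_primeFactors.2 ⟨hp, h, hr0⟩)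
        omega
      · omega
    · rw [Nat.factorization_eq_zero_of_not_prime _ hp]
      exact Nat.zero_le _
  obtain ⟨r1, hr1⟩ := hu4
  have hr10 : r1 ≠ 0 := by rintro rfl; exact hr0 (by rw [hr1]; ring)
  have hfr1 : ∀ p : ℕ, p.Prime → r1.factorization p = r.factorization p - 4 := by
    intro p hp
    have h1 : r.factorization p = 4 * (if p ∣ r then 1 else 0) + r1.factorization p := by
      conv_lhs => rw [hr1]
      rw [Nat.factorization_mul (pow_ne_zero 4 hu0.ne') hr10, Finsupp.add_apply,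
        Nat.factorization_pow, Finsupp.smul_apply, smul_eq_mul, hfu p hp]
    by_cases h : p ∣ r
    · simp only [h, if_true] at h1
      omega
    · have h2 : r.factorization p = 0 := Nat.factorization_eq_zero_of_not_dvd h
      simp only [h, if_false] at h1
      omega
  set m := 5 ^ (j + 1) * q * rd q * r1 with hm
  have hm0 : m ≠ 0 := by
    rw [hm]
    exact mul_ne_zero (mul_ne_zero (mul_ne_zero (pow_ne_zero _ (by norm_num)) hq0) hrdq0.ne') hr10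
  have hfm : ∀ p : ℕ, p.Prime → m.factorization p = (if p = 5 then j + 1 else 0) +
      q.factorization p + (if p ∣ q then 1 else 0) + (r.factorization p - 4) := by
    intro p hp
    rw [hm, Nat.factorization_mul (mul_ne_zero (mul_ne_zero (pow_ne_zero _ (by norm_num)) hq0)
      hrdq0.ne') hr10, Nat.factorization_mul (mul_ne_zero (pow_ne_zero _ (by norm_num)) hq0)
      hrdq0.ne', Nat.factorization_mul (pow_ne_zero _ (by norm_num)) hq0, Nat.factorization_pow,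
      Finsupp.add_apply, Finsupp.add_apply, Finsupp.add_apply, Finsupp.smul_apply, hfr1 p hp,
      hfq p hp, (show Nat.Prime 5 by norm_num).factorization, Finsupp.single_apply]
    by_cases h : p = 5
    · simp [h]
    · simp [h, Ne.symm h]
  have hpm : ∀ p : ℕ, p.Prime → (p ∣ m ↔ p = 5 ∨ p ∣ q ∨ p ∣ r) := by
    intro p hp
    rw [hp.dvd_iff_one_le_factorization hm0, hfm p hp]
    constructor
    · intro h
      by_contra hcon
      push Not at hcon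
      obtain ⟨g1, g2, g3⟩ := hcon
      simp only [g1, g2, if_false, Nat.factorization_eq_zero_of_not_dvd g2,
        Nat.factorization_eq_zero_of_not_dvd g3] at h
      omega
    · rintro (h | h | h)
      · simp only [h, if_true]; omega
      · simp only [h, if_true]; omega
      · have := hr5 p (Nat.mem_primeFactors.2 ⟨hp, h, hr0⟩)
        omega
  have hm6 : m.Coprime 6 := by
    rw [Nat.coprime_iff_gcd_eq_one]
    by_contra hne
    obtain ⟨p, hp, hpd⟩ := Nat.exists_prime_and_dvd hne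
    have h1 : p ∣ m := hpd.trans (Nat.gcd_dvd_left _ _)
    have h2 : p ∣ 6 := hpd.trans (Nat.gcd_dvd_right _ _)
    rcases (hpm p hp).1 h1 with h | h | h
    · rw [h] at h2; norm_num at h2
    · have h3 := hbig p (hpr p (hpq p (Nat.mem_primeFactors.2 ⟨hp, h, hq0⟩))).1
      have h4 := Nat.le_of_dvd (by norm_num) h2
      have h5 : p = 6 := by omega
      rw [h5] at hp; norm_num at hp
    · have h3 := hbig p (hpr p (hpr' p (Nat.mem_primeFactors.2 ⟨hp, h, hr0⟩))).1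
      have h4 := Nat.le_of_dvd (by norm_num) h2
      have h5 : p = 6 := by omega
      rw [h5] at hp; norm_num at hp
  have hur : (0 : ℝ) < u := by exact_mod_cast hu0
  have hmr : (m : ℝ) = (5 : ℝ) ^ (j + 1) * q * rd q * (r / (u : ℝ) ^ 4) := by
    have h1 : (r : ℝ) = (u : ℝ) ^ 4 * r1 := by exact_mod_cast hr1
    rw [h1, hm]
    push_cast
    field_simp
  rw [← hmr] at hm1 hm2
  -- `w`
  have hX10 : 0 < X / u := lt_of_lt_of_le (by norm_num) hX
  set w : ℝ := (X / u) ^ (1 / 6 : ℝ) with hw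
  have hw0 : 0 < w := Real.rpow_pos_of_pos hX10 _
  have hw6 : w ^ 6 = X / u := by
    rw [hw, ← Real.rpow_natCast, ← Real.rpow_mul hX10.le]
    norm_num
  have hw8 : w ^ 8 = (X / u) ^ (4 / 3 : ℝ) := by
    rw [hw, ← Real.rpow_natCast, ← Real.rpow_mul hX10.le]
    norm_num
  have hw64 : 6400 ≤ w := by
    have h1 : (6400 : ℝ) ^ 6 ≤ w ^ 6 := by rw [hw6]; exact hX
    exact le_of_pow_le_pow_left₀ (by norm_num) hw0.le h1
  have hw12 : w ^ 12 = (X / u) ^ 2 := by rw [← hw6]; ring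
  have hphi : (m : ℝ) ≤ 2 * m.totient := by
    have h1 : (m.totient : ℝ) = m * ∏ p ∈ m.primeFactors, (1 - 1 / (p : ℝ)) := by
      have h2 := Nat.totient_eq_mul_prod_factors m
      have h3 : ((m.totient : ℚ) : ℝ) = ((m * ∏ p ∈ m.primeFactors, (1 - (p : ℚ)⁻¹) : ℚ) : ℝ) := by
        rw [h2]
      push_cast at h3
      simp only [one_div]
      exact h3
    have h4 : 1 - ∑ p ∈ m.primeFactors, 1 / (p : ℝ) ≤ ∏ p ∈ m.primeFactors, (1 - 1 / (p : ℝ)) := by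
      apply one_sub_sum
      · intro p _; positivity
      · intro p hp
        have : (1 : ℝ) ≤ p := by exact_mod_cast (Nat.prime_of_mem_primeFactors hp).one_le
        rw [div_le_one (by linarith)]
        exact this
    have h5 : ∑ p ∈ m.primeFactors, 1 / (p : ℝ) ≤ ∑ p ∈ insert 5 (q * r).primeFactors, 1 / (p : ℝ) := by
      apply Finset.sum_le_sum_of_subset_of_nonneg
      · intro p hp
        obtain ⟨h6, h7, -⟩ := Nat.mem_primeFactors.1 hp
        rw [Finset.mem_insert, Nat.mem_primeFactors]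
        rcases (hpm p h6).1 h7 with h | h | h
        · exact Or.inl h
        · exact Or.inr ⟨h6, h.mul_right _, hqr0⟩
        · exact Or.inr ⟨h6, h.mul_left _, hqr0⟩
      · intro p _ _; positivity
    have h6 : (5 : ℕ) ∉ (q * r).primeFactors := by
      intro h
      have := hbig 5 (hpr 5 h).1
      omega
    rw [Finset.sum_insert h6] at h5
    have h7 : (1 / 2 : ℝ) ≤ ∏ p ∈ m.primeFactors, (1 - 1 / (p : ℝ)) := by
      push_cast at h5
      linarith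
    rw [h1]
    have h8 : (0 : ℝ) ≤ m := Nat.cast_nonneg _
    nlinarith
  obtain ⟨F, hF, hcard⟩ := sieve (w := w) (z := z) (P := P) (m := m) (T := (q * r).primeFactors)
    hm6 (Nat.one_le_iff_ne_zero.2 hm0) hw64 hz' (by rw [hw8]; exact hm1) (by rw [hw12]; exact hm2)
    (by
      intro p hp
      obtain ⟨h6, h7, -⟩ := Nat.mem_primeFactors.1 hp
      refine ⟨h6, ?_, (hpr p hp).2⟩
      rw [hpm p h6]
      exact Or.inr ((Nat.Prime.dvd_mul h6).1 h7)) hsum hphi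
  have huZ : (u : ℤ) ≠ 0 := by exact_mod_cast hu0.ne'
  let g : ℤ × ℤ → ℤ × ℤ := fun x => ((u : ℤ) ^ 2 * x.1, (u : ℤ) ^ 3 * x.2)
  have hg : Function.Injective g := by
    intro x y h
    simp only [g, Prod.mk.injEq] at h
    exact Prod.ext (mul_left_cancel₀ (pow_ne_zero 2 huZ) h.1)
      (mul_left_cancel₀ (pow_ne_zero 3 huZ) h.2)
  refine ⟨F.image g, ?_, ?_⟩
  swap
  · rw [Finset.card_image_of_injective _ hg]
    refine le_trans (le_of_eq ?_) hcard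
    have h1 : rd (q * r) = rd q * u := by
      rw [rd_eq h5qr, rd_eq h5q, hu, rd_eq h5r, Nat.Coprime.primeFactors_mul hqr,
        Finset.prod_union hqr.disjoint_primeFactors]
    have h2 : w ^ 30 = (X / u) ^ 5 := by rw [← hw6]; ring
    rw [h1, h2, hmr]
    have h3 : (0 : ℝ) < q := by exact_mod_cast Nat.pos_of_ne_zero hq0
    have h4 : (0 : ℝ) < r := by exact_mod_cast Nat.pos_of_ne_zero hr0
    have h5 : (0 : ℝ) < rd q := by exact_mod_cast hrdq0
    push_cast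
    field_simp
    ring
  intro y hy
  obtain ⟨x, hx, rfl⟩ := Finset.mem_image.1 hy
  obtain ⟨g1, g2, g3, g4, g5, g6, g7, g8, g9⟩ := hF x hx
  have hD : Dd (g x).1 (g x).2 = (u : ℤ) ^ 6 * Dd x.1 x.2 := by
    simp only [g]
    unfold Dd
    ring
  have hD0 : Dd x.1 x.2 ≠ 0 := by
    intro h0
    unfold Dd at h0
    have h1 : (3 : ℤ) ∣ 4 * x.1 ^ 3 := ⟨9 * x.2 ^ 2, by linarith⟩
    have h2 : (3 : ℤ) ∣ x.1 := by
      rcases Int.prime_three.dvd_or_dvd h1 with h | h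
      · omega
      · exact Int.prime_three.dvd_of_dvd_pow h
    have h3 := g3.dvd
    omega
  have hDn0 : (Dd x.1 x.2).natAbs ≠ 0 := Int.natAbs_ne_zero.2 hD0
  have hfD : ∀ p : ℕ, (Dd (g x).1 (g x).2).natAbs.factorization p =
      6 * u.factorization p + (Dd x.1 x.2).natAbs.factorization p := by
    intro p
    rw [hD, Int.natAbs_mul, Int.natAbs_pow, Int.natAbs_natCast,
      Nat.factorization_mul (pow_ne_zero 6 hu0.ne') hDn0, Finsupp.add_apply,
      Nat.factorization_pow, Finsupp.smul_apply, smul_eq_mul]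
  have hmD : m ∣ (Dd x.1 x.2).natAbs := Int.natCast_dvd.1 g5
  have hnx : ∀ p : ℕ, p.Prime → p ∣ m → ¬ (p : ℤ) ∣ x.1 := by
    intro p hp hpm' hpx
    have h1 : IsCoprime x.1 (p : ℤ) :=
      IsCoprime.of_isCoprime_of_dvd_right g4 (by exact_mod_cast hpm')
    have h2 : IsUnit (p : ℤ) := h1.isUnit_of_dvd' hpx dvd_rfl
    exact (Nat.prime_iff_prime_int.1 hp).not_unit h2
  have hpu : ∀ p : ℕ, p.Prime → ((p : ℤ) ∣ (u : ℤ) ↔ p ∣ r) := by
    intro p hp
    rw [Int.natCast_dvd_natCast, hp.dvd_iff_one_le_factorization hu0.ne', hfu p hp]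
    split_ifs with h <;> simp [h]
  have hpa : ∀ p : ℕ, p.Prime → ((p : ℤ) ∣ (g x).1 ↔ p ∣ r ∨ (p : ℤ) ∣ x.1) := by
    intro p hp
    have hpZ := Nat.prime_iff_prime_int.1 hp
    simp only [g]
    rw [hpZ.dvd_mul, ← hpu p hp]
    constructor
    · rintro (h | h)
      · exact Or.inl (hpZ.dvd_of_dvd_pow h)
      · exact Or.inr h
    · rintro (h | h)
      · exact Or.inl (h.trans (dvd_pow_self _ two_ne_zero))
      · exact Or.inr h
  have hDT : ∀ p : ℕ, p ∈ (q * r).primeFactors →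
      (Dd x.1 x.2).natAbs.factorization p = m.factorization p := by
    intro p hp
    obtain ⟨h6, h7, -⟩ := Nat.mem_primeFactors.1 hp
    apply val_eq hm0 h6 hDn0 hmD
    · intro h
      exact g6 p hp (Int.natCast_dvd.2 h)
    · rw [hpm p h6]
      exact Or.inr ((Nat.Prime.dvd_mul h6).1 h7)
  refine ⟨⟨?_, ?_⟩, ?_, ?_, ?_, ?_⟩
  · rw [hD]
    exact mul_ne_zero (pow_ne_zero 6 huZ) hD0
  · rintro p hp ⟨h4, h6⟩
    have hpZ := Nat.prime_iff_prime_int.1 hp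
    by_cases hpm' : p ∣ m
    · have h1 := hnx p hp hpm'
      have h2 : IsCoprime ((p : ℤ) ^ 4) x.1 :=
        ((Prime.coprime_iff_not_dvd hpZ).2 h1).pow_left
      have h3 : (p : ℤ) ^ 4 ∣ (u : ℤ) ^ 2 := h2.dvd_of_dvd_mul_right h4
      have h5 : p ^ 4 ∣ u ^ 2 := by exact_mod_cast h3
      have h7 := (Nat.factorization_le_iff_dvd (pow_ne_zero 4 hp.ne_zero)
        (pow_ne_zero 2 hu0.ne')).2 h5 p
      rw [Nat.factorization_pow, Nat.factorization_pow, Finsupp.smul_apply, Finsupp.smul_apply,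
        hp.factorization_self, hfu p hp] at h7
      split_ifs at h7 <;> simp at h7
    · have hpr2 : ¬ p ∣ r := fun h => hpm' ((hpm p hp).2 (Or.inr (Or.inr h)))
      have hpu' : ¬ (p : ℤ) ∣ (u : ℤ) := fun h => hpr2 ((hpu p hp).1 h)
      have hc : IsCoprime (p : ℤ) (u : ℤ) := (Prime.coprime_iff_not_dvd hpZ).2 hpu'
      have h1 : (p : ℤ) ^ 4 ∣ x.1 := (hc.pow (m := 4) (n := 2)).dvd_of_dvd_mul_left h4
      have h2 : (p : ℤ) ^ 6 ∣ x.2 := (hc.pow (m := 6) (n := 3)).dvd_of_dvd_mul_left h6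
      by_cases hp5 : 5 ≤ p
      · exact g9 p hp hp5 hpm' ⟨h1, h2⟩
      · have h3 : (p : ℤ) ∣ x.1 := (dvd_pow_self _ (by norm_num)).trans h1
        have h5 := g3.dvd
        have h6 := hp.two_le
        have h7 : p = 2 ∨ p = 3 ∨ p = 4 := by omega
        rcases h7 with h | h | h
        · subst h; push_cast at h3; omega
        · subst h; push_cast at h3; omega
        · subst h; norm_num at hp
  · simp only [g]
    push_cast
    rw [abs_mul, abs_of_nonneg (by positivity : (0 : ℝ) ≤ (u : ℝ) ^ 2)]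
    calc (u : ℝ) ^ 2 * |(x.1 : ℝ)| ≤ (u : ℝ) ^ 2 * w ^ 12 := by gcongr
      _ = X ^ 2 := by rw [hw12]; field_simp
  · simp only [g]
    push_cast
    rw [abs_mul, abs_of_nonneg (by positivity : (0 : ℝ) ≤ (u : ℝ) ^ 3)]
    have hw18 : w ^ 18 = (X / u) ^ 3 := by rw [← hw6]; ring
    calc (u : ℝ) ^ 3 * |(x.2 : ℝ)| ≤ (u : ℝ) ^ 3 * w ^ 18 := by gcongr
      _ = X ^ 3 := by rw [hw18]; field_simp
  · intro p hp
    obtain ⟨hpp, hpd, -⟩ := Nat.mem_primeFactors.1 hp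
    have h5j : (5 : ℕ) ^ j ≠ 0 := pow_ne_zero _ (by norm_num)
    have hv : (5 ^ j * q * r).factorization p = (if p = 5 then j else 0) + q.factorization p +
        r.factorization p := by
      rw [Nat.factorization_mul (mul_ne_zero h5j hq0) hr0, Nat.factorization_mul h5j hq0,
        Nat.factorization_pow, Finsupp.add_apply, Finsupp.add_apply, Finsupp.smul_apply,
        (show Nat.Prime 5 by norm_num).factorization, Finsupp.single_apply]
      by_cases h : p = 5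
      · simp [h]
      · simp [h, Ne.symm h]
    have hpc : p = 5 ∨ p ∣ q ∨ p ∣ r := by
      rcases (Nat.Prime.dvd_mul hpp).1 hpd with h | h
      · rcases (Nat.Prime.dvd_mul hpp).1 h with h | h
        · exact Or.inl ((Nat.prime_dvd_prime_iff_eq hpp (by norm_num)).1
            (hpp.dvd_of_dvd_pow h))
        · exact Or.inr (Or.inl h)
      · exact Or.inr (Or.inr h)
    have hp5 : 5 ≤ p := by
      rcases hpc with h | h | h
      · omega
      · exact h5q p (Nat.mem_primeFactors.2 ⟨hpp, h, hq0⟩)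
      · exact h5r p (Nat.mem_primeFactors.2 ⟨hpp, h, hr0⟩)
    have hpm' : p ∣ m := (hpm p hpp).2 hpc
    have hfe : fe p (g x).1 = if p ∣ r then 2 else 1 := by
      unfold fe
      rw [if_neg (by omega)]
      by_cases h : p ∣ r
      · rw [if_pos h, if_pos ((hpa p hpp).2 (Or.inl h))]
      · rw [if_neg h, if_neg]
        intro h1
        rcases (hpa p hpp).1 h1 with h2 | h2
        · exact h h2
        · exact hnx p hpp hpm' h2
    have hle : (5 ^ j * q * r).factorization p + fe p (g x).1 ≤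
        (Dd (g x).1 (g x).2).natAbs.factorization p := by
      have h1 : m.factorization p ≤ (Dd x.1 x.2).natAbs.factorization p :=
        (Nat.factorization_le_iff_dvd hm0 hDn0).2 hmD p
      rw [hfD p, hv, hfe, hfu p hpp]
      rw [hfm p hpp] at h1
      rcases hpc with h | h | h
      · subst h
        simp only [h5nq, h5nr, if_true, if_false] at h1 ⊢
        rw [Nat.factorization_eq_zero_of_not_dvd h5nr]
        omega
      · have h2 : ¬ p ∣ r := by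
          intro h3
          have := Nat.Prime.not_coprime_iff_dvd.2 ⟨p, hpp, h, h3⟩
          exact this hqr
        have h3 : p ≠ 5 := by rintro rfl; exact h5nq h
        simp only [h, h2, h3, if_true, if_false] at h1 ⊢
        rw [Nat.factorization_eq_zero_of_not_dvd h2]
        omega
      · have h2 : ¬ p ∣ q := by
          intro h3
          have := Nat.Prime.not_coprime_iff_dvd.2 ⟨p, hpp, h3, h⟩
          exact this hqr
        have h3 : p ≠ 5 := by rintro rfl; exact h5nr h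
        have h4 := hr5 p (Nat.mem_primeFactors.2 ⟨hpp, h, hr0⟩)
        simp only [h, h2, h3, if_true, if_false] at h1 ⊢
        rw [Nat.factorization_eq_zero_of_not_dvd h2]
        omega
    have h1 : p ^ ((5 ^ j * q * r).factorization p + fe p (g x).1) ∣
        (Dd (g x).1 (g x).2).natAbs :=
      (pow_dvd_pow p hle).trans (Nat.ordProj_dvd _ _)
    have h2 := Int.natCast_dvd.2 h1
    push_cast at h2
    exact h2
  · intro p hp hzp hpP
    have hp5 := hbig p hzp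
    have hp5' : p ≠ 5 := by omega
    have hpZ := Nat.prime_iff_prime_int.1 hp
    refine ⟨?_, ?_⟩
    · intro hpa'
      rw [hfD p, hfu p hp]
      by_cases h : p ∣ r
      · have h2 : ¬ p ∣ q := by
          intro h3
          have := Nat.Prime.not_coprime_iff_dvd.2 ⟨p, hp, h3, h⟩
          exact this hqr
        have h4 := hr5 p (Nat.mem_primeFactors.2 ⟨hp, h, hr0⟩)
        have h1 := hDT p (hpr' p (Nat.mem_primeFactors.2 ⟨hp, h, hr0⟩))
        rw [hfm p hp] at h1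
        have h6 := Nat.factorization_eq_zero_of_not_dvd h2
        simp only [h, h2, hp5', if_true, if_false] at h1 ⊢
        refine ⟨?_, h6⟩
        omega
      · have hpx : (p : ℤ) ∣ x.1 := by
          rcases (hpa p hp).1 hpa' with h2 | h2
          · exact absurd h2 h
          · exact h2
        have hpm' : ¬ p ∣ m := fun h2 => hnx p hp h2 hpx
        have hpq' : ¬ p ∣ q := fun h2 => hpm' ((hpm p hp).2 (Or.inr (Or.inl h2)))
        have h6 := Nat.factorization_eq_zero_of_not_dvd hpq'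
        have h7 := Nat.factorization_eq_zero_of_not_dvd h
        refine ⟨?_, h6⟩
        rw [h7, if_neg h]
        have h8 : (Dd x.1 x.2).natAbs.factorization p < 3 := by
          by_contra h9
          push Not at h9
          have h10 : p ^ 3 ∣ (Dd x.1 x.2).natAbs :=
            (pow_dvd_pow p h9).trans (Nat.ordProj_dvd _ _)
          have h11 := Int.natCast_dvd.2 h10
          push_cast at h11
          have h12 : (p : ℤ) ^ 3 ∣ 27 * x.2 ^ 2 := by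
            have e : 27 * x.2 ^ 2 = 4 * x.1 ^ 3 - Dd x.1 x.2 := by unfold Dd; ring
            rw [e]
            exact ((pow_dvd_pow_of_dvd hpx 3).mul_left _).sub h11
          have h13 : IsCoprime ((p : ℤ) ^ 3) 27 := by
            apply IsCoprime.pow_left
            rw [Prime.coprime_iff_not_dvd hpZ]
            intro h14
            have h15 : p ∣ 3 ^ 3 := by
              have : p ∣ 27 := by exact_mod_cast h14
              simpa using this
            have h16 := (Nat.prime_dvd_prime_iff_eq hp Nat.prime_three).1 (hp.dvd_of_dvd_pow h15)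
            omega
          have h14 : (p : ℤ) ^ 3 ∣ x.2 ^ 2 := h13.dvd_of_dvd_mul_left h12
          have h15 : (p : ℤ) ∣ x.2 :=
            hpZ.dvd_of_dvd_pow ((dvd_pow_self _ (by norm_num)).trans h14)
          obtain ⟨k, hk⟩ := h15
          have h16 : (p : ℤ) ∣ k := by
            have h17 : (p : ℤ) ^ 2 * p ∣ (p : ℤ) ^ 2 * k ^ 2 := by
              have e1 : (p : ℤ) ^ 2 * p = (p : ℤ) ^ 3 := by ring
              have e2 : (p : ℤ) ^ 2 * k ^ 2 = x.2 ^ 2 := by rw [hk]; ring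
              rw [e1, e2]
              exact h14
            have h18 : (p : ℤ) ∣ k ^ 2 :=
              (mul_dvd_mul_iff_left (pow_ne_zero 2 hpZ.ne_zero)).1 h17
            exact hpZ.dvd_of_dvd_pow h18
          apply g8 p hp hzp hpP hpm' hpx
          rw [hk, sq]
          exact mul_dvd_mul_left _ h16
        omega
    · intro hpa'
      have hpr2 : ¬ p ∣ r := fun h => hpa' ((hpa p hp).2 (Or.inl h))
      have hpx : ¬ (p : ℤ) ∣ x.1 := fun h => hpa' ((hpa p hp).2 (Or.inr h))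
      have h7 := Nat.factorization_eq_zero_of_not_dvd hpr2
      refine ⟨?_, h7⟩
      rw [hfD p, hfu p hp, if_neg hpr2]
      by_cases h : p ∣ q
      · have h1 := hDT p (hpq p (Nat.mem_primeFactors.2 ⟨hp, h, hq0⟩))
        rw [hfm p hp] at h1
        simp only [h, hp5', h7, if_true, if_false] at h1
        omega
      · have hpm' : ¬ p ∣ m := by
          intro h2
          rcases (hpm p hp).1 h2 with h3 | h3 | h3
          · exact hp5' h3
          · exact h h3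
          · exact hpr2 h3
        rw [Nat.factorization_eq_zero_of_not_dvd h]
        have h8 : (Dd x.1 x.2).natAbs.factorization p < 2 := by
          by_contra h9
          push Not at h9
          have h10 : p ^ 2 ∣ (Dd x.1 x.2).natAbs :=
            (pow_dvd_pow p h9).trans (Nat.ordProj_dvd _ _)
          have h11 := Int.natCast_dvd.2 h10
          push_cast at h11
          exact g7 p hp hzp hpP hpm' hpx h11
        omega

end Pool.Agent.N56.SZ
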